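import Pool.Agent.H854R3.NE.StepOne

/-! Consequences: rings of the variety without nilpotent elements. -/

set_option autoImplicit false

namespace Pool.Agent.H854R3.NE

/-- the rings of the variety whose commutator ideal has square zero satisfy the `n`-th Engel
identity -/
def D2Engel (E : Set (RTerm × RTerm)) (n : ℕ) : Prop :=
  1 ≤ n ∧ ∀ (R : Type) [NonUnitalRing R], Models E R → D2 R → ∀ x y : R, eng x y n = 0

theorem exists_D2Engel {E : Set (RTerm × RTerm)}
    (hW : ∀ p k : ℕ, p.Prime → 1 ≤ k → IsEngel (E ∪ WId p (p ^ k))) : ∃ n, D2Engel E n := by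
  obtain ⟨n, hn, h⟩ := step_one hW
  refine ⟨n, hn, fun R _ hR hD x y => h R ?_ x y⟩
  rintro e (he | he)
  · exact hR e he
  · exact models_D2Id.2 hD e he

variable {R : Type} [NonUnitalRing R]

/-- the products of two commutators -/
def CC (R : Type) [NonUnitalRing R] : Set R :=
  {g | ∃ a ∈ Comm R, ∃ b ∈ Comm R, g = a * b ∨ ∃ c, g = a * c * b}

theorem eng_mem_CC {E : Set (RTerm × RTerm)} {n : ℕ} (h : D2Engel E n) (hR : Models E R)
    (x y : R) : eng x y n ∈ TwoSidedIdeal.span (CC R) := by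
  obtain ⟨Q, inst, φ, hφ, hker⟩ := exists_quot (TwoSidedIdeal.span (CC R))
  rw [← hker, eng_map]
  apply h.2 Q (hR.of_surjective φ hφ)
  have lift : ∀ a ∈ Comm Q, ∃ a' ∈ Comm R, φ a' = a := by
    rintro _ ⟨u, v, rfl⟩
    obtain ⟨u, rfl⟩ := hφ u
    obtain ⟨v, rfl⟩ := hφ v
    exact ⟨u * v - v * u, ⟨u, v, rfl⟩, by rw [map_sub, map_mul, map_mul]⟩
  constructor
  · intro a ha b hb
    obtain ⟨a', ha', rfl⟩ := lift a ha
    obtain ⟨b', hb', rfl⟩ := lift b hb
    rw [← map_mul, hker]
    exact TwoSidedIdeal.subset_span ⟨a', ha', b', hb', Or.inl rfl⟩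
  · intro a ha b hb c
    obtain ⟨a', ha', rfl⟩ := lift a ha
    obtain ⟨b', hb', rfl⟩ := lift b hb
    obtain ⟨c, rfl⟩ := hφ c
    rw [← map_mul, ← map_mul, hker]
    exact TwoSidedIdeal.subset_span ⟨a', ha', b', hb', Or.inr ⟨c, rfl⟩⟩

/-- a ring generated by `a`, `y` with `a a = 0 = y a` -/
theorem D2_of_gen {a y : R} (hg : GenBy a y) (haa : a * a = 0) (hya : y * a = 0) : D2 R := by
  have h1 : ∀ b : R, b * a = 0 := by
    intro b
    refine hg.induction (P := fun b => b * a = 0) haa hya (zero_mul _) ?_ ?_ ?_ b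
    · intro u v hu hv; rw [add_mul, hu, hv, add_zero]
    · intro u hu; rw [neg_mul, hu, neg_zero]
    · intro u v _ hv; rw [mul_assoc, hv, mul_zero]
  have h2 : ∀ u : R, ∀ b, b * (u * y - y * u) = 0 := by
    intro u
    refine hg.induction (P := fun u => ∀ b, b * (u * y - y * u) = 0) ?_ ?_ ?_ ?_ ?_ ?_ u
    · intro b
      rw [mul_sub, ← mul_assoc, h1, zero_mul, ← mul_assoc, h1, sub_zero]
    · intro b; rw [sub_self, mul_zero]
    · intro b; rw [zero_mul, mul_zero, sub_self, mul_zero]
    · intro u v hu hv b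
      have : b * ((u + v) * y - y * (u + v)) = b * (u * y - y * u) + b * (v * y - y * v) := by
        noncomm_ring
      rw [this, hu, hv, add_zero]
    · intro u hu b
      have : b * (-u * y - y * -u) = - (b * (u * y - y * u)) := by noncomm_ring
      rw [this, hu, neg_zero]
    · intro u v hu hv b
      have : b * (u * v * y - y * (u * v)) = b * u * (v * y - y * v) + b * (u * y - y * u) * v := by
        noncomm_ring
      rw [this, hu, hv, zero_mul, add_zero]
  have h3 : ∀ v u : R, ∀ b, b * (u * v - v * u) = 0 := by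
    intro v
    refine hg.induction (P := fun v => ∀ u b, b * (u * v - v * u) = 0) ?_ ?_ ?_ ?_ ?_ ?_ v
    · intro u b
      rw [h1, zero_sub, mul_neg, ← mul_assoc, h1, zero_mul, neg_zero]
    · intro u b; exact h2 u b
    · intro u b; rw [zero_mul, mul_zero, sub_self, mul_zero]
    · intro v w hv hw u b
      have : b * (u * (v + w) - (v + w) * u) = b * (u * v - v * u) + b * (u * w - w * u) := by
        noncomm_ring
      rw [this, hv, hw, add_zero]
    · intro v hv u b
      have : b * (u * -v - -v * u) = - (b * (u * v - v * u)) := by noncomm_ring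
      rw [this, hv, neg_zero]
    · intro v w hv hw u b
      have : b * (u * (v * w) - (v * w) * u) = b * (u * v - v * u) * w +
          b * v * (u * w - w * u) := by
        noncomm_ring
      rw [this, hv, hw, zero_mul, add_zero]
  refine ⟨?_, ?_⟩
  · rintro a' _ _ ⟨u, v, rfl⟩
    exact h3 v u a'
  · rintro a' _ _ ⟨u, v, rfl⟩ c
    exact h3 v u (a' * c)

theorem eng_of_ya {a y : R} (hya : y * a = 0) (k : ℕ) : eng a y (k + 1) = a * npw y k := by
  induction k with
  | zero =>
    change a * y - y * a = a * y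
    rw [hya, sub_zero]
  | succ k ih =>
    change eng a y (k + 1) * y - y * eng a y (k + 1) = a * (npw y k * y)
    rw [ih, ← mul_assoc y, hya, zero_mul, sub_zero, mul_assoc]

theorem sq_zero {E : Set (RTerm × RTerm)} {n : ℕ} (h : D2Engel E n) (hR : Models E R)
    {a : R} (ha : a * a = 0) (r : R) : a * npw (r * a) (n - 1) = 0 := by
  have hya : (r * a) * a = 0 := by rw [mul_assoc, ha, mul_zero]
  have h1 : D2 (sub2 a (r * a)) := D2_of_gen (genBy_sub2 a (r * a))
    (Subtype.ext ha) (Subtype.ext hya)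
  have h2 := h.2 (sub2 a (r * a)) (hR.subring _) h1 (sx a (r * a)) (sy a (r * a))
  have h3 := eng_map (NonUnitalSubringClass.subtype (sub2 a (r * a))) (sx a (r * a))
    (sy a (r * a)) n
  rw [h2, map_zero] at h3
  have h4 : n = (n - 1) + 1 := by have := h.1; omega
  rw [h4] at h3
  change 0 = eng a (r * a) (n - 1 + 1) at h3
  rw [eng_of_ya hya] at h3
  exact h3.symm

/-- prime rings, elementwise -/
def PrimeR (R : Type) [NonUnitalRing R] : Prop :=
  ∀ a b : R, (∀ r, a * r * b = 0) → a = 0 ∨ b = 0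

/-- the inductive step in Levitzki's argument, in a ring with one -/
theorem lev_step {U : Type} [Ring U] (P : Set U) (hP : ∀ u v : U, u ∈ P → v * u ∈ P ∧ u * v ∈ P)
    (hadd : ∀ u v : U, u ∈ P → v ∈ P → u + v ∈ P)
    (k : ℕ) (b r₀ : U) (hr₀ : r₀ ∈ P) (hQ : ∀ r ∈ P, (b * r) ^ (k + 2) * b = 0) :
    ∀ w ∈ P, (((b * r₀) ^ (k + 1) * b) * w) ^ (k + 1) * ((b * r₀) ^ (k + 1) * b) = 0 := by
  intro w hw
  set a := b * r₀ with ha
  set x := b * w * a ^ (k + 1) with hx
  have hab : a ^ (k + 2) * b = 0 := hQ r₀ hr₀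
  have hab' : ∀ i, a ^ (k + 2 + i) * b = 0 := by
    intro i
    rw [add_comm, pow_add, mul_assoc, hab, mul_zero]
  have hxab : ∀ i, x * a ^ (i + 1) * b = 0 := by
    intro i
    have : x * a ^ (i + 1) * b = b * w * (a ^ (k + 2 + i) * b) := by
      rw [hx, show k + 2 + i = (k + 1) + (i + 1) by ring, pow_add a (k + 1) (i + 1)]
      simp only [mul_assoc]
    rw [this, hab', mul_zero]
  have hxax : ∀ i, x * a ^ (i + 1) * x = 0 := by
    intro i
    have : x * a ^ (i + 1) * x = (x * a ^ (i + 1) * b) * (w * a ^ (k + 1)) := by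
      conv_lhs => rw [hx]
      conv_rhs => rw [hx]
      noncomm_ring
    rw [this, hxab, zero_mul]
  have hax : ∀ i, a ^ (k + 2 + i) * x = 0 := by
    intro i
    have : a ^ (k + 2 + i) * x = (a ^ (k + 2 + i) * b) * (w * a ^ (k + 1)) := by
      rw [hx]; noncomm_ring
    rw [this, hab', zero_mul]
  -- the partial sums
  let S : ℕ → U := fun j => Nat.rec b (fun j s => a * s + x ^ (j + 1) * b) j
  have hS0 : S 0 = b := rfl
  have hS1 : ∀ j, S (j + 1) = a * S j + x ^ (j + 1) * b := fun j => rfl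
  have hxS : ∀ j i, x * a ^ (i + 1) * S j = 0 := by
    intro j
    induction j with
    | zero => intro i; rw [hS0]; exact hxab i
    | succ j ih =>
      intro i
      rw [hS1]
      have : x * a ^ (i + 1) * (a * S j + x ^ (j + 1) * b) = x * a ^ (i + 1 + 1) * S j +
          (x * a ^ (i + 1) * x) * (x ^ j * b) := by
        rw [pow_succ a (i + 1), pow_succ' x j]; noncomm_ring
      rw [this, ih, hxax, zero_mul, add_zero]
  have haS : ∀ j i, a ^ (k + 2 + i) * S j = 0 := by
    intro j
    induction j with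
    | zero => intro i; rw [hS0]; exact hab' i
    | succ j ih =>
      intro i
      rw [hS1]
      have : a ^ (k + 2 + i) * (a * S j + x ^ (j + 1) * b) = a ^ (k + 2 + (i + 1)) * S j +
          (a ^ (k + 2 + i) * x) * (x ^ j * b) := by
        rw [show k + 2 + (i + 1) = (k + 2 + i) + 1 by ring, pow_succ a (k + 2 + i),
          pow_succ' x j]; noncomm_ring
      rw [this, ih, hax, zero_mul, add_zero]
  have hxS' : ∀ j, x * S j = x ^ (j + 1) * b := by
    intro j
    cases j with
    | zero => rw [hS0, zero_add, pow_one]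
    | succ j =>
      rw [hS1, mul_add, ← mul_assoc]
      have h0 : x * a * S j = 0 := by
        have := hxS j 0
        rwa [zero_add, pow_one] at this
      rw [h0, zero_add, ← mul_assoc, ← pow_succ']
  have hSpow : ∀ j, (a + x) ^ j * b = S j := by
    intro j
    induction j with
    | zero => rw [pow_zero, one_mul, hS0]
    | succ j ih => rw [pow_succ', mul_assoc, ih, add_mul, hxS', hS1]
  have hsum : (a + x) ^ (k + 2) * b = 0 := by
    have h1 : a + x = b * (r₀ + w * a ^ (k + 1)) := by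
      rw [hx, ha]; noncomm_ring
    rw [h1]
    exact hQ _ (hadd _ _ hr₀ (hP _ _ hw).2)
  have hsum2 : a * (a * S k + x ^ (k + 1) * b) + x ^ (k + 1 + 1) * b = 0 := by
    rw [← hsum, hSpow]
  have h2 := congrArg (fun z => a ^ k * z) hsum2
  simp only [mul_zero] at h2
  have h3 : a ^ k * (a * (a * S k + x ^ (k + 1) * b) + x ^ (k + 1 + 1) * b) =
      a ^ (k + 2 + 0) * S k + (a ^ (k + 1) * (x ^ (k + 1) * b) + a ^ k * (x ^ (k + 2) * b)) := by
    rw [add_zero, pow_succ a (k + 1), pow_succ a k]; noncomm_ring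
  rw [h3, haS, zero_add] at h2
  -- rewrite
  set c := a ^ (k + 1) * b with hc
  have hxp : ∀ j, x ^ (j + 1) * b = b * w * ((c * w) ^ j * c) := by
    intro j
    induction j with
    | zero => rw [zero_add, pow_one, pow_zero, one_mul, hx, hc]; noncomm_ring
    | succ j ih =>
      rw [pow_succ' x, mul_assoc, ih, hx, hc, pow_succ' (a ^ (k + 1) * b * w) j]; noncomm_ring
  have h4 : a ^ (k + 1) * (x ^ (k + 1) * b) = (c * w) ^ (k + 1) * c := by
    rw [hxp, pow_succ' (c * w) k]
    rw [hc]; noncomm_ring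
  have h5 : a ^ k * (x ^ (k + 2) * b) = (a ^ k * b * w) * ((c * w) ^ (k + 1) * c) := by
    rw [show k + 2 = (k + 1) + 1 by ring, hxp]; noncomm_ring
  rw [h4, h5] at h2
  set Y := (c * w) ^ (k + 1) * c with hY
  set z := a ^ k * b * w with hz
  have h6 : Y = - (z * Y) := eq_neg_of_add_eq_zero_left h2
  have h7 : ∀ j, Y = (-1) ^ j * (z ^ j * Y) := by
    intro j
    induction j with
    | zero => simp
    | succ j ih =>
      have e1 : (-1 : U) ^ (j + 1) * (z ^ (j + 1) * Y) = - ((-1) ^ j * (z ^ j * (z * Y))) := by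
        rw [pow_succ, pow_succ]; noncomm_ring
      rw [e1]
      have e2 : z * Y = - Y := by rw [eq_neg_iff_add_eq_zero, add_comm]; exact h2
      rw [e2, mul_neg, mul_neg, neg_neg]
      exact ih
  have h8 : z ^ (k + 2 + 1) = 0 := by
    have e1 : ∀ j, z ^ (j + 1) = a ^ k * ((b * (w * a ^ k)) ^ j * b) * w := by
      intro j
      induction j with
      | zero => rw [zero_add, pow_one, pow_zero, one_mul, hz]
      | succ j ih =>
        rw [pow_succ' z, ih, hz, pow_succ' (b * (w * a ^ k)) j]; noncomm_ring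
    rw [e1, hQ _ (hP _ _ hw).2, mul_zero, zero_mul]
  rw [h7 (k + 2 + 1), h8, zero_mul, mul_zero]

end Pool.Agent.H854R3.NE
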