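import Pool.Agent.H854R3.NE.Dom
import Pool.Agent.H67.PI.Lin
import Pool.Agent.H67.PI.Mat

/-! The rings of characteristic `p` in the variety satisfy a multilinear identity. -/

set_option autoImplicit false

namespace Pool.Agent.H854R3.NE

section

variable {p : ℕ} [hp : Fact p.Prime]

/-- the free ring on two generators -/
abbrev FA (p : ℕ) := FreeAlgebra (ZMod p) (Fin 2)

/-- first generator -/
def g0 (p : ℕ) : FA p := FreeAlgebra.ι (ZMod p) 0
/-- second generator -/
def g1 (p : ℕ) : FA p := FreeAlgebra.ι (ZMod p) 1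

/-- the free ring without one -/
abbrev Phi (p : ℕ) : NonUnitalSubring (FA p) := sub2 (g0 p) (g1 p)

/-- a homomorphism from the free ring -/
noncomputable def toMat (p : ℕ) : FA p →ₐ[ZMod p] Matrix (Fin 2) (Fin 2) (ZMod p) :=
  FreeAlgebra.lift (ZMod p) ![!![0, 1; 0, 0], !![0, 0; 0, 1]]

theorem toMat_g0 : toMat p (g0 p) = !![0, 1; 0, 0] := by
  simp [toMat, g0]

theorem toMat_g1 : toMat p (g1 p) = !![0, 0; 0, 1] := by
  simp [toMat, g1]

theorem not_models_Phi {E : Set (RTerm × RTerm)} (hW : IsEngel (E ∪ WId p (p ^ 1))) :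
    ¬ Models E (Phi p) := by
  intro hM
  let χ : Phi p →ₙ+* Matrix (Fin 2) (Fin 2) (ZMod p) :=
    { toFun := fun w => toMat p (w : FA p)
      map_mul' := fun a b => map_mul (toMat p) (a : FA p) b
      map_zero' := map_zero (toMat p)
      map_add' := fun a b => map_add (toMat p) (a : FA p) b }
  let T : NonUnitalSubring (Matrix (Fin 2) (Fin 2) (ZMod p)) := χ.range
  have hT : Models E T := hM.of_surjective χ.rangeRestrict
    (NonUnitalRingHom.rangeRestrict_surjective χ)
  have hgen := genBy_sub2 (g0 p) (g1 p)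
  have hχ0 : χ (sx (g0 p) (g1 p)) = !![0, 1; 0, 0] := toMat_g0
  have hχ1 : χ (sy (g0 p) (g1 p)) = !![0, 0; 0, 1] := toMat_g1
  have htri : ∀ t ∈ T, t 1 0 = 0 := by
    rintro _ ⟨w, rfl⟩
    refine hgen.induction (P := fun w => χ w 1 0 = 0) ?_ ?_ ?_ ?_ ?_ ?_ w
    · rw [hχ0]; rfl
    · rw [hχ1]; rfl
    · rw [map_zero]; rfl
    · intro a b ha hb; rw [map_add, Matrix.add_apply, ha, hb, add_zero]
    · intro a ha; rw [map_neg, Matrix.neg_apply, ha, neg_zero]
    · intro a b ha hb
      rw [map_mul, Matrix.mul_apply, Fin.sum_univ_two, ha, hb, zero_mul, mul_zero, add_zero]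
  have hcard : Fintype.card (ZMod p) = p ^ 1 := by rw [ZMod.card, pow_one]
  have hIW : IsW p 1 T := isW_tri p 1 hcard T htri
  obtain ⟨n, hn, hE⟩ := hW
  have hmT : Models (E ∪ WId p (p ^ 1)) T := by
    rintro e (he | he)
    · exact hT e he
    · exact models_WId.2 hIW e he
  have h1 := hE T hmT (χ.rangeRestrict (sx (g0 p) (g1 p))) (χ.rangeRestrict (sy (g0 p) (g1 p)))
  have h2 := eng_map (NonUnitalSubringClass.subtype T) (χ.rangeRestrict (sx (g0 p) (g1 p)))
    (χ.rangeRestrict (sy (g0 p) (g1 p))) n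
  rw [h1, map_zero] at h2
  have h3 : eng (!![0, 1; 0, 0] : Matrix (Fin 2) (Fin 2) (ZMod p)) !![0, 0; 0, 1] n = 0 := by
    rw [← hχ0, ← hχ1]
    exact h2.symm
  have h4 : ∀ k, eng (!![0, 1; 0, 0] : Matrix (Fin 2) (Fin 2) (ZMod p)) !![0, 0; 0, 1] k =
      !![0, 1; 0, 0] := by
    intro k
    induction k with
    | zero => rfl
    | succ k ih =>
      change eng (!![0, 1; 0, 0] : Matrix (Fin 2) (Fin 2) (ZMod p)) !![0, 0; 0, 1] k * _ -
        _ * eng (!![0, 1; 0, 0] : Matrix (Fin 2) (Fin 2) (ZMod p)) !![0, 0; 0, 1] k = _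
      rw [ih]
      ext i j
      fin_cases i <;> fin_cases j <;> simp [Matrix.mul_apply, Fin.sum_univ_two]
  rw [h4] at h3
  have h5 := congrFun (congrFun h3 0) 1
  have h6 : (1 : ZMod p) = 0 := h5
  exact one_ne_zero h6

theorem exists_poly {E : Set (RTerm × RTerm)} (hW : IsEngel (E ∪ WId p (p ^ 1))) :
    ∃ f : FA p, f ≠ 0 ∧ ∀ (A : Type) [NonUnitalRing A] [Module (ZMod p) A]
      [IsScalarTower (ZMod p) A A] [SMulCommClass (ZMod p) A A], Models E A →
      ∀ x y : A, FreeAlgebra.lift (ZMod p)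
        ![(x : Unitization (ZMod p) A), (y : Unitization (ZMod p) A)] f = 0 := by
  by_contra hcon
  push Not at hcon
  apply not_models_Phi hW
  intro e he v
  by_contra hne
  have hw : ((e.1.val v - e.2.val v : Phi p) : FA p) ≠ 0 := by
    intro h
    apply hne
    have : e.1.val v - e.2.val v = 0 := Subtype.ext h
    exact sub_eq_zero.1 this
  obtain ⟨A, i1, i2, i3, i4, hA, x, y, hxy⟩ := hcon _ hw
  let L := FreeAlgebra.lift (ZMod p)
        ![(x : Unitization (ZMod p) A), (y : Unitization (ZMod p) A)]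
  have hL : ∀ w : Phi p, ∃ a : A, L (w : FA p) = a := by
    intro w
    refine (genBy_sub2 (g0 p) (g1 p)).induction (P := fun w => ∃ a : A, L (w : FA p) = a)
      ?_ ?_ ?_ ?_ ?_ ?_ w
    · exact ⟨x, by simp [L, sx, g0]⟩
    · exact ⟨y, by simp [L, sy, g1]⟩
    · exact ⟨0, by simp⟩
    · rintro a b ⟨a', ha⟩ ⟨b', hb⟩
      refine ⟨a' + b', ?_⟩
      change L ((a : FA p) + b) = _
      rw [map_add, ha, hb, Unitization.inr_add]
    · rintro a ⟨a', ha⟩
      refine ⟨-a', ?_⟩
      change L (-(a : FA p)) = _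
      rw [map_neg, ha, Unitization.inr_neg]
    · rintro a b ⟨a', ha⟩ ⟨b', hb⟩
      refine ⟨a' * b', ?_⟩
      change L ((a : FA p) * b) = _
      rw [map_mul, ha, hb, Unitization.inr_mul]
  choose ψ hψ using hL
  let Ψ : Phi p →ₙ+* A :=
    { toFun := ψ
      map_mul' := by
        intro a b
        apply Unitization.inr_injective (R := ZMod p)
        rw [Unitization.inr_mul, ← hψ, ← hψ, ← hψ]
        exact map_mul L (a : FA p) b
      map_zero' := by
        apply Unitization.inr_injective (R := ZMod p)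
        rw [Unitization.inr_zero, ← hψ]
        exact map_zero L
      map_add' := by
        intro a b
        apply Unitization.inr_injective (R := ZMod p)
        rw [Unitization.inr_add, ← hψ, ← hψ, ← hψ]
        exact map_add L (a : FA p) b }
  apply hxy
  have h1 : Ψ (e.1.val v - e.2.val v) = 0 := by
    rw [map_sub, val_map, val_map, sub_eq_zero]
    exact hA e he _
  have h2 : L ((e.1.val v - e.2.val v : Phi p) : FA p) = (Ψ (e.1.val v - e.2.val v) : A) := hψ _
  rw [h1, Unitization.inr_zero] at h2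
  exact h2

theorem exists_multilinear {E : Set (RTerm × RTerm)} (hW : IsEngel (E ∪ WId p (p ^ 1)))
    (A : Type) [NonUnitalRing A] [Module (ZMod p) A]
    [IsScalarTower (ZMod p) A A] [SMulCommClass (ZMod p) A A] (hA : Models E A) :
    ∃ (m : ℕ) (α : Equiv.Perm (Fin m) → ZMod p), α ≠ 0 ∧ ∀ a : Fin m → Unitization (ZMod p) A,
      ∑ π, α π • (List.ofFn fun k => a (π k)).prod = 0 := by
  obtain ⟨f, hf, hfA⟩ := exists_poly hW
  let S : Submodule (ZMod p) (Unitization (ZMod p) A) :=
    { carrier := {z | ∃ a : A, (a : Unitization (ZMod p) A) = z}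
      add_mem' := by
        rintro _ _ ⟨a, rfl⟩ ⟨b, rfl⟩
        exact ⟨a + b, Unitization.inr_add _ a b⟩
      zero_mem' := ⟨0, Unitization.inr_zero _⟩
      smul_mem' := by
        rintro c _ ⟨a, rfl⟩
        exact ⟨c • a, Unitization.inr_smul _ c a⟩ }
  have hS : ∀ z, z ∈ S ↔ ∃ a : A, (a : Unitization (ZMod p) A) = z := fun z => Iff.rfl
  obtain ⟨d, c, hc1, hc⟩ := Pool.Agent.H67.PI.linearise S f hf (by
    intro a ha
    obtain ⟨x, hx⟩ := (hS _).1 (ha 0)
    obtain ⟨y, hy⟩ := (hS _).1 (ha 1)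
    have : a = ![(x : Unitization (ZMod p) A), (y : Unitization (ZMod p) A)] := by
      funext i
      fin_cases i
      · exact hx.symm
      · exact hy.symm
    rw [this]
    exact hfA A hA x y)
  obtain ⟨m, α, _, hα, hX⟩ := Pool.Agent.H67.PI.matrix_identity S
    (by
      rintro u hu v hv
      obtain ⟨u, rfl⟩ := (hS _).1 hu
      obtain ⟨v, rfl⟩ := (hS _).1 hv
      exact (hS _).2 ⟨u * v, Unitization.inr_mul _ u v⟩) c hc1 hc
    (by
      intro x
      induction x using Unitization.ind with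
      | inl_add_inr t s =>
        refine ⟨t, s, (hS _).2 ⟨s, rfl⟩, ?_⟩
        rw [← Unitization.algebraMap_eq_inl, Algebra.algebraMap_eq_smul_one]) Unit
  refine ⟨m, α, hα, ?_⟩
  intro a
  have h1 := hX (fun k => Matrix.scalar Unit (a k))
  have h2 : ∀ π : Equiv.Perm (Fin m), (List.ofFn fun k => Matrix.scalar Unit (a (π k))).prod =
      Matrix.scalar Unit ((List.ofFn fun k => a (π k)).prod) := by
    intro π
    rw [map_list_prod, List.map_ofFn]
    rfl
  simp only [h2] at h1
  have h3 := congrFun (congrFun h1 ()) ()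
  rw [Matrix.sum_apply] at h3
  simpa using h3

end

end Pool.Agent.H854R3.NE
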