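import Pool.Agent.H854R3.NE.Dens3
import Pool.Agent.H854R3.NE.Poly

/-! Reduction to finite rings: prime rings of characteristic `p` in the variety are commutative. -/

set_option autoImplicit false

namespace Pool.Agent.H854R3.NE

theorem npw_eq_pow {Q : Type} [Ring Q] (a : Q) (k : ℕ) : npw a k = a ^ (k + 1) := by
  induction k with
  | zero => rw [zero_add, pow_one]; rfl
  | succ k ih => rw [pow_succ, ← ih]; rfl

theorem matrix_nilp {L : Type} [Field L] {s : ℕ} {N : Matrix (Fin s) (Fin s) L} {k : ℕ}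
    (h : N ^ k = 0) : N ^ s = 0 := by
  have h1 := Matrix.isNilpotent_charpoly_sub_pow_of_isNilpotent (M := N) ⟨k, h⟩
  have h2 := h1.eq_zero
  rw [sub_eq_zero, Fintype.card_fin] at h2
  have h3 := Matrix.aeval_self_charpoly N
  rw [h2, map_pow, Polynomial.aeval_X] at h3
  exact h3

/-- a finitely generated commutative domain has a finite residue field in which a given non-zero
element survives -/
theorem exists_residue (S : Type) [CommRing S] [IsDomain S] [Algebra.FiniteType ℤ S] (e : S)
    (he : e ≠ 0) : ∃ (L : Type) (_ : Field L) (_ : Finite L) (f : S →+* L), f e ≠ 0 := by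
  have hJ : IsJacobsonRing S := by
    have := jac_int
    exact isJacobsonRing_of_finiteType (A := ℤ)
  have h1 : e ∉ (⊥ : Ideal S).radical := by
    rintro ⟨n, hn⟩
    rw [Ideal.mem_bot] at hn
    exact pow_ne_zero n he hn
  rw [Ideal.radical_eq_jacobson] at h1
  unfold Ideal.jacobson at h1
  rw [Ideal.mem_sInf] at h1
  push Not at h1
  obtain ⟨𝔪, ⟨h2, h3⟩, h4⟩ := h1
  refine ⟨S ⧸ 𝔪, Ideal.Quotient.field 𝔪, residue_finite S 𝔪, Ideal.Quotient.mk 𝔪, ?_⟩
  intro h
  exact h4 (Ideal.Quotient.eq_zero_iff_mem.1 h)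

theorem finite_red {A : Type} [NonUnitalRing A] {x y : A} (hg : GenBy x y) {K : Type} [Field K]
    {s : ℕ} (Θ : A →ₙ+* Matrix (Fin s) (Fin s) K) (α : A) (hα : ∀ k, npw (Θ α) k ≠ 0) :
    ∃ (L : Type) (_ : Field L) (_ : Finite L) (Θ' : A →ₙ+* Matrix (Fin s) (Fin s) L),
      ∀ k, npw (Θ' α) k ≠ 0 := by
  classical
  let gens : Set K := {k | ∃ i j, k = Θ x i j ∨ k = Θ y i j}
  have hgfin : gens.Finite := by
    have : gens ⊆ (Set.range fun ij : Fin s × Fin s => Θ x ij.1 ij.2) ∪
        (Set.range fun ij : Fin s × Fin s => Θ y ij.1 ij.2) := by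
      rintro k ⟨i, j, rfl | rfl⟩
      · exact Or.inl ⟨(i, j), rfl⟩
      · exact Or.inr ⟨(i, j), rfl⟩
    exact ((Set.finite_range _).union (Set.finite_range _)).subset this
  let S := Algebra.adjoin ℤ gens
  have hft : Algebra.FiniteType ℤ S := by
    rw [← Subalgebra.fg_iff_finiteType]
    exact Subalgebra.fg_def.2 ⟨gens, hgfin, rfl⟩
  have hent : ∀ a i j, Θ a i j ∈ S := by
    intro a
    refine hg.induction (P := fun a => ∀ i j, Θ a i j ∈ S) ?_ ?_ ?_ ?_ ?_ ?_ a
    · intro i j; exact Algebra.subset_adjoin ⟨i, j, Or.inl rfl⟩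
    · intro i j; exact Algebra.subset_adjoin ⟨i, j, Or.inr rfl⟩
    · intro i j; rw [map_zero]; exact zero_mem _
    · intro a b ha hb i j; rw [map_add]; exact add_mem (ha i j) (hb i j)
    · intro a ha i j; rw [map_neg]; exact neg_mem (ha i j)
    · intro a b ha hb i j
      rw [map_mul, Matrix.mul_apply]
      exact sum_mem fun k _ => mul_mem (ha i k) (hb k j)
  let Θ₀ : A →ₙ+* Matrix (Fin s) (Fin s) S :=
    { toFun := fun a => Matrix.of fun i j => ⟨Θ a i j, hent a i j⟩
      map_mul' := by
        intro a b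
        ext i j
        have h1 : Θ (a * b) i j = ∑ k, Θ a i k * Θ b k j := by rw [map_mul, Matrix.mul_apply]
        rw [Matrix.mul_apply]
        simp only [Matrix.of_apply, AddSubmonoidClass.coe_finsetSum, MulMemClass.coe_mul]
        exact h1
      map_zero' := by
        ext i j
        simp
      map_add' := by
        intro a b
        ext i j
        simp }
  have hΘ₀ : (S.val : S →+* K).mapMatrix (Θ₀ α) = Θ α := by
    ext i j
    rfl
  have hne : npw (Θ₀ α) s ≠ 0 := by
    intro h
    apply hα s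
    rw [npw_eq_pow] at h ⊢
    rw [← hΘ₀, ← map_pow, h, map_zero]
  obtain ⟨i, j, hij⟩ : ∃ i j, npw (Θ₀ α) s i j ≠ 0 := by
    by_contra hcon
    push Not at hcon
    apply hne
    ext i j
    rw [hcon i j]
    rfl
  obtain ⟨L, iL, hL, f, hf⟩ := exists_residue S _ hij
  let Θ' : A →ₙ+* Matrix (Fin s) (Fin s) L :=
    (f.mapMatrix.toNonUnitalRingHom).comp Θ₀
  refine ⟨L, iL, hL, Θ', ?_⟩
  intro k hk
  rw [npw_eq_pow] at hk
  have h1 := matrix_nilp hk
  have h2 : (Θ' α) ^ (s + 1) = 0 := by rw [pow_succ, h1, zero_mul]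
  have h3 : f.mapMatrix (npw (Θ₀ α) s) = 0 := by
    rw [npw_eq_pow, map_pow]
    exact h2
  have h4 := congrFun (congrFun h3 i) j
  exact hf h4

/-- a finite ring without zero divisors is commutative -/
theorem finite_domain_comm {Q : Type} [inst : NonUnitalRing Q] [Finite Q]
    (h : ∀ a b : Q, a * b = 0 → a = 0 ∨ b = 0) (a b : Q) : a * b = b * a := by
  by_cases hz : ∀ q : Q, q = 0
  · rw [hz a, zero_mul, mul_zero]
  push Not at hz
  obtain ⟨q, hq⟩ := hz
  have hinj : Function.Injective (fun z => q * z) := by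
    intro z w hzw
    have h1 : q * (z - w) = 0 := by rw [mul_sub, sub_eq_zero]; exact hzw
    rcases h _ _ h1 with h2 | h2
    · exact absurd h2 hq
    · exact sub_eq_zero.1 h2
  obtain ⟨e, he⟩ := (Finite.surjective_of_injective hinj) q
  have he' : q * e = q := he
  have h1 : ∀ z, e * z = z := by
    intro z
    have h2 : q * (e * z - z) = 0 := by rw [mul_sub, ← mul_assoc, he', sub_self]
    rcases h _ _ h2 with h3 | h3
    · exact absurd h3 hq
    · exact sub_eq_zero.1 h3
  have hene : e ≠ 0 := by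
    rintro rfl
    rw [mul_zero] at he'
    exact hq he'.symm
  have h2 : ∀ z, z * e = z := by
    intro z
    have h3 : (z * e - z) * e = 0 := by rw [sub_mul, mul_assoc, h1 e, sub_self]
    rcases h _ _ h3 with h4 | h4
    · exact sub_eq_zero.1 h4
    · exact absurd h4 hene
  let iR : Ring Q :=
    { inst with
      one := e
      one_mul := h1
      mul_one := h2 }
  have : NoZeroDivisors Q := ⟨fun {a b} hab => h a b hab⟩
  have : Nontrivial Q := ⟨⟨q, 0, hq⟩⟩
  have : IsDomain Q := NoZeroDivisors.to_isDomain Q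
  have hf := Finite.isDomain_to_isField Q
  exact hf.mul_comm a b

/-- commutators in the finite rings of the variety are nilpotent -/
theorem finite_comm_nilp {E : Set (RTerm × RTerm)} {n : ℕ} (hD : D2Engel E n) {G : Type}
    [NonUnitalRing G] [Finite G] (hG : Models E G) (x y : G) : ∃ k, npw (x * y - y * x) k = 0 := by
  by_contra hcon
  push Not at hcon
  obtain ⟨Q, i1, φ, hφ, hP, hne⟩ := exists_prime_quot hcon
  have hQ := hG.of_surjective φ hφ
  have : Finite Q := Finite.of_surjective φ hφ
  have h1 := finite_domain_comm (fun a b hab => domain_of_prime hD hQ hP hab) (φ x) (φ y)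
  apply hne
  rw [map_sub, map_mul, map_mul, h1, sub_self]

theorem no_rep {E : Set (RTerm × RTerm)} {n : ℕ} (hD : D2Engel E n) {A : Type}
    [NonUnitalRing A] (hA : Models E A) {x y : A} (hg : GenBy x y) {K : Type} [Field K]
    {s : ℕ} (Θ : A →ₙ+* Matrix (Fin s) (Fin s) K) : ∃ k, npw (Θ (x * y - y * x)) k = 0 := by
  by_contra hcon
  push Not at hcon
  obtain ⟨L, iL, hL, Θ', hΘ'⟩ := finite_red hg Θ _ hcon
  let G : NonUnitalSubring (Matrix (Fin s) (Fin s) L) := Θ'.range
  have hG : Models E G := hA.of_surjective Θ'.rangeRestrict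
    (NonUnitalRingHom.rangeRestrict_surjective Θ')
  have hfin : Finite (Matrix (Fin s) (Fin s) L) := by
    unfold Matrix
    infer_instance
  obtain ⟨k, hk⟩ := finite_comm_nilp hD hG (Θ'.rangeRestrict x) (Θ'.rangeRestrict y)
  apply hΘ' k
  have h1 := npw_map (NonUnitalSubringClass.subtype G)
    (Θ'.rangeRestrict x * Θ'.rangeRestrict y - Θ'.rangeRestrict y * Θ'.rangeRestrict x) k
  rw [hk, map_zero] at h1
  have h2 : Θ' (x * y - y * x) = NonUnitalSubringClass.subtype G
      (Θ'.rangeRestrict x * Θ'.rangeRestrict y - Θ'.rangeRestrict y * Θ'.rangeRestrict x) := by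
    rw [map_sub, map_mul, map_mul]
    rfl
  rw [h2]
  exact h1.symm

/-- two-generated rings without zero divisors of characteristic `p` are commutative -/
theorem domain_comm {E : Set (RTerm × RTerm)} {n p : ℕ} [hp : Fact p.Prime] (hD : D2Engel E n)
    (hW : IsEngel (E ∪ WId p (p ^ 1))) {P : Type} [NonUnitalRing P] (hP : Models E P)
    (hpP : ∀ x : P, p • x = 0) (hdom : ∀ a b : P, a * b = 0 → a = 0 ∨ b = 0) {x y : P}
    (hg : GenBy x y) : x * y = y * x := by
  classical
  by_contra hne
  set α := x * y - y * x with hα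
  have hα0 : α ≠ 0 := fun h => hne (sub_eq_zero.1 h)
  have hαk : ∀ k, npw α k ≠ 0 := by
    intro k
    induction k with
    | zero => exact hα0
    | succ k ih =>
      intro h
      rcases hdom _ _ h with h | h
      · exact ih h
      · exact hα0 h
  let iM : Module (ZMod p) P := AddCommGroup.zmodModule hpP
  have hsm : ∀ (c : ZMod p), ∃ k : ℤ, ∀ z : P, c • z = k • z := by
    intro c
    obtain ⟨k, rfl⟩ := ZMod.intCast_surjective c
    exact ⟨k, fun z => Int.cast_smul_eq_zsmul (ZMod p) k z⟩
  have iT : IsScalarTower (ZMod p) P P := by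
    constructor
    intro c a b
    obtain ⟨k, hk⟩ := hsm c
    rw [hk, smul_eq_mul, smul_eq_mul, hk, smul_mul_assoc]
  have iS : SMulCommClass (ZMod p) P P := by
    constructor
    intro c a b
    obtain ⟨k, hk⟩ := hsm c
    rw [hk, smul_eq_mul, smul_eq_mul, hk, mul_smul_comm]
  obtain ⟨m, c, hc, hid⟩ := exists_multilinear (p := p) hW P hP
  obtain ⟨π0, hπ0⟩ : ∃ π0, c π0 ≠ 0 := by
    by_contra hcon
    push Not at hcon
    exact hc (funext hcon)
  let nn : Equiv.Perm (Fin m) → ℤ := fun π => (((c π0)⁻¹ * c π).val : ℤ)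
  have h0 : nn π0 = 1 := by
    have : Fact (1 < p) := ⟨hp.out.one_lt⟩
    simp only [nn]
    rw [inv_mul_cancel₀ hπ0, ZMod.val_one]
    rfl
  have hid' : ∀ a : Fin m → Unitization (ZMod p) P,
      ∑ π, nn π • (List.ofFn fun k => a (π k)).prod = 0 := by
    intro a
    have h1 : ∀ π, nn π • (List.ofFn fun k => a (π k)).prod =
        (c π0)⁻¹ • (c π • (List.ofFn fun k => a (π k)).prod) := by
      intro π
      rw [smul_smul]
      have h2 := Int.cast_smul_eq_zsmul (ZMod p) (nn π) (List.ofFn fun k => a (π k)).prod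
      have h3 : ((nn π : ℤ) : ZMod p) = (c π0)⁻¹ * c π := by
        change (((((c π0)⁻¹ * c π).val : ℕ) : ℤ) : ZMod p) = _
        rw [Int.cast_natCast, ZMod.natCast_zmod_val]
      rw [← h2, h3]
    rw [Finset.sum_congr rfl (fun π _ => h1 π), ← Finset.smul_sum, hid a, smul_zero]
  have hβk : ∀ k, ((npw α k : P) : Unitization (ZMod p) P) =
      (α : Unitization (ZMod p) P) ^ (k + 1) := by
    intro k
    induction k with
    | zero => rw [zero_add, pow_one]; rfl
    | succ k ih =>
      rw [pow_succ, ← ih, ← Unitization.inr_mul]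
      rfl
  have hβ : ∀ k, (α : Unitization (ZMod p) P) ^ k ≠ 0 := by
    intro k
    cases k with
    | zero => rw [pow_zero]; exact one_ne_zero
    | succ k =>
      rw [← hβk]
      intro h
      exact hαk k (Unitization.inr_injective (h.trans (Unitization.inr_zero (ZMod p)).symm))
  obtain ⟨K, iK, s, Θ, hΘ⟩ := exists_matrix nn π0 h0 hid' hβ
  let Θ₁ : P →ₙ+* Matrix (Fin s) (Fin s) K :=
    { toFun := fun a => Θ (a : Unitization (ZMod p) P)
      map_mul' := by intro a b; rw [Unitization.inr_mul, map_mul]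
      map_zero' := by rw [Unitization.inr_zero, map_zero]
      map_add' := by intro a b; rw [Unitization.inr_add, map_add] }
  obtain ⟨k, hk⟩ := no_rep hD hP hg Θ₁
  rw [npw_eq_pow] at hk
  exact hΘ (k + 1) hk

theorem prime_comm {E : Set (RTerm × RTerm)} {n p : ℕ} [hp : Fact p.Prime] (hD : D2Engel E n)
    (hW : IsEngel (E ∪ WId p (p ^ 1))) {P : Type} [NonUnitalRing P] (hP : Models E P)
    (hpP : ∀ x : P, p • x = 0) (hprime : PrimeR P) (x y : P) : x * y = y * x := by
  have h1 := domain_comm hD hW (hP.subring (sub2 x y)) (fun z => Subtype.ext (hpP z.1))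
    (fun a b hab => by
      rcases domain_of_prime hD hP hprime (a := (a : P)) (b := (b : P))
        (congrArg Subtype.val hab) with h | h
      · exact Or.inl (Subtype.ext h)
      · exact Or.inr (Subtype.ext h)) (genBy_sub2 x y)
  exact congrArg Subtype.val h1

end Pool.Agent.H854R3.NE
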