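import Pool.Agent.H854R3.NE.Cons

/-! Prime rings of the variety have no zero divisors; prime quotients. -/

set_option autoImplicit false

namespace Pool.Agent.H854R3.NE

variable {R : Type} [NonUnitalRing R]

theorem inr_npw (x : R) (k : ℕ) :
    ((npw x k : R) : Unitization ℤ R) = (x : Unitization ℤ R) ^ (k + 1) := by
  induction k with
  | zero => rw [zero_add, pow_one]; rfl
  | succ k ih =>
    rw [pow_succ, ← ih]
    change ((npw x k * x : R) : Unitization ℤ R) = _
    rw [Unitization.inr_mul]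

theorem inr_pow_mul (b r : R) (m : ℕ) :
    ∃ c : R, ((b : Unitization ℤ R) * r) ^ m * b = c := by
  induction m with
  | zero => exact ⟨b, by rw [pow_zero, one_mul]⟩
  | succ m ih =>
    obtain ⟨c, hc⟩ := ih
    refine ⟨b * r * c, ?_⟩
    rw [pow_succ', mul_assoc, hc, Unitization.inr_mul, Unitization.inr_mul]

theorem lev (hP : PrimeR R) (m : ℕ) : ∀ b : R,
    (∀ r : R, ((b : Unitization ℤ R) * r) ^ (m + 1) * b = 0) → b = 0 := by
  induction m with
  | zero =>
    intro b hb
    rcases hP b b (fun r => by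
      have := hb r
      rw [zero_add, pow_one, ← Unitization.inr_mul, ← Unitization.inr_mul] at this
      exact Unitization.inr_injective (this.trans (Unitization.inr_zero ℤ).symm)) with h | h <;>
      exact h
  | succ m ih =>
    intro b hb
    by_contra hne
    have h1 : ∃ r₀ : R, ((b : Unitization ℤ R) * r₀) ^ (m + 1) * b ≠ 0 := by
      by_contra hcon
      push Not at hcon
      exact hne (ih b hcon)
    obtain ⟨r₀, hr₀⟩ := h1
    obtain ⟨c, hc⟩ := inr_pow_mul b r₀ (m + 1)
    have hPu : ∀ u v : Unitization ℤ R, u ∈ Set.range (Unitization.inr : R → Unitization ℤ R) →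
        v * u ∈ Set.range (Unitization.inr : R → Unitization ℤ R) ∧
        u * v ∈ Set.range (Unitization.inr : R → Unitization ℤ R) := by
      rintro _ v ⟨u, rfl⟩
      induction v using Unitization.ind with
      | inl_add_inr k v =>
        refine ⟨⟨k • u + v * u, ?_⟩, ⟨k • u + u * v, ?_⟩⟩
        · rw [add_mul, Unitization.inl_mul_inr, Unitization.inr_add, Unitization.inr_mul]
        · rw [mul_add, Unitization.inr_mul_inl, Unitization.inr_add, Unitization.inr_mul]
    have h2 := lev_step (Set.range (Unitization.inr : R → Unitization ℤ R))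
      hPu
      (by
        rintro _ _ ⟨u, rfl⟩ ⟨v, rfl⟩
        exact ⟨u + v, Unitization.inr_add ℤ u v⟩)
      m b r₀ ⟨r₀, rfl⟩ (by
        rintro _ ⟨r, rfl⟩
        exact hb r)
    rw [hc] at h2
    have h3 : c = 0 := ih c (fun r => h2 r ⟨r, rfl⟩)
    apply hr₀
    rw [hc, h3, Unitization.inr_zero]

theorem reduced_of_prime {E : Set (RTerm × RTerm)} {n : ℕ} (h : D2Engel E n) (hR : Models E R)
    (hP : PrimeR R) {a : R} (ha : a * a = 0) : a = 0 := by
  apply lev hP (n - 1)
  intro r
  have h1 := sq_zero h hR ha r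
  have h2 : n - 1 + 1 = n := by have := h.1; omega
  have h3 : ∀ k, ((a : Unitization ℤ R) * r) ^ k * a = a * ((r * a : R) : Unitization ℤ R) ^ k := by
    intro k
    induction k with
    | zero => rw [pow_zero, pow_zero, one_mul, mul_one]
    | succ k ih =>
      rw [pow_succ', mul_assoc, ih, pow_succ', Unitization.inr_mul]
      rw [mul_assoc (a : Unitization ℤ R), mul_assoc (r : Unitization ℤ R)]
  rw [h3, ← inr_npw, ← Unitization.inr_mul, h1, Unitization.inr_zero]

/-- no zero divisors -/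
theorem domain_of_prime {E : Set (RTerm × RTerm)} {n : ℕ} (h : D2Engel E n) (hR : Models E R)
    (hP : PrimeR R) {a b : R} (hab : a * b = 0) : a = 0 ∨ b = 0 := by
  have h1 : b * a = 0 := by
    apply reduced_of_prime h hR hP
    have : b * a * (b * a) = b * (a * b) * a := by noncomm_ring
    rw [this, hab, mul_zero, zero_mul]
  apply hP
  intro r
  apply reduced_of_prime h hR hP
  have : a * r * b * (a * r * b) = a * r * (b * a) * (r * b) := by noncomm_ring
  rw [this, h1, mul_zero, zero_mul]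

/-- A non-nilpotent element survives in a prime quotient. -/
theorem exists_prime_quot {a : R} (ha : ∀ k, npw a k ≠ 0) :
    ∃ (Q : Type) (_ : NonUnitalRing Q) (φ : R →ₙ+* Q), Function.Surjective φ ∧ PrimeR Q ∧
      φ a ≠ 0 := by
  obtain ⟨I, hI, hmax⟩ := exists_max_ideal (fun I : TwoSidedIdeal R => ∀ k, npw a k ∉ I)
    (by intro k; rw [TwoSidedIdeal.mem_bot]; exact ha k)
    (by
      intro c _ _ hP U hU k hk
      obtain ⟨I, hI, h⟩ := (hU _).1 hk
      exact hP I hI k h)
  have hmax' : ∀ J : TwoSidedIdeal R, I ≤ J → J ≠ I → ∃ k, npw a k ∈ J := by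
    intro J hJ hne
    by_contra hcon
    push Not at hcon
    exact hne (hmax J hcon hJ)
  obtain ⟨Q, inst, φ, hφ, hker⟩ := exists_quot I
  refine ⟨Q, inst, φ, hφ, ?_, fun h => hI 0 ((hker _).1 h)⟩
  intro u v huv
  obtain ⟨u, rfl⟩ := hφ u
  obtain ⟨v, rfl⟩ := hφ v
  have huv' : ∀ g, u * g * v ∈ I := by
    intro g
    rw [← hker, map_mul, map_mul]
    exact huv _
  by_contra hcon
  push Not at hcon
  obtain ⟨hu, hv⟩ := hcon
  rw [Ne, hker] at hu hv
  -- first ideal
  let K1 : TwoSidedIdeal R := TwoSidedIdeal.mk' {z | ∀ g, z * g * v ∈ I}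
    (by intro g; rw [zero_mul, zero_mul]; exact I.zero_mem)
    (by intro x y hx hy g; rw [add_mul, add_mul]; exact I.add_mem (hx g) (hy g))
    (by intro x hx g; rw [neg_mul, neg_mul]; exact I.neg_mem (hx g))
    (by intro x y hy g; rw [mul_assoc x y g, mul_assoc x]; exact I.mul_mem_left _ _ (hy g))
    (by intro x y hx g; rw [mul_assoc x y g]; exact hx (y * g))
  have hK1 : ∀ z, z ∈ K1 ↔ ∀ g, z * g * v ∈ I := fun z => TwoSidedIdeal.mem_mk' _ _ _ _ _ _ z
  obtain ⟨i, hi⟩ := hmax' K1 (fun z hz => (hK1 z).2 (fun g =>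
      I.mul_mem_right _ _ (I.mul_mem_right _ _ hz)))
    (fun h => hu (h ▸ (hK1 u).2 huv'))
  rw [hK1] at hi
  let K2 : TwoSidedIdeal R := TwoSidedIdeal.mk' {z | ∀ g, npw a i * g * z ∈ I}
    (by intro g; rw [mul_zero]; exact I.zero_mem)
    (by intro x y hx hy g; rw [mul_add]; exact I.add_mem (hx g) (hy g))
    (by intro x hx g; rw [mul_neg]; exact I.neg_mem (hx g))
    (by intro x y hy g; rw [← mul_assoc, mul_assoc (npw a i) g x]; exact hy (g * x))
    (by intro x y hx g; rw [← mul_assoc]; exact I.mul_mem_right _ _ (hx g))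
  have hK2 : ∀ z, z ∈ K2 ↔ ∀ g, npw a i * g * z ∈ I := fun z => TwoSidedIdeal.mem_mk' _ _ _ _ _ _ z
  obtain ⟨j, hj⟩ := hmax' K2 (fun z hz => (hK2 z).2 (fun g => I.mul_mem_left _ _ hz))
    (fun h => hv (h ▸ (hK2 v).2 hi))
  rw [hK2] at hj
  have h1 := hj a
  have h2 : npw a i * a * npw a j = npw a (i + 1 + j + 1) := by
    rw [npw_add]; rfl
  rw [h2] at h1
  exact hI _ h1

end Pool.Agent.H854R3.NE
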