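import Mathlib

/-!
Varieties of associative (not necessarily unital) rings: terms, identities, Engel varieties,
critical rings, Cross varieties, and the basic closure properties.
-/

set_option autoImplicit false

namespace Pool.Agent.H854R3.NE

/-- Expressions in the language `(+, -, 0, *)` of associative rings, in the variables
`x_0, x_1, ...`. -/
inductive RTerm : Type
  | var (i : ℕ) : RTerm
  | zero : RTerm
  | neg (s : RTerm) : RTerm
  | add (s t : RTerm) : RTerm
  | mul (s t : RTerm) : RTerm

/-- The value of an expression in a ring when `x_i` is given the value `v i`. -/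
def RTerm.val {R : Type} [NonUnitalRing R] (v : ℕ → R) : RTerm → R
  | .var i => v i
  | .zero => 0
  | .neg s => - s.val v
  | .add s t => s.val v + t.val v
  | .mul s t => s.val v * t.val v

/-- The ring `R` satisfies the identity `e.1 = e.2`. -/
def Satisfies (R : Type) [NonUnitalRing R] (e : RTerm × RTerm) : Prop :=
  ∀ v : ℕ → R, e.1.val v = e.2.val v

/-- The ring `R` belongs to the variety defined by the set of identities `E`. -/
def Models (E : Set (RTerm × RTerm)) (R : Type) [NonUnitalRing R] : Prop :=
  ∀ e ∈ E, Satisfies R e

/-- The iterated commutator: `[x, 0 y] = x` and `[x, (k+1) y] = [[x, k y], y]`. -/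
def eng {R : Type} [NonUnitalRing R] (x y : R) : ℕ → R
  | 0 => x
  | k + 1 => eng x y k * y - y * eng x y k

/-- The variety defined by `E` is Engel. -/
def IsEngel (E : Set (RTerm × RTerm)) : Prop :=
  ∃ n : ℕ, 1 ≤ n ∧ ∀ (R : Type) [NonUnitalRing R], Models E R → ∀ x y : R, eng x y n = 0

/-- The variety defined by `E'` is contained in the variety defined by `E`. -/
def SubvarietyOf (E' E : Set (RTerm × RTerm)) : Prop :=
  ∀ (R : Type) [NonUnitalRing R], Models E' R → Models E R

/-- The variety defined by `E` is minimal non-Engel: it is not Engel, but every variety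
properly contained in it is Engel. -/
def MinimalNonEngel (E : Set (RTerm × RTerm)) : Prop :=
  ¬ IsEngel E ∧ ∀ E' : Set (RTerm × RTerm), SubvarietyOf E' E → ¬ SubvarietyOf E E' → IsEngel E'

/-- `S` is a factor of `R`: a homomorphic image of a subring of `R`. -/
def IsFactor (S R : Type) [NonUnitalRing S] [NonUnitalRing R] : Prop :=
  ∃ (B : NonUnitalSubring R) (f : B →ₙ+* S), Function.Surjective f

/-- `S` is a proper factor of `R`: a factor not isomorphic to `R`. -/
def IsProperFactor (S R : Type) [NonUnitalRing S] [NonUnitalRing R] : Prop :=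
  IsFactor S R ∧ ¬ Nonempty (S ≃+* R)

/-- `R` is critical: it is finite, and it does not lie in the variety generated by its proper
factors, i.e. some identity holds in all proper factors of `R` but not in `R`. -/
def IsCritical (R : Type) [NonUnitalRing R] : Prop :=
  Finite R ∧ ∃ e : RTerm × RTerm,
    (∀ (S : Type) [NonUnitalRing S], IsProperFactor S R → Satisfies S e) ∧ ¬ Satisfies R e

/-- The variety defined by `E` is finitely based. -/
def FinitelyBased (E : Set (RTerm × RTerm)) : Prop :=
  ∃ E' : Set (RTerm × RTerm), E'.Finite ∧ ∀ (R : Type) [NonUnitalRing R], Models E' R ↔ Models E R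

/-- The variety defined by `E` is locally finite: every finitely generated member is finite. -/
def LocallyFiniteVar (E : Set (RTerm × RTerm)) : Prop :=
  ∀ (R : Type) [NonUnitalRing R], Models E R →
    ∀ s : Set R, s.Finite → NonUnitalSubring.closure s = ⊤ → Finite R

/-- The variety defined by `E` contains only finitely many critical rings up to isomorphism. -/
def FinitelyManyCritical (E : Set (RTerm × RTerm)) : Prop :=
  ∃ (n : ℕ) (S : Fin n → Type) (_ : ∀ i, NonUnitalRing (S i)),
    ∀ (R : Type) [NonUnitalRing R], Models E R → IsCritical R → ∃ i, Nonempty (R ≃+* S i)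

/-- The variety defined by `E` is a Cross variety. -/
def IsCross (E : Set (RTerm × RTerm)) : Prop :=
  FinitelyBased E ∧ LocallyFiniteVar E ∧ FinitelyManyCritical E

/-! ### Closure properties -/

section closure

variable {R S : Type} [NonUnitalRing R] [NonUnitalRing S]

theorem val_map (f : R →ₙ+* S) (v : ℕ → R) (t : RTerm) : f (t.val v) = t.val (fun i => f (v i)) := by
  induction t with
  | var i => rfl
  | zero => exact map_zero f
  | neg s ih => simp only [RTerm.val, map_neg, ih]
  | add s t ih1 ih2 => simp only [RTerm.val, map_add, ih1, ih2]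
  | mul s t ih1 ih2 => simp only [RTerm.val, map_mul, ih1, ih2]

theorem Satisfies.of_injective {e : RTerm × RTerm} (f : S →ₙ+* R) (hf : Function.Injective f)
    (h : Satisfies R e) : Satisfies S e := by
  intro v
  apply hf
  rw [val_map, val_map]
  exact h _

theorem Satisfies.of_surjective {e : RTerm × RTerm} (f : R →ₙ+* S) (hf : Function.Surjective f)
    (h : Satisfies R e) : Satisfies S e := by
  intro v
  choose w hw using fun i => hf (v i)
  have e1 := congrArg f (h w)
  rw [val_map, val_map] at e1
  have e2 : (fun i => f (w i)) = v := funext hw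
  rwa [e2] at e1

theorem Models.of_injective {E : Set (RTerm × RTerm)} (f : S →ₙ+* R) (hf : Function.Injective f)
    (h : Models E R) : Models E S := fun e he => (h e he).of_injective f hf

theorem Models.of_surjective {E : Set (RTerm × RTerm)} (f : R →ₙ+* S) (hf : Function.Surjective f)
    (h : Models E R) : Models E S := fun e he => (h e he).of_surjective f hf

theorem Models.subring {E : Set (RTerm × RTerm)} (h : Models E R) (B : NonUnitalSubring R) :
    Models E B :=
  h.of_injective (NonUnitalSubringClass.subtype B) Subtype.val_injective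

theorem Models.pi {E : Set (RTerm × RTerm)} {ι : Type} (A : ι → Type)
    [∀ i, NonUnitalRing (A i)] (h : ∀ i, Models E (A i)) : Models E (∀ i, A i) := by
  intro e he v
  funext i
  have h1 := h i e he (fun j => v j i)
  have h2 := val_map (Pi.evalNonUnitalRingHom A i) v e.1
  have h3 := val_map (Pi.evalNonUnitalRingHom A i) v e.2
  exact h2.trans (h1.trans h3.symm)

theorem Models.prod {E : Set (RTerm × RTerm)} (h : Models E R) (h' : Models E S) :
    Models E (R × S) := by
  intro e he v
  have h1 := h e he (fun j => (v j).1)
  have h2 := h' e he (fun j => (v j).2)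
  have h3 := val_map (NonUnitalRingHom.fst R S) v
  have h4 := val_map (NonUnitalRingHom.snd R S) v
  exact Prod.ext ((h3 _).trans (h1.trans (h3 _).symm)) ((h4 _).trans (h2.trans (h4 _).symm))

theorem eng_map (f : R →ₙ+* S) (x y : R) (n : ℕ) : f (eng x y n) = eng (f x) (f y) n := by
  induction n with
  | zero => rfl
  | succ n ih => simp only [eng, map_sub, map_mul, ih]

theorem eng_add (x y : R) (m n : ℕ) : eng x y (m + n) = eng (eng x y m) y n := by
  induction n with
  | zero => rfl
  | succ n ih =>
    change eng x y (m + n) * y - y * eng x y (m + n) = _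
    rw [ih]; rfl

theorem eng_zero_left (y : R) (n : ℕ) : eng (0 : R) y n = 0 := by
  induction n with
  | zero => rfl
  | succ n ih => simp only [eng, ih, zero_mul, mul_zero, sub_zero]

theorem eng_eq_zero_of_le {x y : R} {m n : ℕ} (h : eng x y m = 0) (hmn : m ≤ n) :
    eng x y n = 0 := by
  obtain ⟨k, rfl⟩ := Nat.exists_eq_add_of_le hmn
  rw [eng_add, h, eng_zero_left]

theorem eng_add_left (x x' y : R) (n : ℕ) : eng (x + x') y n = eng x y n + eng x' y n := by
  induction n with
  | zero => rfl
  | succ n ih => simp only [eng, ih]; noncomm_ring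

theorem eng_neg_left (x y : R) (n : ℕ) : eng (-x) y n = - eng x y n := by
  induction n with
  | zero => rfl
  | succ n ih => simp only [eng, ih]; noncomm_ring

theorem eng_zsmul_left (k : ℤ) (x y : R) (n : ℕ) : eng (k • x) y n = k • eng x y n := by
  induction n with
  | zero => rfl
  | succ n ih => simp only [eng, ih, smul_mul_assoc, mul_smul_comm, smul_sub]

end closure

/-- Quotient by a two-sided ideal. -/
theorem exists_quot {R : Type} [NonUnitalRing R] (I : TwoSidedIdeal R) :
    ∃ (Q : Type) (_ : NonUnitalRing Q) (φ : R →ₙ+* Q), Function.Surjective φ ∧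
      ∀ x, φ x = 0 ↔ x ∈ I := by
  refine ⟨I.ringCon.Quotient, inferInstance,
    { toFun := fun x => (x : I.ringCon.Quotient)
      map_mul' := fun x y => rfl
      map_zero' := rfl
      map_add' := fun x y => rfl }, ?_, ?_⟩
  · intro x
    obtain ⟨y, rfl⟩ := Quotient.exists_rep x
    exact ⟨y, rfl⟩
  · intro x
    rw [TwoSidedIdeal.mem_iff]
    exact RingCon.eq I.ringCon

/-- If a variety is not Engel then it contains a ring with two elements all of whose iterated
commutators are non-zero. -/
theorem exists_of_not_engel {E : Set (RTerm × RTerm)} (h : ¬ IsEngel E) :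
    ∃ (A : Type) (_ : NonUnitalRing A) (x y : A), Models E A ∧ ∀ n, eng x y n ≠ 0 := by
  unfold IsEngel at h
  push Not at h
  choose R inst hR x y hxy using fun n : ℕ => h (n + 1) (Nat.succ_le_succ (Nat.zero_le n))
  refine ⟨∀ n, R n, inferInstance, x, y, Models.pi R hR, ?_⟩
  intro n hn
  apply hxy n
  have h1 := eng_map (Pi.evalNonUnitalRingHom R n) x y (n + 1)
  have h2 : eng x y (n + 1) = 0 := eng_eq_zero_of_le hn (Nat.le_succ n)
  rw [h2, map_zero] at h1
  exact h1.symm

/-- The quotient of a member of a variety lies in the variety. -/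
theorem isEngel_of_forall {E : Set (RTerm × RTerm)}
    (h : ∀ (A : Type) [NonUnitalRing A] (x y : A), Models E A → ∃ n, eng x y n = 0) :
    IsEngel E := by
  by_contra hcon
  obtain ⟨A, inst, x, y, hA, hne⟩ := exists_of_not_engel hcon
  obtain ⟨n, hn⟩ := h A x y hA
  exact hne n hn

end Pool.Agent.H854R3.NE
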