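import Pool.Agent.H854R3.NE.WSi

/-! Every subvariety of the variety of rings of characteristic `p` in which the ideal generated by
the `x ^ q - x` and the commutators has square zero is a Cross variety. -/

set_option autoImplicit false

namespace Pool.Agent.H854R3.NE

/-! ### The identities -/

/-- the term `t ^ (n + 1)` -/
def pwT (t : RTerm) : ℕ → RTerm
  | 0 => t
  | n + 1 => .mul (pwT t n) t

/-- the term `n t` -/
def nsT (t : RTerm) : ℕ → RTerm
  | 0 => .zero
  | n + 1 => .add (nsT t n) t

/-- difference -/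
def subT (s t : RTerm) : RTerm := .add s (.neg t)

/-- `x ^ q - x` -/
def G1 (q i : ℕ) : RTerm := subT (pwT (.var i) (q - 1)) (.var i)

/-- commutator -/
def G2 (i j : ℕ) : RTerm := subT (.mul (.var i) (.var j)) (.mul (.var j) (.var i))

/-- the list of identities -/
def WList (p q : ℕ) : List (RTerm × RTerm) :=
  (nsT (.var 0) p, .zero) ::
    [(.mul (G1 q 0) (G1 q 2), .zero), (.mul (G1 q 0) (G2 2 3), .zero),
     (.mul (G2 0 1) (G1 q 2), .zero), (.mul (G2 0 1) (G2 2 3), .zero),
     (.mul (.mul (G1 q 0) (.var 4)) (G1 q 2), .zero),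
     (.mul (.mul (G1 q 0) (.var 4)) (G2 2 3), .zero),
     (.mul (.mul (G2 0 1) (.var 4)) (G1 q 2), .zero),
     (.mul (.mul (G2 0 1) (.var 4)) (G2 2 3), .zero)]

/-- the set of identities -/
def WId (p q : ℕ) : Set (RTerm × RTerm) := {e | e ∈ WList p q}

theorem WId_finite (p q : ℕ) : (WId p q).Finite := List.finite_toSet _

variable {R : Type} [NonUnitalRing R]

theorem val_pwT (v : ℕ → R) (t : RTerm) (n : ℕ) : (pwT t n).val v = npw (t.val v) n := by
  induction n with
  | zero => rfl
  | succ n ih => simp only [pwT, RTerm.val, npw, ih]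

theorem val_nsT (v : ℕ → R) (t : RTerm) (n : ℕ) : (nsT t n).val v = n • t.val v := by
  induction n with
  | zero => simp only [nsT, RTerm.val, zero_smul]
  | succ n ih => simp only [nsT, RTerm.val, ih, succ_nsmul]

theorem val_G1 (v : ℕ → R) (q i : ℕ) : (G1 q i).val v = npw (v i) (q - 1) - v i := by
  simp only [G1, subT, RTerm.val, val_pwT, sub_eq_add_neg]

theorem val_G2 (v : ℕ → R) (i j : ℕ) : (G2 i j).val v = v i * v j - v j * v i := by
  simp only [G2, subT, RTerm.val, sub_eq_add_neg]

theorem models_WId {p k : ℕ} : Models (WId p (p ^ k)) R ↔ IsW p k R := by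
  constructor
  · intro h
    have get : ∀ e ∈ WList p (p ^ k), Satisfies R e := h
    simp only [WList, List.mem_cons, List.not_mem_nil, or_false, forall_eq_or_imp,
      forall_eq] at get
    obtain ⟨h0, h1, h2, h3, h4, h5, h6, h7, h8⟩ := get
    let w : R → R → R → R → R → ℕ → R := fun a b c d e i =>
      match i with
      | 0 => a
      | 1 => b
      | 2 => c
      | 3 => d
      | _ => e
    refine ⟨?_, ?_, ?_⟩
    · intro x
      have := h0 (fun _ => x)
      simpa only [val_nsT, RTerm.val] using this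
    · rintro a (⟨x, rfl⟩ | ⟨x, y, rfl⟩) b (⟨z, rfl⟩ | ⟨z, t, rfl⟩)
      · have := h1 (w x x z z z)
        simp only [RTerm.val, val_G1, val_G2] at this
        exact this
      · have := h2 (w x x z t z)
        simp only [RTerm.val, val_G1, val_G2] at this
        exact this
      · have := h3 (w x y z z z)
        simp only [RTerm.val, val_G1, val_G2] at this
        exact this
      · have := h4 (w x y z t z)
        simp only [RTerm.val, val_G1, val_G2] at this
        exact this
    · rintro a (⟨x, rfl⟩ | ⟨x, y, rfl⟩) b (⟨z, rfl⟩ | ⟨z, t, rfl⟩) c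
      · have := h5 (w x x z z c)
        simp only [RTerm.val, val_G1, val_G2] at this
        exact this
      · have := h6 (w x x z t c)
        simp only [RTerm.val, val_G1, val_G2] at this
        exact this
      · have := h7 (w x y z z c)
        simp only [RTerm.val, val_G1, val_G2] at this
        exact this
      · have := h8 (w x y z t c)
        simp only [RTerm.val, val_G1, val_G2] at this
        exact this
  · intro h
    have key : ∀ e ∈ WList p (p ^ k), Satisfies R e := by
      simp only [WList, List.mem_cons, List.not_mem_nil, or_false, forall_eq_or_imp,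
        forall_eq]
      refine ⟨?_, ?_, ?_, ?_, ?_, ?_, ?_, ?_, ?_⟩
      · intro v
        simpa only [val_nsT, RTerm.val] using h.char (v 0)
      · intro v
        simp only [RTerm.val, val_G1, val_G2]
        exact h.mul _ (Or.inl ⟨_, rfl⟩) _ (Or.inl ⟨_, rfl⟩)
      · intro v
        simp only [RTerm.val, val_G1, val_G2]
        exact h.mul _ (Or.inl ⟨_, rfl⟩) _ (Or.inr ⟨_, _, rfl⟩)
      · intro v
        simp only [RTerm.val, val_G1, val_G2]
        exact h.mul _ (Or.inr ⟨_, _, rfl⟩) _ (Or.inl ⟨_, rfl⟩)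
      · intro v
        simp only [RTerm.val, val_G1, val_G2]
        exact h.mul _ (Or.inr ⟨_, _, rfl⟩) _ (Or.inr ⟨_, _, rfl⟩)
      · intro v
        simp only [RTerm.val, val_G1, val_G2]
        exact h.mul3 _ (Or.inl ⟨_, rfl⟩) _ (Or.inl ⟨_, rfl⟩) _
      · intro v
        simp only [RTerm.val, val_G1, val_G2]
        exact h.mul3 _ (Or.inl ⟨_, rfl⟩) _ (Or.inr ⟨_, _, rfl⟩) _
      · intro v
        simp only [RTerm.val, val_G1, val_G2]
        exact h.mul3 _ (Or.inr ⟨_, _, rfl⟩) _ (Or.inl ⟨_, rfl⟩) _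
      · intro v
        simp only [RTerm.val, val_G1, val_G2]
        exact h.mul3 _ (Or.inr ⟨_, _, rfl⟩) _ (Or.inr ⟨_, _, rfl⟩) _
    exact key

/-! ### Small rings -/

/-- a copy of `Fin m` without the arithmetic -/
def FinT (m : ℕ) : Type := Fin m

instance (m : ℕ) : Finite (FinT m) := inferInstanceAs (Finite (Fin m))

/-- the ring structures on the sets with at most `B` elements -/
def Small (B : ℕ) : Type := Σ m : Fin (B + 1), NonUnitalRing (FinT m)

instance (B : ℕ) : Finite (Small B) := by
  unfold Small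
  have : ∀ m : Fin (B + 1), Finite (NonUnitalRing (FinT m)) := by
    intro m
    refine Finite.of_injective (β := (FinT m → FinT m → FinT m) × (FinT m → FinT m → FinT m))
      (fun i => (fun x y => i.toAdd.add x y, fun x y => i.toMul.mul x y)) ?_
    intro i j hij
    have h1 := congrArg Prod.fst hij
    have h2 := congrArg Prod.snd hij
    apply NonUnitalRing.ext
    · funext x y
      exact congrFun (congrFun h1 x) y
    · funext x y
      exact congrFun (congrFun h2 x) y
  infer_instance

/-- the carrier -/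
def Small.T {B : ℕ} (S : Small B) : Type := FinT S.1

instance {B : ℕ} (S : Small B) : NonUnitalRing S.T := S.2

instance {B : ℕ} (S : Small B) : Finite S.T := inferInstanceAs (Finite (FinT S.1))

theorem exists_small {B : ℕ} [Finite R] (h : Nat.card R ≤ B) :
    ∃ S : Small B, Nonempty (R ≃+* S.T) := by
  let e : FinT (Nat.card R) ≃ R := (Finite.equivFin R).symm
  let inst : NonUnitalRing (FinT (Nat.card R)) := e.nonUnitalRing
  refine ⟨⟨⟨Nat.card R, Nat.lt_succ_of_le h⟩, inst⟩, ⟨?_⟩⟩
  exact e.ringEquiv.symm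

/-- homomorphisms to a small ring -/
theorem finite_hom {B : ℕ} {s : Set R} (hs : s.Finite) (hcl : NonUnitalSubring.closure s = ⊤)
    (S : Small B) : Finite (R →ₙ+* S.T) := by
  have := hs.to_subtype
  refine Finite.of_injective (β := s → S.T) (fun φ x => φ x.1) ?_
  intro φ ψ h
  apply NonUnitalRingHom.eq_of_eqOn_set_dense hcl
  intro x hx
  exact congrFun h ⟨x, hx⟩

theorem exists_small_quot {p k : ℕ} [hp : Fact p.Prime] (hk : 1 ≤ k) (h : IsW p k R) {b : R}
    (hb : b ≠ 0) : ∃ (S : Small (p ^ k * (p ^ k * p ^ k))) (φ : R →ₙ+* S.T),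
      Function.Surjective φ ∧ φ b ≠ 0 := by
  obtain ⟨Q, inst, φ, hφ, hb1, hall⟩ := exists_si_quot hb
  have hQ : IsW p k Q := by
    rw [← models_WId] at h ⊢
    exact h.of_surjective φ hφ
  obtain ⟨hfin, hcard⟩ := si_bound hk hQ hb1 hall
  obtain ⟨S, ⟨e⟩⟩ := exists_small hcard
  refine ⟨S, (e : Q →ₙ+* S.T).comp φ, e.surjective.comp hφ, ?_⟩
  intro h0
  apply hb1
  have : e (φ b) = 0 := h0
  exact (map_eq_zero_iff e e.injective).1 this

theorem locallyFinite_of_sub {p k : ℕ} [hp : Fact p.Prime] (hk : 1 ≤ k)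
    {E : Set (RTerm × RTerm)} (hE : SubvarietyOf E (WId p (p ^ k))) : LocallyFiniteVar E := by
  intro R _ hR s hs hcl
  have hW : IsW p k R := models_WId.1 (hE R hR)
  have hfin : ∀ S : Small (p ^ k * (p ^ k * p ^ k)), Finite (R →ₙ+* S.T) :=
    fun S => finite_hom hs hcl S
  let Ω := Σ S : Small (p ^ k * (p ^ k * p ^ k)), (R →ₙ+* S.T)
  have hΩ : Finite Ω := inferInstance
  refine Finite.of_injective (β := ∀ ω : Ω, ω.1.T) (fun x ω => ω.2 x) ?_
  intro x y hxy
  by_contra hne
  obtain ⟨S, φ, _, h⟩ := exists_small_quot hk hW (sub_ne_zero.2 hne)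
  apply h
  rw [map_sub, sub_eq_zero]
  exact congrFun hxy ⟨S, φ⟩

theorem finitelyBased_of_sub {p k : ℕ} [hp : Fact p.Prime] (hk : 1 ≤ k)
    {E : Set (RTerm × RTerm)} (hE : SubvarietyOf E (WId p (p ^ k))) : FinitelyBased E := by
  classical
  let B := p ^ k * (p ^ k * p ^ k)
  have hch : ∀ S : Small B, ∃ e : RTerm × RTerm, ¬ Models E S.T → e ∈ E ∧ ¬ Satisfies S.T e := by
    intro S
    by_cases h : Models E S.T
    · exact ⟨(.zero, .zero), fun h' => absurd h h'⟩
    · unfold Models at h
      push Not at h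
      obtain ⟨e, he, h⟩ := h
      exact ⟨e, fun _ => ⟨he, h⟩⟩
  choose f hf using hch
  refine ⟨WId p (p ^ k) ∪ f '' {S | ¬ Models E S.T},
    (WId_finite _ _).union ((Set.toFinite _).image f), ?_⟩
  intro R _
  constructor
  · intro h
    have hW : IsW p k R := models_WId.1 (fun e he => h e (Or.inl he))
    intro e he v
    by_contra hne
    obtain ⟨S, φ, hφ, h1⟩ := exists_small_quot hk hW (sub_ne_zero.2 hne)
    have hS : ¬ Models E S.T := by
      intro hS
      apply h1
      rw [map_sub, sub_eq_zero, val_map, val_map]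
      exact hS e he _
    exact (hf S hS).2 ((h (f S) (Or.inr ⟨S, hS, rfl⟩)).of_surjective φ hφ)
  · intro h e he
    rcases he with he | ⟨S, hS, rfl⟩
    · exact hE R h e he
    · exact h _ (hf S hS).1

theorem critical_of_sub {p k : ℕ} [hp : Fact p.Prime] (hk : 1 ≤ k)
    {E : Set (RTerm × RTerm)} (hE : SubvarietyOf E (WId p (p ^ k))) : FinitelyManyCritical E := by
  classical
  let B := p ^ k * (p ^ k * p ^ k)
  obtain ⟨n, ⟨g⟩⟩ := Finite.exists_equiv_fin (Small B)
  refine ⟨n, fun i => (g.symm i).T, fun i => inferInstance, ?_⟩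
  intro R _ hR hcrit
  obtain ⟨hfin, e, h1, h2⟩ := hcrit
  have hW : IsW p k R := models_WId.1 (hE R hR)
  unfold Satisfies at h2
  push Not at h2
  obtain ⟨v, hv⟩ := h2
  obtain ⟨S, φ, hφ, h3⟩ := exists_small_quot hk hW (sub_ne_zero.2 hv)
  by_cases hiso : Nonempty (R ≃+* S.T)
  · refine ⟨g S, ?_⟩
    change Nonempty (R ≃+* (g.symm (g S)).T)
    rw [Equiv.symm_apply_apply]
    exact hiso
  · exfalso
    apply h3
    have h4 : Satisfies S.T e := by
      apply h1
      refine ⟨⟨⊤, φ.comp (NonUnitalSubringClass.subtype _), ?_⟩, ?_⟩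
      · intro y
        obtain ⟨x, rfl⟩ := hφ y
        exact ⟨⟨x, trivial⟩, rfl⟩
      · rintro ⟨i⟩
        exact hiso ⟨i.symm⟩
    rw [map_sub, sub_eq_zero, val_map, val_map]
    exact h4 _

/-- Every subvariety is a Cross variety. -/
theorem cross_of_sub {p k : ℕ} [hp : Fact p.Prime] (hk : 1 ≤ k)
    {E : Set (RTerm × RTerm)} (hE : SubvarietyOf E (WId p (p ^ k))) : IsCross E :=
  ⟨finitelyBased_of_sub hk hE, locallyFinite_of_sub hk hE, critical_of_sub hk hE⟩

end Pool.Agent.H854R3.NE
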