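import Mathlib

/-! Density and multilinear identities. -/

set_option autoImplicit false

namespace Pool.Agent.H854R3.NE

open Polynomial

/-- the elements commuting with everything -/
theorem exists_comm_max {Q : Type} [Ring Q] (S₀ : Set Q) :
    ∃ X : Set Q, (∀ φ ∈ X, ∀ s ∈ S₀, φ * s = s * φ) ∧ (∀ φ ∈ X, ∀ ψ ∈ X, φ * ψ = ψ * φ) ∧
      ∀ φ, (∀ s ∈ S₀, φ * s = s * φ) → (∀ ψ ∈ X, φ * ψ = ψ * φ) → φ ∈ X := by
  obtain ⟨X, hX⟩ := zorn_subset {X : Set Q | (∀ φ ∈ X, ∀ s ∈ S₀, φ * s = s * φ) ∧
      (∀ φ ∈ X, ∀ ψ ∈ X, φ * ψ = ψ * φ)} (by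
    intro c hc hchain
    refine ⟨⋃₀ c, ⟨?_, ?_⟩, fun s hs => Set.subset_sUnion_of_mem hs⟩
    · rintro φ ⟨Y, hY, hφ⟩ s hs
      exact (hc hY).1 φ hφ s hs
    · rintro φ ⟨Y, hY, hφ⟩ ψ ⟨Z, hZ, hψ⟩
      rcases hchain.total hY hZ with h | h
      · exact (hc hZ).2 φ (h hφ) ψ hψ
      · exact (hc hY).2 φ hφ ψ (h hψ))
  refine ⟨X, hX.1.1, hX.1.2, ?_⟩
  intro φ h1 h2
  have h3 : insert φ X ∈ {X : Set Q | (∀ φ ∈ X, ∀ s ∈ S₀, φ * s = s * φ) ∧
      (∀ φ ∈ X, ∀ ψ ∈ X, φ * ψ = ψ * φ)} := by
    constructor
    · rintro ψ (rfl | hψ) s hs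
      · exact h1 s hs
      · exact hX.1.1 ψ hψ s hs
    · rintro ψ (rfl | hψ) χ (rfl | hχ)
      · rfl
      · exact h2 χ hχ
      · exact (h2 ψ hψ).symm
      · exact hX.1.2 ψ hψ χ hχ
  exact hX.2 h3 (Set.subset_insert φ X) (Set.mem_insert φ X)

theorem exists_simple {C : Type} [Ring C] {β : C} (hβ : ∀ k, β ^ k ≠ 0) :
    ∃ (M : Type) (_ : AddCommGroup M) (_ : Module C[X] M), IsSimpleModule C[X] M ∧
      ∀ k, ∃ v : M, (Polynomial.C β : C[X]) ^ k • v ≠ 0 := by
  have h1 : Ideal.span {(1 - X * Polynomial.C β : C[X])} ≠ ⊤ := by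
    intro h
    rw [Ideal.eq_top_iff_one, Ideal.mem_span_singleton'] at h
    obtain ⟨q, hq⟩ := h
    have h2 : ∀ i, q.coeff i = β ^ i := by
      have hq' : q - q * X * Polynomial.C β = 1 := by
        rw [← hq, mul_sub, mul_one, mul_assoc]
      intro i
      induction i with
      | zero =>
        have := congrArg (fun r => r.coeff 0) hq'
        simpa using this
      | succ i ih =>
        have := congrArg (fun r => r.coeff (i + 1)) hq'
        simp only [coeff_sub, coeff_mul_C, coeff_mul_X, ih] at this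
        rw [Polynomial.coeff_one, if_neg (by omega), sub_eq_zero] at this
        rw [this, pow_succ]
    have h3 := h2 (q.natDegree + 1)
    rw [Polynomial.coeff_eq_zero_of_natDegree_lt (Nat.lt_succ_self _)] at h3
    exact hβ _ h3.symm
  obtain ⟨L, hL, hle⟩ := Ideal.exists_le_maximal _ h1
  refine ⟨C[X] ⧸ L, inferInstance, inferInstance, ?_, ?_⟩
  · exact isSimpleModule_iff_isCoatom.2 hL.out
  · intro k
    refine ⟨Submodule.Quotient.mk 1, ?_⟩
    intro hk
    have hmem : (1 - X * Polynomial.C β : C[X]) ∈ L := hle (Ideal.subset_span rfl)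
    have h4 : (Submodule.Quotient.mk (1 : C[X]) : C[X] ⧸ L) =
        (X * Polynomial.C β : C[X]) • (Submodule.Quotient.mk (1 : C[X]) : C[X] ⧸ L) := by
      rw [← Submodule.Quotient.mk_smul, smul_eq_mul, mul_one]
      exact (Submodule.Quotient.eq L).2 hmem
    have h5 : ∀ j, (Submodule.Quotient.mk (1 : C[X]) : C[X] ⧸ L) =
        (X * Polynomial.C β : C[X]) ^ j • (Submodule.Quotient.mk (1 : C[X]) : C[X] ⧸ L) := by
      intro j
      induction j with
      | zero => rw [pow_zero, one_smul]
      | succ j ih => rw [pow_succ, mul_smul, ← h4, ← ih]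
    have h6 : (Submodule.Quotient.mk (1 : C[X]) : C[X] ⧸ L) = 0 := by
      rw [h5 k, (Polynomial.commute_X (Polynomial.C β)).mul_pow, mul_smul, hk, smul_zero]
    have h7 : (1 : C[X]) ∈ L := (Submodule.Quotient.mk_eq_zero L).1 h6
    exact hL.ne_top ((Ideal.eq_top_iff_one L).2 h7)

/-- a multilinear map vanishing on a set vanishes on the subgroup generated by it -/
theorem multilin_closure {V W : Type} [AddCommGroup V] [AddCommGroup W] {m : ℕ}
    (g : MultilinearMap ℤ (fun _ : Fin m => V) W)
    (E : Set V) (h : ∀ X : Fin m → V, (∀ j, X j ∈ E) → g X = 0)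
    (X : Fin m → V) (hX : ∀ j, X j ∈ AddSubgroup.closure E) : g X = 0 := by
  classical
  have key : ∀ s : Finset (Fin m), ∀ X : Fin m → V, (∀ j, j ∉ s → X j ∈ E) →
      (∀ j, X j ∈ AddSubgroup.closure E) → g X = 0 := by
    intro s
    induction s using Finset.induction_on with
    | empty => intro X hX _; exact h X (fun j => hX j (by simp))
    | insert i s his ih =>
      intro X hX hX'
      have h1 : ∀ y ∈ AddSubgroup.closure E, g (Function.update X i y) = 0 := by
        intro y hy
        induction hy using AddSubgroup.closure_induction with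
        | mem y hy =>
          apply ih
          · intro j hj
            by_cases hji : j = i
            · subst hji; rwa [Function.update_self]
            · rw [Function.update_of_ne hji]
              exact hX j (by simp [hji, hj])
          · intro j
            by_cases hji : j = i
            · subst hji; rw [Function.update_self]; exact AddSubgroup.subset_closure hy
            · rw [Function.update_of_ne hji]; exact hX' j
        | zero => exact g.map_update_zero X i
        | add y z _ _ h1 h2 => rw [g.map_update_add, h1, h2, add_zero]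
        | neg y _ h1 =>
          have := g.map_update_smul X i (-1 : ℤ) y
          rw [neg_one_smul, neg_one_smul, h1, neg_zero] at this
          exact this
      have := h1 (X i) (hX' i)
      rwa [Function.update_eq_self] at this
  exact key Finset.univ X (fun j hj => absurd (Finset.mem_univ j) hj) hX

theorem prod_split {Q : Type} [Ring Q] {ι : Type} (a c : ι → Q)
    (h1 : ∀ i j, c i * a j = a j * c i) (l : List ι) :
    (l.map fun i => a i * c i).prod = (l.map a).prod * (l.map c).prod := by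
  have h2 : ∀ i (l : List ι), c i * (l.map a).prod = (l.map a).prod * c i := by
    intro i l
    induction l with
    | nil => simp
    | cons j l ih =>
      rw [List.map_cons, List.prod_cons, ← mul_assoc, h1, mul_assoc, ih, mul_assoc]
  induction l with
  | nil => simp
  | cons j l ih =>
    rw [List.map_cons, List.map_cons, List.map_cons, List.prod_cons, List.prod_cons,
      List.prod_cons, ih, mul_assoc, ← mul_assoc (c j), h2, mul_assoc, mul_assoc]

/-- the multilinear map of an identity -/
noncomputable def mlm {Q : Type} [Ring Q] {m : ℕ} (nn : Equiv.Perm (Fin m) → ℤ) :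
    MultilinearMap ℤ (fun _ : Fin m => Q) Q :=
  ∑ π : Equiv.Perm (Fin m), nn π • ((MultilinearMap.mkPiAlgebraFin ℤ m Q).domDomCongr π)

theorem mlm_apply {Q : Type} [Ring Q] {m : ℕ} (nn : Equiv.Perm (Fin m) → ℤ) (X : Fin m → Q) :
    mlm nn X = ∑ π, nn π • (List.ofFn fun k => X (π k)).prod := by
  simp only [mlm, _root_.sum_apply, _root_.smul_apply,
      MultilinearMap.domDomCongr_apply, MultilinearMap.mkPiAlgebraFin_apply]

theorem identity_ext {Q : Type} [Ring Q] {m : ℕ} (nn : Equiv.Perm (Fin m) → ℤ) {C : Type} [Ring C]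
    (ρ : C →+* Q) (hid : ∀ a : Fin m → C, ∑ π, nn π • (List.ofFn fun k => a (π k)).prod = 0)
    (K : Set Q) (hK : ∀ κ ∈ K, ∀ κ' ∈ K, κ * κ' = κ' * κ) (hKρ : ∀ κ ∈ K, ∀ r, κ * ρ r = ρ r * κ)
    (t : Fin m → Q) (ht : ∀ j, t j ∈ AddSubgroup.closure {z | ∃ r, ∃ κ ∈ K, z = ρ r * κ}) :
    ∑ π, nn π • (List.ofFn fun k => t (π k)).prod = 0 := by
  rw [← mlm_apply]
  refine multilin_closure _ _ ?_ t ht
  intro X hX
  choose r κ hκ hX using hX
  rw [mlm_apply]
  have h1 : ∀ π : Equiv.Perm (Fin m), (List.ofFn fun k => X (π k)).prod =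
      ρ (List.ofFn fun k => r (π k)).prod * (List.ofFn κ).prod := by
    intro π
    have e1 : (List.ofFn fun k => X (π k)) = (List.ofFn π).map fun i => ρ (r i) * κ i := by
      rw [List.map_ofFn]
      congr 1
      funext k
      exact hX (π k)
    rw [e1, prod_split (fun i => ρ (r i)) κ (fun i j => hKρ _ (hκ i) _)]
    congr 1
    · rw [map_list_prod, List.map_ofFn, List.map_ofFn]
      rfl
    · have e2 : ((List.ofFn π).map κ).Perm (List.ofFn κ) := by
        rw [List.map_ofFn]
        exact Equiv.Perm.ofFn_comp_perm π κ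
      apply List.Perm.prod_eq' e2
      rw [List.map_ofFn, List.pairwise_ofFn]
      intro i j _
      exact hK _ (hκ _) _ (hκ _)
  simp only [h1]
  have h2 := congrArg (fun z => ρ z * (List.ofFn κ).prod) (hid r)
  simp only [map_sum, map_zsmul, Finset.sum_mul, zero_mul, map_zero] at h2
  rw [← h2]
  apply Finset.sum_congr rfl
  intro π _
  rw [smul_mul_assoc]

end Pool.Agent.H854R3.NE
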