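import Pool.Agent.H854R3.NE.Dens

/-! A simple module over a ring with a multilinear identity is finite-dimensional over the ring of
its endomorphisms. -/

set_option autoImplicit false

namespace Pool.Agent.H854R3.NE

open Polynomial

theorem chain_prod {R M : Type} [Ring R] [AddCommGroup M] [Module R M] {m : ℕ}
    (v : Fin (m + 1) → M) (r : Fin m → R)
    (hr : ∀ k j, r k • v j = if j = k.succ then v k.castSucc else 0) (σ : Equiv.Perm (Fin m)) :
    (List.ofFn fun k => r (σ k)).prod • v (Fin.last m) = if σ = 1 then v 0 else 0 := by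
  classical
  set L := List.ofFn fun k => r (σ k) with hL
  have hlen : L.length = m := by rw [hL, List.length_ofFn]
  have key : ∀ d k : ℕ, (hk : k + d = m) → (L.drop k).prod • v (Fin.last m) =
      if (∀ i : Fin m, k ≤ i.val → σ i = i) then v ⟨k, by omega⟩ else 0 := by
    intro d
    induction d with
    | zero =>
      intro k hk
      rw [List.drop_of_length_le (by omega), List.prod_nil, one_smul, if_pos]
      · congr 1
        apply Fin.ext
        simp only [Fin.val_last]
        omega
      · intro i hi
        have := i.2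
        omega
    | succ d ih =>
      intro k hk
      have hkm : k < m := by omega
      have h1 := ih (k + 1) (by omega)
      rw [List.drop_eq_getElem_cons (by omega), List.prod_cons, mul_smul, h1]
      have h2 : L[k]'(by omega) = r (σ ⟨k, hkm⟩) := by
        simp [hL]
      rw [h2]
      by_cases h3 : ∀ i : Fin m, k + 1 ≤ i.val → σ i = i
      · rw [if_pos h3, hr]
        by_cases h4 : σ ⟨k, hkm⟩ = ⟨k, hkm⟩
        · rw [if_pos, if_pos, h4]
          · rfl
          · intro i hi
            rcases Nat.lt_or_ge k i.val with h5 | h5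
            · exact h3 i h5
            · have : i = ⟨k, hkm⟩ := Fin.ext (by simp only; omega)
              rw [this, h4]
          · rw [h4]; rfl
        · rw [if_neg, if_neg]
          · intro h5
            exact h4 (h5 ⟨k, hkm⟩ (le_refl _))
          · intro h5
            apply h4
            have h6 := congrArg Fin.val h5
            simp only [Fin.val_succ] at h6
            apply Fin.ext
            simp only
            omega
      · rw [if_neg h3, smul_zero, if_neg]
        intro h5
        exact h3 (fun i hi => h5 i (by omega))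
  have h0 := key m 0 (by omega)
  rw [List.drop_zero] at h0
  rw [h0]
  by_cases h1 : σ = 1
  · rw [if_pos h1, if_pos]
    · rfl
    · intro i _; rw [h1]; rfl
  · rw [if_neg h1, if_neg]
    intro h2
    apply h1
    ext i
    rw [h2 i (Nat.zero_le _)]
    rfl

theorem finite_of_identity {R M : Type} [Ring R] [AddCommGroup M] [Module R M]
    [IsSimpleModule R M] [DecidableEq (Module.End R M)] {m : ℕ}
    (nn : Equiv.Perm (Fin m) → ℤ) (π0 : Equiv.Perm (Fin m)) (h0 : nn π0 = 1)
    (hid : ∀ t : Fin m → R, ∑ π, nn π • (List.ofFn fun k => t (π k)).prod = 0) :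
    Module.Finite (Module.End R M) M := by
  classical
  by_contra hinf
  have h1 : ((m + 1 : ℕ) : Cardinal) ≤ Module.rank (Module.End R M) M := by
    apply le_trans (Cardinal.natCast_lt_aleph0).le
    rw [← not_lt]
    intro h
    exact hinf (Module.rank_lt_aleph0_iff.1 h)
  obtain ⟨s, hs, hli⟩ := exists_finset_linearIndependent_of_le_rank h1
  let e : Fin (m + 1) ≃ s := (Fintype.equivFinOfCardEq (by simpa using hs)).symm
  let v : Fin (m + 1) → M := fun i => (e i : M)
  have hv : LinearIndependent (Module.End R M) v := by
    have h2 : LinearIndependent (Module.End R M) (fun i : s => (i : M)) := hli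
    exact h2.comp e e.injective
  have hf : ∀ k : Fin m, ∃ f : M →ₗ[Module.End R M] M,
      ∀ j, f (v j) = if j = k.succ then v k.castSucc else 0 := by
    intro k
    obtain ⟨g, hg⟩ := LinearMap.exists_extend ((Module.Basis.span hv).constr ℤ
      (fun j => if j = k.succ then v k.castSucc else 0))
    refine ⟨g, fun j => ?_⟩
    have h3 := congrArg (fun h => h (Module.Basis.span hv j)) hg
    simp only [LinearMap.comp_apply, Module.Basis.constr_basis] at h3
    rw [← h3]
    congr 1
    simp [Module.Basis.span_apply]
  choose f hf using hf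
  have hr : ∀ k : Fin m, ∃ r : R, ∀ j, r • v j = if j = k.succ then v k.castSucc else 0 := by
    intro k
    obtain ⟨r, hr⟩ := jacobson_density (f k) (Finset.univ.image v)
    refine ⟨r, fun j => ?_⟩
    rw [← hr (v j) (Finset.mem_image_of_mem v (Finset.mem_univ j)), hf]
  choose r hr using hr
  have h2 := hid (fun j => r (π0⁻¹ j))
  have h3 := congrArg (fun z => z • v (Fin.last m)) h2
  simp only [Finset.sum_smul, zero_smul] at h3
  have h4 : ∀ π : Equiv.Perm (Fin m),
      (nn π • (List.ofFn fun k => r (π0⁻¹ (π k))).prod) • v (Fin.last m) =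
      if π = π0 then v 0 else 0 := by
    intro π
    rw [smul_assoc]
    have h5 := chain_prod v r hr (π0⁻¹ * π)
    have h6 : (List.ofFn fun k => r (π0⁻¹ (π k))).prod • v (Fin.last m) =
      if π0⁻¹ * π = 1 then v 0 else 0 := h5
    rw [h6]
    by_cases h7 : π = π0
    · rw [if_pos h7, if_pos (by rw [h7, inv_mul_cancel]), h7, h0, one_smul]
    · rw [if_neg h7, if_neg, smul_zero]
      intro h8
      exact h7 (inv_mul_eq_one.1 h8).symm
  rw [Finset.sum_congr rfl (fun π _ => h4 π), Finset.sum_ite_eq' Finset.univ π0,
    if_pos (Finset.mem_univ _)] at h3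
  exact hv.ne_zero 0 h3

theorem matrix_of_comm {K M C : Type} [Field K] [AddCommGroup M] [Module K M] [Module.Finite K M]
    [Ring C] (ψ : C →+* Module.End K M) (β : C) (hβ : ∀ k, ψ β ^ k ≠ 0) :
    ∃ (s : ℕ) (Θ : C →+* Matrix (Fin s) (Fin s) K), ∀ k, Θ β ^ k ≠ 0 := by
  let b := Module.finBasis K M
  let e := LinearMap.toMatrixAlgEquiv b
  refine ⟨_, e.toRingEquiv.toRingHom.comp ψ, ?_⟩
  intro k hk
  apply hβ k
  apply e.injective
  rw [map_pow, map_zero]
  exact hk

end Pool.Agent.H854R3.NE
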