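import Pool.Agent.H854R3.NE.LemA
import Pool.Agent.H854R3.NE.FinRed

/-! The rings of characteristic `p` in the variety satisfy an Engel identity. -/

set_option autoImplicit false

namespace Pool.Agent.H854R3.NE

section leib

variable {U : Type} [Ring U]

theorem eng_mul_mem (K : AddSubgroup U) (y : U) (m : ℕ) : ∀ d e : U,
    (∀ i ≤ m, eng d y i * eng e y (m - i) ∈ K) → eng (d * e) y m ∈ K := by
  induction m with
  | zero => intro d e h; exact h 0 (le_refl _)
  | succ m ih =>
    intro d e h
    have h1 : eng (d * e) y (m + 1) = eng ((d * y - y * d) * e) y m +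
        eng (d * (e * y - y * e)) y m := by
      rw [← eng_add_left, add_comm m 1, eng_add]
      congr 1
      change d * e * y - y * (d * e) = _
      noncomm_ring
    rw [h1]
    apply add_mem
    · apply ih
      intro i hi
      have h2 := h (i + 1) (by omega)
      rw [add_comm i 1, eng_add] at h2
      rw [show m + 1 - (1 + i) = m - i by omega] at h2
      exact h2
    · apply ih
      intro i hi
      have h2 := h i (by omega)
      rw [show m + 1 - i = 1 + (m - i) by omega, eng_add] at h2
      exact h2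

theorem eng_up {y : U} {n : ℕ} (hy : ∀ d ∈ CI U, eng d y n ∈ CI U ^ 2) (j : ℕ) :
    ∃ m, ∀ u ∈ CI U ^ (j + 1), eng u y m ∈ CI U ^ (j + 2) := by
  induction j with
  | zero =>
    refine ⟨n, fun u hu => hy u ?_⟩
    rwa [zero_add, Submodule.pow_one] at hu
  | succ j ih =>
    obtain ⟨m, hm⟩ := ih
    refine ⟨n + m, fun u hu => ?_⟩
    rw [Ideal.IsTwoSided.pow_succ] at hu
    refine Submodule.smul_induction_on hu ?_ ?_
    · intro d hd e he
      rw [smul_eq_mul]
      apply eng_mul_mem (Submodule.toAddSubgroup (CI U ^ (j + 1 + 2)))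
      intro i hi
      change eng d y i * eng e y (n + m - i) ∈ CI U ^ (j + 1 + 2)
      rcases Nat.lt_or_ge i n with h | h
      · have h1 : eng e y (n + m - i) ∈ CI U ^ (j + 2) := by
          have : n + m - i = m + (n - i) := by omega
          rw [this, eng_add]
          exact eng_mem_ideal _ (hm e he) y _
        rw [show j + 1 + 2 = (j + 2) + 1 by ring, Ideal.IsTwoSided.pow_succ]
        exact Ideal.mul_mem_mul (eng_mem_ideal _ hd y i) h1
      · have h1 : eng d y i ∈ CI U ^ 2 := by
          have : i = n + (i - n) := by omega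
          rw [this, eng_add]
          exact eng_mem_ideal _ (hy d hd) y _
        rw [show j + 1 + 2 = 2 + (j + 1) by ring, Ideal.IsTwoSided.pow_add]
        exact Ideal.mul_mem_mul h1 (eng_mem_ideal _ he y _)
    · intro a b ha hb
      rw [eng_add_left]
      exact add_mem ha hb

theorem eng_zero_of_nilp {x y : U} {n : ℕ} (hy : ∀ d ∈ CI U, eng d y n ∈ CI U ^ 2) {k : ℕ}
    (hk : CI U ^ (k + 1) = ⊥) : ∃ m, eng x y m = 0 := by
  have h1 : ∀ j, ∃ m, eng x y m ∈ CI U ^ (j + 1) := by
    intro j
    induction j with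
    | zero =>
      refine ⟨1, ?_⟩
      rw [zero_add, Submodule.pow_one]
      exact comm_mem_CI x y
    | succ j ih =>
      obtain ⟨m, hm⟩ := ih
      obtain ⟨m', hm'⟩ := eng_up hy j
      refine ⟨m + m', ?_⟩
      rw [eng_add]
      exact hm' _ hm
  obtain ⟨m, hm⟩ := h1 k
  rw [hk] at hm
  exact ⟨m, hm⟩

end leib

section main

variable {E : Set (RTerm × RTerm)}

/-- the inclusion of a ring in its unitization -/
def inrR (A : Type) [NonUnitalRing A] : A →ₙ+* Unitization ℤ A :=
  { toFun := fun a => (a : Unitization ℤ A)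
    map_mul' := fun a b => Unitization.inr_mul ℤ a b
    map_zero' := Unitization.inr_zero ℤ
    map_add' := fun a b => Unitization.inr_add ℤ a b }

theorem inrR_inj (A : Type) [NonUnitalRing A] : Function.Injective (inrR A) :=
  Unitization.inr_injective

theorem gen_unit {A : Type} [NonUnitalRing A] {x y : A} (hg : GenBy x y) :
    Subring.closure ({inrR A x, inrR A y} : Set (Unitization ℤ A)) = ⊤ := by
  rw [eq_top_iff]
  rintro u -
  have h1 : ∀ a : A, inrR A a ∈ Subring.closure ({inrR A x, inrR A y} : Set (Unitization ℤ A)) := by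
    intro a
    refine hg.induction (P := fun a => inrR A a ∈
      Subring.closure ({inrR A x, inrR A y} : Set (Unitization ℤ A))) ?_ ?_ ?_ ?_ ?_ ?_ a
    · exact Subring.subset_closure (Or.inl rfl)
    · exact Subring.subset_closure (Or.inr rfl)
    · rw [map_zero]; exact zero_mem _
    · intro a b ha hb; rw [map_add]; exact add_mem ha hb
    · intro a ha; rw [map_neg]; exact neg_mem ha
    · intro a b ha hb; rw [map_mul]; exact mul_mem ha hb
  induction u using Unitization.ind with
  | inl_add_inr k a =>
    refine add_mem ?_ (h1 a)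
    have : (Unitization.inl k : Unitization ℤ A) = (k : Unitization ℤ A) := by
      rw [← Unitization.algebraMap_eq_inl]
      exact (eq_intCast (algebraMap ℤ (Unitization ℤ A)) k)
    rw [this]
    exact intCast_mem _ k

theorem CI_range {A : Type} [NonUnitalRing A] : ∀ d ∈ CI (Unitization ℤ A),
    d ∈ Set.range (inrR A) := by
  intro d hd
  unfold CI at hd
  induction hd using Submodule.span_induction with
  | mem z hz =>
    obtain ⟨⟨u, v⟩, rfl⟩ := hz
    refine ⟨(u * v - v * u).snd, ?_⟩
    apply Unitization.ext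
    · change 0 = (u * v).fst - (v * u).fst
      rw [Unitization.fst_mul, Unitization.fst_mul, mul_comm, sub_self]
    · rfl
  | zero => exact ⟨0, map_zero _⟩
  | add u v _ _ h1 h2 =>
    obtain ⟨a, rfl⟩ := h1
    obtain ⟨b, rfl⟩ := h2
    exact ⟨a + b, map_add _ _ _⟩
  | smul r u _ h1 =>
    obtain ⟨a, rfl⟩ := h1
    induction r using Unitization.ind with
    | inl_add_inr k v =>
      refine ⟨k • a + v * a, ?_⟩
      rw [smul_eq_mul, add_mul]
      change ((k • a + v * a : A) : Unitization ℤ A) = _
      rw [Unitization.inr_add, Unitization.inr_mul]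
      congr 1
      exact (Unitization.inl_mul_inr k a).symm

/-- the image of the ideal generated by the products of two commutators -/
theorem inr_CC {A : Type} [NonUnitalRing A] {a : A} (ha : a ∈ TwoSidedIdeal.span (CC A)) :
    inrR A a ∈ CI (Unitization ℤ A) ^ 2 := by
  let J : TwoSidedIdeal A := TwoSidedIdeal.mk' {z | inrR A z ∈ CI (Unitization ℤ A) ^ 2}
    (by
      change inrR A 0 ∈ CI (Unitization ℤ A) ^ 2
      rw [map_zero]; exact zero_mem _)
    (by
      intro x y hx hy
      change inrR A (x + y) ∈ CI (Unitization ℤ A) ^ 2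
      rw [map_add]; exact add_mem hx hy)
    (by
      intro x hx
      change inrR A (-x) ∈ CI (Unitization ℤ A) ^ 2
      rw [map_neg]; exact neg_mem hx)
    (by
      intro x y hy
      change inrR A (x * y) ∈ CI (Unitization ℤ A) ^ 2
      rw [map_mul]; exact Ideal.mul_mem_left _ _ hy)
    (by
      intro x y hx
      change inrR A (x * y) ∈ CI (Unitization ℤ A) ^ 2
      rw [map_mul]; exact Ideal.mul_mem_right _ _ hx)
  have hJ : ∀ z, z ∈ J ↔ inrR A z ∈ CI (Unitization ℤ A) ^ 2 :=
    fun z => TwoSidedIdeal.mem_mk' _ _ _ _ _ _ z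
  have hc : ∀ g ∈ Comm A, inrR A g ∈ CI (Unitization ℤ A) := by
    rintro _ ⟨u, v, rfl⟩
    rw [map_sub, map_mul, map_mul]
    exact comm_mem_CI _ _
  have hle : TwoSidedIdeal.span (CC A) ≤ J := by
    rw [TwoSidedIdeal.span_le]
    rintro g ⟨b, hb, c, hcc, rfl | ⟨e, rfl⟩⟩
    · refine (hJ _).2 ?_
      rw [map_mul]
      exact mul_mem_CI2 (hc b hb) (hc c hcc)
    · refine (hJ _).2 ?_
      rw [map_mul, map_mul]
      exact mul_mem_CI2 (Ideal.mul_mem_right _ _ (hc b hb)) (hc c hcc)
  exact (hJ a).1 (hle ha)

theorem engel_p_gen {n p : ℕ} [hp : Fact p.Prime] (hD : D2Engel E n)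
    (hW : IsEngel (E ∪ WId p (p ^ 1))) {B : Type} [NonUnitalRing B] (hB : Models E B)
    (hpB : ∀ x : B, p • x = 0) {X Y : B} (hgB : GenBy X Y) : ∃ m, eng X Y m = 0 := by
  have hgen := gen_unit hgB
  have hengz : ∀ z : B, ∀ d ∈ CI (Unitization ℤ B), eng d (inrR B z) n ∈
      CI (Unitization ℤ B) ^ 2 := by
    intro z d hd
    obtain ⟨a, rfl⟩ := CI_range d hd
    rw [← eng_map]
    exact inr_CC (eng_mem_CC hD hB a z)
  obtain ⟨k, hk⟩ := CI_nilp hgen hD.1 (hengz X) (hengz Y) (Set.range (inrR B))
    (by
      rintro _ ⟨a, rfl⟩ u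
      induction u using Unitization.ind with
      | inl_add_inr k v =>
        refine ⟨⟨k • a + v * a, ?_⟩, ⟨k • a + a * v, ?_⟩⟩
        · rw [add_mul]
          change ((k • a + v * a : B) : Unitization ℤ B) = _
          rw [Unitization.inr_add, Unitization.inr_mul]
          congr 1
          exact (Unitization.inl_mul_inr k a).symm
        · rw [mul_add]
          change ((k • a + a * v : B) : Unitization ℤ B) = _
          rw [Unitization.inr_add, Unitization.inr_mul]
          congr 1
          exact (Unitization.inr_mul_inl k a).symm)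
    CI_range
    (by
      intro I hI
      obtain ⟨Q, i1, φ, hφ, hker⟩ := exists_quot (R := Unitization ℤ B) I
      let χ : B →ₙ+* Q := φ.comp (inrR B)
      let P : NonUnitalSubring Q := χ.range
      have hP : Models E P := hB.of_surjective χ.rangeRestrict
        (NonUnitalRingHom.rangeRestrict_surjective χ)
      have hpP : ∀ z : P, p • z = 0 := by
        rintro ⟨_, ⟨b, rfl⟩⟩
        apply Subtype.ext
        change p • χ b = 0
        rw [← map_nsmul, hpB, map_zero]
      have hprime : PrimeR P := by
        rintro ⟨_, ⟨a, rfl⟩⟩ ⟨_, ⟨b, rfl⟩⟩ hab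
        have h1 := hI (inrR B a) ⟨a, rfl⟩ (inrR B b) ⟨b, rfl⟩ (by
          rintro _ ⟨r, rfl⟩
          have h2 : φ (inrR B a * inrR B r * inrR B b) = 0 := by
            rw [map_mul, map_mul]
            exact congrArg Subtype.val (hab ⟨χ r, ⟨r, rfl⟩⟩)
          exact (hker _).1 h2)
        rcases h1 with h1 | h1
        · exact Or.inl (Subtype.ext ((hker _).2 h1))
        · exact Or.inr (Subtype.ext ((hker _).2 h1))
      have h2 := prime_comm hD hW hP hpP hprime (χ.rangeRestrict X) (χ.rangeRestrict Y)
      have h3 : φ (inrR B X * inrR B Y - inrR B Y * inrR B X) = 0 := by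
        rw [map_sub, map_mul, map_mul, sub_eq_zero]
        exact congrArg Subtype.val h2
      exact (hker _).1 h3)
  obtain ⟨m, hm⟩ := eng_zero_of_nilp (x := inrR B X) (hengz Y) hk
  refine ⟨m, inrR_inj B ?_⟩
  have h1 := eng_map (S := Unitization ℤ B) (inrR B) X Y m
  rw [map_zero, h1]
  exact hm

theorem engel_p {n p : ℕ} [hp : Fact p.Prime] (hD : D2Engel E n)
    (hW : IsEngel (E ∪ WId p (p ^ 1))) {A : Type} [NonUnitalRing A] (hA : Models E A)
    (hpA : ∀ x : A, p • x = 0) (x y : A) : ∃ m, eng x y m = 0 := by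
  obtain ⟨m, hm⟩ := engel_p_gen hD hW (hA.subring (sub2 x y))
    (fun z => Subtype.ext (hpA z.1)) (genBy_sub2 x y)
  refine ⟨m, ?_⟩
  have := eng_map (NonUnitalSubringClass.subtype (sub2 x y)) (sx x y) (sy x y) m
  rw [hm, map_zero] at this
  exact this.symm

end main

end Pool.Agent.H854R3.NE
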