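import Pool.Agent.H854R3.NE.Cross

/-! Two-generated rings, and finite fields. -/

set_option autoImplicit false

namespace Pool.Agent.H854R3.NE

variable {R : Type} [NonUnitalRing R]

/-- `R` is generated by `x` and `y`. -/
def GenBy (x y : R) : Prop := NonUnitalSubring.closure ({x, y} : Set R) = ⊤

theorem GenBy.induction {x y : R} (h : GenBy x y) {P : R → Prop} (hx : P x) (hy : P y)
    (h0 : P 0) (hadd : ∀ a b, P a → P b → P (a + b)) (hneg : ∀ a, P a → P (-a))
    (hmul : ∀ a b, P a → P b → P (a * b)) (a : R) : P a := by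
  have ha : a ∈ NonUnitalSubring.closure ({x, y} : Set R) := by rw [h]; trivial
  induction ha using NonUnitalSubring.closure_induction with
  | mem z hz =>
    rcases hz with rfl | hz
    · exact hx
    · rw [Set.mem_singleton_iff] at hz
      subst hz; exact hy
  | zero => exact h0
  | add a b _ _ h1 h2 => exact hadd a b h1 h2
  | neg a _ h1 => exact hneg a h1
  | mul a b _ _ h1 h2 => exact hmul a b h1 h2

theorem GenBy.map {x y : R} (h : GenBy x y) {S : Type} [NonUnitalRing S] (f : R →ₙ+* S)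
    (hf : Function.Surjective f) : GenBy (f x) (f y) := by
  rw [GenBy, eq_top_iff]
  intro s _
  obtain ⟨r, rfl⟩ := hf s
  refine h.induction (P := fun r => f r ∈ NonUnitalSubring.closure ({f x, f y} : Set S))
    ?_ ?_ ?_ ?_ ?_ ?_ r
  · exact NonUnitalSubring.subset_closure (Or.inl rfl)
  · exact NonUnitalSubring.subset_closure (Or.inr rfl)
  · rw [map_zero]; exact zero_mem _
  · intro a b ha hb; rw [map_add]; exact add_mem ha hb
  · intro a ha; rw [map_neg]; exact neg_mem ha
  · intro a b ha hb; rw [map_mul]; exact mul_mem ha hb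

/-- the subring generated by `x` and `y` -/
def sub2 (x y : R) : NonUnitalSubring R := NonUnitalSubring.closure ({x, y} : Set R)

/-- `x` in the subring -/
def sx (x y : R) : sub2 x y := ⟨x, NonUnitalSubring.subset_closure (Or.inl rfl)⟩
/-- `y` in the subring -/
def sy (x y : R) : sub2 x y := ⟨y, NonUnitalSubring.subset_closure (Or.inr rfl)⟩

theorem genBy_sub2 (x y : R) : GenBy (sx x y) (sy x y) := by
  rw [GenBy, eq_top_iff]
  rintro ⟨w, hw⟩ _
  have key : ∀ w ∈ sub2 x y, ∃ c ∈ NonUnitalSubring.closure ({sx x y, sy x y} : Set (sub2 x y)),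
      (c : R) = w := by
    intro w hw
    unfold sub2 at hw
    induction hw using NonUnitalSubring.closure_induction with
    | mem z hz =>
      rcases hz with rfl | hz
      · exact ⟨_, NonUnitalSubring.subset_closure (Or.inl rfl), rfl⟩
      · rw [Set.mem_singleton_iff] at hz
        subst hz
        exact ⟨_, NonUnitalSubring.subset_closure (Or.inr rfl), rfl⟩
    | zero => exact ⟨0, zero_mem _, rfl⟩
    | add a b _ _ h1 h2 =>
      obtain ⟨c, hc, rfl⟩ := h1
      obtain ⟨d, hd, rfl⟩ := h2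
      exact ⟨c + d, add_mem hc hd, rfl⟩
    | neg a _ h1 =>
      obtain ⟨c, hc, rfl⟩ := h1
      exact ⟨-c, neg_mem hc, rfl⟩
    | mul a b _ _ h1 h2 =>
      obtain ⟨c, hc, rfl⟩ := h1
      obtain ⟨d, hd, rfl⟩ := h2
      exact ⟨c * d, mul_mem hc hd, rfl⟩
  obtain ⟨c, hc, hcw⟩ := key w hw
  have : c = ⟨w, hw⟩ := Subtype.ext hcw
  rw [← this]
  exact hc

theorem jac_int : IsJacobsonRing ℤ := by
  rw [isJacobsonRing_iff_prime_eq]
  intro P hP
  by_cases h : P = ⊥
  · subst h
    rw [eq_bot_iff]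
    intro x hx
    rw [Ideal.mem_jacobson_bot] at hx
    have h1 := hx x
    rw [Int.isUnit_iff] at h1
    rw [Ideal.mem_bot]
    rcases h1 with h1 | h1
    · have : x * x = 0 := by linarith
      exact mul_self_eq_zero.1 this
    · exfalso
      nlinarith [mul_self_nonneg x]
  · have : P.IsMaximal := IsPrime.to_maximal_ideal h
    exact Ideal.jacobson_eq_self_of_isMaximal

/-- residue fields of finitely generated commutative rings are finite -/
theorem residue_finite (S : Type*) [CommRing S] [Algebra.FiniteType ℤ S] (m : Ideal S)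
    [hm : m.IsMaximal] : Finite (S ⧸ m) := by
  let F : Field (S ⧸ m) := Ideal.Quotient.field m
  have h0 : Algebra.FiniteType ℤ (S ⧸ m) :=
    Algebra.FiniteType.of_surjective ((Ideal.Quotient.mkₐ S m).restrictScalars ℤ)
      Ideal.Quotient.mk_surjective
  have hJ : IsJacobsonRing ℤ := jac_int
  have h1 : Module.Finite ℤ (S ⧸ m) := finite_of_finite_type_of_isJacobsonRing ℤ (S ⧸ m)
  obtain ⟨p, hp⟩ := CharP.exists (S ⧸ m)
  rcases Nat.eq_zero_or_pos p with h2 | h2
  · exfalso
    subst h2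
    have hc : CharZero (S ⧸ m) := CharP.charP_to_charZero (S ⧸ m)
    have h3 : Function.Injective (algebraMap ℤ (S ⧸ m)) := by
      have : (algebraMap ℤ (S ⧸ m)) = Int.castRingHom (S ⧸ m) := RingHom.ext_int _ _
      rw [this]
      exact RingHom.injective_int _
    have hi : Algebra.IsIntegral ℤ (S ⧸ m) := Algebra.IsIntegral.of_finite ℤ (S ⧸ m)
    have h4 : IsField ℤ := isField_of_isIntegral_of_isField h3 (Field.toIsField _)
    exact Int.not_isField h4
  · apply Module.finite_of_fg_torsion (S ⧸ m)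
    intro x
    refine ⟨⟨(p : ℤ), ?_⟩, ?_⟩
    · rw [mem_nonZeroDivisors_iff_ne_zero]
      exact_mod_cast h2.ne'
    · change (p : ℤ) • x = 0
      rw [zsmul_eq_mul]
      simp

theorem span_mul_zero {G : Set R} (h1 : ∀ a ∈ G, ∀ b ∈ G, a * b = 0)
    (h2 : ∀ a ∈ G, ∀ b ∈ G, ∀ c : R, a * c * b = 0) {m n : R}
    (hm : m ∈ TwoSidedIdeal.span G) (hn : n ∈ TwoSidedIdeal.span G) : m * n = 0 := by
  have step1 : ∀ g ∈ G, ∀ m ∈ TwoSidedIdeal.span G,
      m * g = 0 ∧ ∀ c, m * c * g = 0 := by
    intro g hg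
    let I : TwoSidedIdeal R := TwoSidedIdeal.mk' {m | m * g = 0 ∧ ∀ c, m * c * g = 0}
      ⟨zero_mul _, fun c => by rw [zero_mul, zero_mul]⟩
      (by
        rintro x y ⟨h1, h2⟩ ⟨h3, h4⟩
        exact ⟨by rw [add_mul, h1, h3, add_zero], fun c => by
          rw [add_mul, add_mul, h2, h4, add_zero]⟩)
      (by
        rintro x ⟨h1, h2⟩
        exact ⟨by rw [neg_mul, h1, neg_zero], fun c => by rw [neg_mul, neg_mul, h2, neg_zero]⟩)
      (by
        rintro r x ⟨h1, h2⟩
        exact ⟨by rw [mul_assoc, h1, mul_zero], fun c => by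
          rw [mul_assoc, mul_assoc, ← mul_assoc x, h2, mul_zero]⟩)
      (by
        rintro x r ⟨h1, h2⟩
        exact ⟨h2 r, fun c => by rw [mul_assoc x r c]; exact h2 _⟩)
    have hle : TwoSidedIdeal.span G ≤ I := by
      rw [TwoSidedIdeal.span_le]
      intro b hb
      exact (TwoSidedIdeal.mem_mk' _ _ _ _ _ _ b).2 ⟨h1 b hb g hg, h2 b hb g hg⟩
    intro m hm
    exact (TwoSidedIdeal.mem_mk' _ _ _ _ _ _ m).1 (hle hm)
  let I : TwoSidedIdeal R := TwoSidedIdeal.mk' {n | m * n = 0 ∧ ∀ c, m * c * n = 0}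
      ⟨mul_zero _, fun c => mul_zero _⟩
      (by
        rintro x y ⟨h1, h2⟩ ⟨h3, h4⟩
        exact ⟨by rw [mul_add, h1, h3, add_zero], fun c => by
          rw [mul_add, h2, h4, add_zero]⟩)
      (by
        rintro x ⟨h1, h2⟩
        exact ⟨by rw [mul_neg, h1, neg_zero], fun c => by rw [mul_neg, h2, neg_zero]⟩)
      (by
        rintro r x ⟨h1, h2⟩
        exact ⟨by rw [← mul_assoc]; exact h2 r, fun c => by
          rw [← mul_assoc, mul_assoc m c r]; exact h2 _⟩)
      (by
        rintro x r ⟨h1, h2⟩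
        exact ⟨by rw [← mul_assoc, h1, zero_mul], fun c => by rw [← mul_assoc, h2, zero_mul]⟩)
  have hle : TwoSidedIdeal.span G ≤ I := by
    rw [TwoSidedIdeal.span_le]
    intro b hb
    exact (TwoSidedIdeal.mem_mk' _ _ _ _ _ _ b).2 (step1 b hb m hm)
  exact ((TwoSidedIdeal.mem_mk' _ _ _ _ _ _ n).1 (hle hn)).1

/-- the commutators -/
def Comm (R : Type) [NonUnitalRing R] : Set R := {g | ∃ x y : R, g = x * y - y * x}

/-- products of two commutators vanish, also with an element in between -/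
def D2 (R : Type) [NonUnitalRing R] : Prop :=
  (∀ a ∈ Comm R, ∀ b ∈ Comm R, a * b = 0) ∧ ∀ a ∈ Comm R, ∀ b ∈ Comm R, ∀ c : R, a * c * b = 0

/-- the identities -/
def D2Id : Set (RTerm × RTerm) :=
  {(.mul (G2 0 1) (G2 2 3), .zero), (.mul (.mul (G2 0 1) (.var 4)) (G2 2 3), .zero)}

theorem models_D2Id : Models D2Id R ↔ D2 R := by
  constructor
  · intro h
    let w : R → R → R → R → R → ℕ → R := fun a b c d e i =>
      match i with
      | 0 => a
      | 1 => b
      | 2 => c
      | 3 => d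
      | _ => e
    refine ⟨?_, ?_⟩
    · rintro _ ⟨x, y, rfl⟩ _ ⟨z, t, rfl⟩
      have := h _ (Or.inl rfl) (w x y z t z)
      simp only [RTerm.val, val_G2] at this
      exact this
    · rintro _ ⟨x, y, rfl⟩ _ ⟨z, t, rfl⟩ c
      have := h _ (Or.inr rfl) (w x y z t c)
      simp only [RTerm.val, val_G2] at this
      exact this
  · rintro ⟨h1, h2⟩ e (rfl | he)
    · intro v
      simp only [RTerm.val, val_G2]
      exact h1 _ ⟨_, _, rfl⟩ _ ⟨_, _, rfl⟩
    · rw [Set.mem_singleton_iff] at he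
      subst he
      intro v
      simp only [RTerm.val, val_G2]
      exact h2 _ ⟨_, _, rfl⟩ _ ⟨_, _, rfl⟩ _

end Pool.Agent.H854R3.NE
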