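import Pool.Agent.H854R3.NE.Basic

/-! Two-sided ideals: maximal ideals by Zorn's lemma, ideals given by sets, powers of elements. -/

set_option autoImplicit false

namespace Pool.Agent.H854R3.NE

variable {R : Type} [NonUnitalRing R]

/-- Zorn's lemma for two-sided ideals. -/
theorem exists_max_ideal (P : TwoSidedIdeal R → Prop) (h0 : P ⊥)
    (hchain : ∀ c : Set (TwoSidedIdeal R), IsChain (· ≤ ·) c → c.Nonempty → (∀ I ∈ c, P I) →
      ∀ U : TwoSidedIdeal R, (∀ x, x ∈ U ↔ ∃ I ∈ c, x ∈ I) → P U) :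
    ∃ I, P I ∧ ∀ J, P J → I ≤ J → J = I := by
  obtain ⟨I, _, hI⟩ := zorn_le_nonempty₀ {I | P I} (fun c hc hchain' y hy => by
    have hne : c.Nonempty := ⟨y, hy⟩
    let U : TwoSidedIdeal R := TwoSidedIdeal.mk' {x | ∃ I ∈ c, x ∈ I}
      ⟨y, hy, y.zero_mem⟩
      (by
        rintro x z ⟨I, hI, hx⟩ ⟨J, hJ, hz⟩
        rcases hchain'.total hI hJ with h | h
        · exact ⟨J, hJ, J.add_mem (h hx) hz⟩
        · exact ⟨I, hI, I.add_mem hx (h hz)⟩)
      (by rintro x ⟨I, hI, hx⟩; exact ⟨I, hI, I.neg_mem hx⟩)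
      (by rintro x z ⟨I, hI, hz⟩; exact ⟨I, hI, I.mul_mem_left _ _ hz⟩)
      (by rintro x z ⟨I, hI, hx⟩; exact ⟨I, hI, I.mul_mem_right _ _ hx⟩)
    have hU : ∀ x, x ∈ U ↔ ∃ I ∈ c, x ∈ I := fun x => TwoSidedIdeal.mem_mk' _ _ _ _ _ _ x
    refine ⟨U, hchain c hchain' hne (fun I hI => hc hI) U hU, ?_⟩
    intro I hI x hx
    exact (hU x).2 ⟨I, hI, hx⟩) ⊥ h0
  refine ⟨I, hI.1, ?_⟩
  intro J hJ hIJ
  exact le_antisymm (hI.2 hJ hIJ) hIJ

/-- The element `a` lies in every non-zero two-sided ideal. -/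
def InAll (a : R) : Prop := ∀ I : TwoSidedIdeal R, I ≠ ⊥ → a ∈ I

theorem ne_bot_of_mem {I : TwoSidedIdeal R} {x : R} (hx : x ∈ I) (h : x ≠ 0) : I ≠ ⊥ := by
  rintro rfl
  exact h ((TwoSidedIdeal.mem_bot R).1 hx)

theorem exists_mem_ne {I : TwoSidedIdeal R} (h : I ≠ ⊥) : ∃ x ∈ I, x ≠ 0 := by
  by_contra hcon
  push Not at hcon
  apply h
  apply le_antisymm _ bot_le
  intro x hx
  exact (TwoSidedIdeal.mem_bot R).2 (hcon x hx)

/-- Birkhoff: every non-zero element survives in a subdirectly irreducible quotient. -/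
theorem exists_si_quot {b : R} (hb : b ≠ 0) :
    ∃ (Q : Type) (_ : NonUnitalRing Q) (φ : R →ₙ+* Q), Function.Surjective φ ∧ φ b ≠ 0 ∧
      InAll (φ b) := by
  obtain ⟨I, hI, hmax⟩ := exists_max_ideal (fun I : TwoSidedIdeal R => b ∉ I)
    (by rw [TwoSidedIdeal.mem_bot]; exact hb)
    (by
      intro c _ _ hP U hU hbU
      obtain ⟨I, hI, h⟩ := (hU b).1 hbU
      exact hP I hI h)
  obtain ⟨Q, inst, φ, hφ, hker⟩ := exists_quot I
  refine ⟨Q, inst, φ, hφ, fun h => hI ((hker b).1 h), ?_⟩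
  intro J hJ
  by_contra hcon
  let J' : TwoSidedIdeal R := TwoSidedIdeal.mk' {x | φ x ∈ J}
    (by change φ 0 ∈ J; rw [map_zero]; exact J.zero_mem)
    (by intro x y hx hy; change φ (x + y) ∈ J; rw [map_add]; exact J.add_mem hx hy)
    (by intro x hx; change φ (-x) ∈ J; rw [map_neg]; exact J.neg_mem hx)
    (by intro x y hy; change φ (x * y) ∈ J; rw [map_mul]; exact J.mul_mem_left _ _ hy)
    (by intro x y hx; change φ (x * y) ∈ J; rw [map_mul]; exact J.mul_mem_right _ _ hx)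
  have hJ' : ∀ x, x ∈ J' ↔ φ x ∈ J := fun x => TwoSidedIdeal.mem_mk' _ _ _ _ _ _ x
  have h1 : J' = I := by
    apply hmax J'
    · rw [hJ']; exact hcon
    · intro x hx
      rw [hJ', (hker x).2 hx]
      exact J.zero_mem
  obtain ⟨y, hy, hy0⟩ := exists_mem_ne hJ
  obtain ⟨x, rfl⟩ := hφ y
  apply hy0
  rw [hker, ← h1, hJ']
  exact hy

/-- `npw x n = x ^ (n + 1)`. -/
def npw (x : R) : ℕ → R
  | 0 => x
  | n + 1 => npw x n * x

theorem npw_add (x : R) (m n : ℕ) : npw x (m + n + 1) = npw x m * npw x n := by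
  induction n with
  | zero => rfl
  | succ n ih =>
    change npw x (m + n + 1) * x = npw x m * (npw x n * x)
    rw [ih, mul_assoc]

theorem npw_map {S : Type} [NonUnitalRing S] (f : R →ₙ+* S) (x : R) (n : ℕ) :
    f (npw x n) = npw (f x) n := by
  induction n with
  | zero => rfl
  | succ n ih => simp only [npw, map_mul, ih]

end Pool.Agent.H854R3.NE
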