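import Pool.Agent.H854R3.NE.Ideal

/-! Nilpotency of the commutator ideal. -/

set_option autoImplicit false

namespace Pool.Agent.H854R3.NE

open scoped Pointwise

variable {U : Type} [Ring U]

/-- the commutator ideal -/
def CI (U : Type) [Ring U] : Ideal U :=
  Ideal.span (Set.range fun uv : U × U => uv.1 * uv.2 - uv.2 * uv.1)

theorem comm_mem_CI (u v : U) : u * v - v * u ∈ CI U :=
  Ideal.subset_span ⟨(u, v), rfl⟩

instance CI_twoSided : (CI U).IsTwoSided := by
  constructor
  intro a b ha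
  have key : ∀ a ∈ CI U, ∀ b, a * b ∈ CI U := by
    intro a ha
    unfold CI at ha
    induction ha using Submodule.span_induction with
    | mem z hz =>
      obtain ⟨⟨u, v⟩, rfl⟩ := hz
      intro b
      have : (u * v - v * u) * b = (u * (v * b) - (v * b) * u) - v * (u * b - b * u) := by
        noncomm_ring
      change (u * v - v * u) * b ∈ CI U
      rw [this]
      exact sub_mem (comm_mem_CI _ _) (Ideal.mul_mem_left _ _ (comm_mem_CI _ _))
    | zero => intro b; rw [zero_mul]; exact zero_mem _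
    | add z w _ _ h1 h2 => intro b; rw [add_mul]; exact add_mem (h1 b) (h2 b)
    | smul c z _ h1 =>
      intro b
      rw [smul_eq_mul, mul_assoc]
      exact Ideal.mul_mem_left _ _ (h1 b)
  exact key a ha b

/-- closure under right multiplication by the generators -/
theorem right_closed {x y : U} (hgen : Subring.closure ({x, y} : Set U) = ⊤) (L : AddSubgroup U)
    (hx : ∀ z ∈ L, z * x ∈ L) (hy : ∀ z ∈ L, z * y ∈ L) (u : U) : ∀ z ∈ L, z * u ∈ L := by
  have hu : u ∈ Subring.closure ({x, y} : Set U) := by rw [hgen]; trivial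
  induction hu using Subring.closure_induction with
  | mem w hw =>
    rcases hw with rfl | hw
    · exact hx
    · rw [Set.mem_singleton_iff] at hw
      subst hw; exact hy
  | zero => intro z _; rw [mul_zero]; exact zero_mem _
  | one => intro z hz; rwa [mul_one]
  | add a b _ _ h1 h2 => intro z hz; rw [mul_add]; exact add_mem (h1 z hz) (h2 z hz)
  | neg a _ h1 => intro z hz; rw [mul_neg]; exact neg_mem (h1 z hz)
  | mul a b _ _ h1 h2 => intro z hz; rw [← mul_assoc]; exact h2 _ (h1 z hz)

theorem CI_le {x y : U} (hgen : Subring.closure ({x, y} : Set U) = ⊤) (L : Ideal U)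
    [hL : L.IsTwoSided] (hc : x * y - y * x ∈ L) : CI U ≤ L := by
  have h1 : ∀ u, u * y - y * u ∈ L := by
    intro u
    have hu : u ∈ Subring.closure ({x, y} : Set U) := by rw [hgen]; trivial
    induction hu using Subring.closure_induction with
    | mem w hw =>
      rcases hw with rfl | hw
      · exact hc
      · rw [Set.mem_singleton_iff] at hw
        subst hw; rw [sub_self]; exact zero_mem _
    | zero => rw [zero_mul, mul_zero, sub_self]; exact zero_mem _
    | one => rw [one_mul, mul_one, sub_self]; exact zero_mem _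
    | add a b _ _ h1 h2 =>
      have : (a + b) * y - y * (a + b) = (a * y - y * a) + (b * y - y * b) := by noncomm_ring
      rw [this]; exact add_mem h1 h2
    | neg a _ h1 =>
      have : (-a) * y - y * (-a) = - (a * y - y * a) := by noncomm_ring
      rw [this]; exact neg_mem h1
    | mul a b _ _ h1 h2 =>
      have : (a * b) * y - y * (a * b) = a * (b * y - y * b) + (a * y - y * a) * b := by
        noncomm_ring
      rw [this]; exact add_mem (L.mul_mem_left _ h2) (L.mul_mem_right _ h1)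
  have h2 : ∀ u, u * x - x * u ∈ L := by
    intro u
    have hu : u ∈ Subring.closure ({x, y} : Set U) := by rw [hgen]; trivial
    induction hu using Subring.closure_induction with
    | mem w hw =>
      rcases hw with rfl | hw
      · rw [sub_self]; exact zero_mem _
      · rw [Set.mem_singleton_iff] at hw
        subst hw
        have : w * x - x * w = - (x * w - w * x) := by noncomm_ring
        rw [this]; exact neg_mem hc
    | zero => rw [zero_mul, mul_zero, sub_self]; exact zero_mem _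
    | one => rw [one_mul, mul_one, sub_self]; exact zero_mem _
    | add a b _ _ h1 h2 =>
      have : (a + b) * x - x * (a + b) = (a * x - x * a) + (b * x - x * b) := by noncomm_ring
      rw [this]; exact add_mem h1 h2
    | neg a _ h1 =>
      have : (-a) * x - x * (-a) = - (a * x - x * a) := by noncomm_ring
      rw [this]; exact neg_mem h1
    | mul a b _ _ h1 h2 =>
      have : (a * b) * x - x * (a * b) = a * (b * x - x * b) + (a * x - x * a) * b := by
        noncomm_ring
      rw [this]; exact add_mem (L.mul_mem_left _ h2) (L.mul_mem_right _ h1)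
  have h3 : ∀ v u, u * v - v * u ∈ L := by
    intro v
    have hv : v ∈ Subring.closure ({x, y} : Set U) := by rw [hgen]; trivial
    induction hv using Subring.closure_induction with
    | mem w hw =>
      rcases hw with rfl | hw
      · exact h2
      · rw [Set.mem_singleton_iff] at hw
        subst hw; exact h1
    | zero => intro u; rw [zero_mul, mul_zero, sub_self]; exact zero_mem _
    | one => intro u; rw [one_mul, mul_one, sub_self]; exact zero_mem _
    | add a b _ _ h1 h2 =>
      intro u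
      have : u * (a + b) - (a + b) * u = (u * a - a * u) + (u * b - b * u) := by noncomm_ring
      rw [this]; exact add_mem (h1 u) (h2 u)
    | neg a _ h1 =>
      intro u
      have : u * (-a) - (-a) * u = - (u * a - a * u) := by noncomm_ring
      rw [this]; exact neg_mem (h1 u)
    | mul a b _ _ h1 h2 =>
      intro u
      have : u * (a * b) - (a * b) * u = a * (u * b - b * u) + (u * a - a * u) * b := by
        noncomm_ring
      rw [this]; exact add_mem (L.mul_mem_left _ (h2 u)) (L.mul_mem_right _ (h1 u))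
  unfold CI
  rw [Ideal.span_le]
  rintro _ ⟨⟨u, v⟩, rfl⟩
  exact h3 v u

theorem mul_mem_CI2 {a b : U} (ha : a ∈ CI U) (hb : b ∈ CI U) : a * b ∈ CI U ^ 2 := by
  have : CI U ^ 2 = CI U * CI U := by
    rw [show (2 : ℕ) = 1 + 1 from rfl, Ideal.IsTwoSided.pow_add, Submodule.pow_one]
  rw [this]
  exact Ideal.mul_mem_mul ha hb

theorem eng_mem_ideal (L : Ideal U) [L.IsTwoSided] {d : U} (hd : d ∈ L) (y : U) (i : ℕ) :
    eng d y i ∈ L := by
  induction i with
  | zero => exact hd
  | succ i ih => exact sub_mem (L.mul_mem_right _ ih) (L.mul_mem_left _ ih)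

/-- the derivations commute modulo the square of the commutator ideal -/
theorem comm_ad {x y d : U} (hd : d ∈ CI U) (i : ℕ) :
    eng d x i * y - y * eng d x i - eng (d * y - y * d) x i ∈ CI U ^ 2 := by
  induction i with
  | zero => change d * y - y * d - (d * y - y * d) ∈ _; rw [sub_self]; exact zero_mem _
  | succ i ih =>
    set e := eng d x i with he
    have heD : e ∈ CI U := eng_mem_ideal _ hd x i
    change (e * x - x * e) * y - y * (e * x - x * e) -
      (eng (d * y - y * d) x i * x - x * eng (d * y - y * d) x i) ∈ _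
    set f := eng (d * y - y * d) x i with hf
    have h1 : (e * x - x * e) * y - y * (e * x - x * e) - (f * x - x * f) =
        ((e * y - y * e - f) * x - x * (e * y - y * e - f)) +
          (e * (x * y - y * x) - (x * y - y * x) * e) := by
      noncomm_ring
    rw [h1]
    exact add_mem (sub_mem (Ideal.mul_mem_right _ _ ih) (Ideal.mul_mem_left _ _ ih))
      (sub_mem (mul_mem_CI2 heD (comm_mem_CI _ _)) (mul_mem_CI2 (comm_mem_CI _ _) heD))

/-- a left ideal closed under right multiplication by the generators -/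
theorem twoSided_of_closed {x y : U} (hgen : Subring.closure ({x, y} : Set U) = ⊤) (L : Ideal U)
    (hx : ∀ z ∈ L, z * x ∈ L) (hy : ∀ z ∈ L, z * y ∈ L) : L.IsTwoSided :=
  ⟨fun {a} b ha => right_closed hgen (Submodule.toAddSubgroup L) hx hy b a ha⟩

theorem exists_G {x y : U} (hgen : Subring.closure ({x, y} : Set U) = ⊤) {n : ℕ} (hn : 1 ≤ n)
    (hx : ∀ d ∈ CI U, eng d x n ∈ CI U ^ 2) (hy : ∀ d ∈ CI U, eng d y n ∈ CI U ^ 2) :
    ∃ G : Set U, G.Finite ∧ G ⊆ CI U ∧ CI U ≤ Ideal.span G ⊔ CI U ^ 2 := by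
  set c := x * y - y * x with hc
  have hcD : c ∈ CI U := comm_mem_CI _ _
  let G : Set U := Set.range fun ij : Fin n × Fin n => eng (eng c y ij.2) x ij.1
  have hG : ∀ i j, i < n → j < n → eng (eng c y j) x i ∈ G := fun i j hi hj =>
    ⟨(⟨i, hi⟩, ⟨j, hj⟩), rfl⟩
  have hdj : ∀ j, eng c y j ∈ CI U := fun j => eng_mem_ideal _ hcD y j
  refine ⟨G, Set.finite_range _, ?_, ?_⟩
  · rintro _ ⟨⟨i, j⟩, rfl⟩
    exact eng_mem_ideal _ (hdj _) x _
  set L := Ideal.span G ⊔ CI U ^ 2 with hL
  have hle1 : Ideal.span G ≤ L := le_sup_left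
  have hle2 : CI U ^ 2 ≤ L := le_sup_right
  have hGx : ∀ g ∈ G, g * x ∈ L := by
    rintro _ ⟨⟨⟨i, hi⟩, ⟨j, hj⟩⟩, rfl⟩
    change eng (eng c y j) x i * x ∈ L
    have h1 : eng (eng c y j) x i * x = x * eng (eng c y j) x i + eng (eng c y j) x (i + 1) := by
      change _ = x * eng (eng c y j) x i +
        (eng (eng c y j) x i * x - x * eng (eng c y j) x i)
      abel
    rw [h1]
    refine add_mem (L.mul_mem_left _ (hle1 (Ideal.subset_span (hG i j hi hj)))) ?_
    rcases Nat.lt_or_ge (i + 1) n with h | h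
    · exact hle1 (Ideal.subset_span (hG _ j h hj))
    · have : i + 1 = n := by omega
      rw [this]
      exact hle2 (hx _ (hdj j))
  have hGy : ∀ g ∈ G, g * y ∈ L := by
    rintro _ ⟨⟨⟨i, hi⟩, ⟨j, hj⟩⟩, rfl⟩
    change eng (eng c y j) x i * y ∈ L
    have h1 : eng (eng c y j) x i * y = y * eng (eng c y j) x i +
        (eng (eng c y j) x i * y - y * eng (eng c y j) x i - eng (eng c y (j + 1)) x i) +
          eng (eng c y (j + 1)) x i := by
      abel
    rw [h1]
    refine add_mem (add_mem (L.mul_mem_left _ (hle1 (Ideal.subset_span (hG i j hi hj)))) ?_) ?_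
    · exact hle2 (comm_ad (hdj j) i)
    · rcases Nat.lt_or_ge (j + 1) n with h | h
      · exact hle1 (Ideal.subset_span (hG i _ hi h))
      · have : j + 1 = n := by omega
        rw [this]
        exact hle2 (eng_mem_ideal _ (hy c hcD) x i)
  have close : ∀ s : U, (∀ g ∈ G, g * s ∈ L) → ∀ z ∈ L, z * s ∈ L := by
    intro s hs z hz
    obtain ⟨a, ha, b, hb, rfl⟩ := Submodule.mem_sup.1 hz
    rw [add_mul]
    refine add_mem ?_ (hle2 (Ideal.mul_mem_right _ _ hb))
    induction ha using Submodule.span_induction with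
    | mem g hg => exact hs g hg
    | zero => rw [zero_mul]; exact zero_mem _
    | add u v _ _ h1 h2 =>
      rw [add_mul]
      exact add_mem (h1 (add_mem (hle1 (by assumption)) (hle2 hb)))
        (h2 (add_mem (hle1 (by assumption)) (hle2 hb)))
    | smul r u _ h1 =>
      rw [smul_eq_mul, mul_assoc]
      exact L.mul_mem_left _ (h1 (add_mem (hle1 (by assumption)) (hle2 hb)))
  have : L.IsTwoSided := twoSided_of_closed hgen L (close x hGx) (close y hGy)
  exact CI_le hgen L (hle1 (Ideal.subset_span (hG 0 0 hn hn)))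

/-- products of `j + 1` elements -/
def Gp (G : Set U) : ℕ → Set U
  | 0 => G
  | j + 1 => G * Gp G j

theorem Gp_finite {G : Set U} (hG : G.Finite) (j : ℕ) : (Gp G j).Finite := by
  induction j with
  | zero => exact hG
  | succ j ih => exact hG.mul ih

theorem Gp_subset {G : Set U} {D : Ideal U} [D.IsTwoSided] (hG : G ⊆ D) (j : ℕ) :
    Gp G j ⊆ (D ^ (j + 1) : Ideal U) := by
  induction j with
  | zero =>
    rw [zero_add, Submodule.pow_one]
    exact hG
  | succ j ih =>
    rintro _ ⟨a, ha, b, hb, rfl⟩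
    change a * b ∈ _
    rw [Ideal.IsTwoSided.pow_succ]
    exact Ideal.mul_mem_mul (hG ha) (ih hb)

theorem mul_span_le {D K : Ideal U} {H : Set U} [hD : D.IsTwoSided]
    (h : ∀ d ∈ D, ∀ g ∈ H, d * g ∈ K) {e : U} (he : e ∈ Ideal.span H) :
    ∀ d ∈ D, d * e ∈ K := by
  induction he using Submodule.span_induction with
  | mem g hg => intro d hd; exact h d hd g hg
  | zero => intro d _; rw [mul_zero]; exact zero_mem _
  | add u v _ _ h1 h2 => intro d hd; rw [mul_add]; exact add_mem (h1 d hd) (h2 d hd)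
  | smul r u _ h1 =>
    intro d hd
    rw [smul_eq_mul, ← mul_assoc]
    exact h1 _ (D.mul_mem_right _ hd)

theorem span_mul_right {G : Set U} {K : Ideal U} {g' : U} (h : ∀ g ∈ G, g * g' ∈ K) {d : U}
    (hd : d ∈ Ideal.span G) : d * g' ∈ K := by
  induction hd using Submodule.span_induction with
  | mem g hg => exact h g hg
  | zero => rw [zero_mul]; exact zero_mem _
  | add u v _ _ h1 h2 => rw [add_mul]; exact add_mem h1 h2
  | smul r u _ h1 => rw [smul_eq_mul, mul_assoc]; exact K.mul_mem_left _ h1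

theorem pow_le_Gp {G : Set U} {D : Ideal U} [D.IsTwoSided] (hG : G ⊆ D)
    (h : D ≤ Ideal.span G ⊔ D ^ 2) (j : ℕ) :
    D ^ (j + 1) ≤ Ideal.span (Gp G j) ⊔ D ^ (j + 2) := by
  induction j with
  | zero =>
    rw [zero_add, Submodule.pow_one]
    exact h
  | succ j ih =>
    set K := Ideal.span (Gp G (j + 1)) ⊔ D ^ (j + 1 + 2) with hK
    have hK1 : Ideal.span (Gp G (j + 1)) ≤ K := le_sup_left
    have hK2 : D ^ (j + 1 + 2) ≤ K := le_sup_right
    rw [Ideal.IsTwoSided.pow_succ, Ideal.mul_le]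
    intro d hd e he
    obtain ⟨e1, he1, e2, he2, rfl⟩ := Submodule.mem_sup.1 (ih he)
    rw [mul_add]
    refine add_mem ?_ (hK2 ?_)
    · refine mul_span_le (D := D) (H := Gp G j) ?_ he1 d hd
      intro d hd g' hg'
      obtain ⟨d1, hd1, d2, hd2, rfl⟩ := Submodule.mem_sup.1 (h hd)
      rw [add_mul]
      refine add_mem ?_ (hK2 ?_)
      · exact span_mul_right (fun g hg => hK1 (Ideal.subset_span ⟨g, hg, g', hg', rfl⟩)) hd1
      · rw [show j + 1 + 2 = 2 + (j + 1) by ring, Ideal.IsTwoSided.pow_add]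
        exact Ideal.mul_mem_mul hd2 (Gp_subset hG j hg')
    · rw [show j + 1 + 2 = (j + 2) + 1 by ring, Ideal.IsTwoSided.pow_succ]
      exact Ideal.mul_mem_mul hd he2

theorem exists_Gamma {G : Set U} {D : Ideal U} [D.IsTwoSided] (hGf : G.Finite) (hG : G ⊆ D)
    (h : D ≤ Ideal.span G ⊔ D ^ 2) (k : ℕ) :
    ∃ Γ : Set U, Γ.Finite ∧ Γ ⊆ D ∧ D ≤ Ideal.span Γ ⊔ D ^ (k + 1) := by
  induction k with
  | zero =>
    refine ⟨∅, Set.finite_empty, Set.empty_subset _, ?_⟩
    rw [zero_add, Submodule.pow_one]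
    exact le_sup_right
  | succ k ih =>
    obtain ⟨Γ, h1, h2, h3⟩ := ih
    refine ⟨Γ ∪ Gp G k, h1.union (Gp_finite hGf k), Set.union_subset h2 ?_, ?_⟩
    · intro z hz
      exact Ideal.pow_le_self (Nat.succ_ne_zero k) (Gp_subset hG k hz)
    · refine h3.trans ?_
      rw [Ideal.span_union, sup_assoc]
      exact sup_le_sup_left (pow_le_Gp hG h k) _

/-- Nilpotency of the commutator ideal modulo an ideal is a finitary property. -/
theorem finitary {x y : U} (hgen : Subring.closure ({x, y} : Set U) = ⊤) {Γ : Set U}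
    (hΓf : Γ.Finite) (hΓ : Γ ⊆ CI U) {k : ℕ} {J : Ideal U} [J.IsTwoSided]
    (hJ : CI U ^ (k + 1) ≤ J) (h : CI U ≤ Ideal.span Γ ⊔ J) :
    ∃ F : Set U, F.Finite ∧ F ⊆ J ∧ ∀ I : Ideal U, I.IsTwoSided → F ⊆ I → CI U ^ (k + 1) ≤ I := by
  classical
  set c := x * y - y * x with hc
  let Z : Set U := insert c ((fun g => g * x) '' Γ ∪ (fun g => g * y) '' Γ)
  have hZf : Z.Finite := (((hΓf.image _).union (hΓf.image _))).insert _
  have hZD : ∀ z ∈ Z, z ∈ CI U := by
    rintro z (rfl | ⟨g, hg, rfl⟩ | ⟨g, hg, rfl⟩)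
    · exact comm_mem_CI _ _
    · exact Ideal.mul_mem_right _ _ (hΓ hg)
    · exact Ideal.mul_mem_right _ _ (hΓ hg)
  have hu : ∀ z, ∃ u, z ∈ Z → u ∈ J ∧ z - u ∈ Ideal.span Γ := by
    intro z
    by_cases hz : z ∈ Z
    · obtain ⟨a, ha, b, hb, hab⟩ := Submodule.mem_sup.1 (h (hZD z hz))
      refine ⟨b, fun _ => ⟨hb, ?_⟩⟩
      rw [← hab, add_sub_cancel_right]
      exact ha
    · exact ⟨0, fun h => absurd h hz⟩
  choose u hu using hu
  refine ⟨u '' Z ∪ Gp Γ k, (hZf.image _).union (Gp_finite hΓf k), ?_, ?_⟩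
  · rintro z (⟨w, hw, rfl⟩ | hz)
    · exact (hu w hw).1
    · exact hJ (Gp_subset hΓ k hz)
  · intro I hI hF
    set L := Ideal.span Γ ⊔ I with hL
    have hL1 : Ideal.span Γ ≤ L := le_sup_left
    have hL2 : I ≤ L := le_sup_right
    have hZL : ∀ z ∈ Z, z ∈ L := by
      intro z hz
      have h1 : z = (z - u z) + u z := by abel
      rw [h1]
      exact add_mem (hL1 (hu z hz).2) (hL2 (hF (Or.inl ⟨z, hz, rfl⟩)))
    have close : ∀ s : U, (∀ g ∈ Γ, g * s ∈ L) → ∀ z ∈ L, z * s ∈ L := by
      intro s hs z hz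
      obtain ⟨a, ha, b, hb, rfl⟩ := Submodule.mem_sup.1 hz
      rw [add_mul]
      exact add_mem (span_mul_right hs ha) (hL2 (Ideal.mul_mem_right _ _ hb))
    have hLt : L.IsTwoSided := twoSided_of_closed hgen L
      (close x (fun g hg => hZL _ (Or.inr (Or.inl ⟨g, hg, rfl⟩))))
      (close y (fun g hg => hZL _ (Or.inr (Or.inr ⟨g, hg, rfl⟩))))
    have hDL : CI U ≤ L := CI_le hgen L (hZL _ (Or.inl rfl))
    have hpow : ∀ j, L ^ (j + 1) ≤ Ideal.span (Gp Γ j) ⊔ I := by
      intro j
      induction j with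
      | zero =>
        rw [zero_add, Submodule.pow_one]
        exact le_refl _
      | succ j ih =>
        set K := Ideal.span (Gp Γ (j + 1)) ⊔ I with hK
        have hK1 : Ideal.span (Gp Γ (j + 1)) ≤ K := le_sup_left
        have hK2 : I ≤ K := le_sup_right
        rw [Ideal.IsTwoSided.pow_succ, Ideal.mul_le]
        intro l hl e he
        obtain ⟨e1, he1, e2, he2, rfl⟩ := Submodule.mem_sup.1 (ih he)
        rw [mul_add]
        refine add_mem ?_ (hK2 (I.mul_mem_left _ he2))
        refine mul_span_le (D := L) (H := Gp Γ j) ?_ he1 l hl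
        intro l hl g' hg'
        obtain ⟨l1, hl1, l2, hl2, rfl⟩ := Submodule.mem_sup.1 hl
        rw [add_mul]
        refine add_mem ?_ (hK2 (I.mul_mem_right _ hl2))
        exact span_mul_right (fun g hg => hK1 (Ideal.subset_span ⟨g, hg, g', hg', rfl⟩)) hl1
    refine (Ideal.pow_right_mono hDL _).trans ((hpow k).trans ?_)
    refine sup_le ?_ (le_refl _)
    rw [Ideal.span_le]
    exact fun z hz => hF (Or.inr hz)

/-- If all the prime quotients are commutative, then the commutator ideal is nilpotent. -/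
theorem CI_nilp {x y : U} (hgen : Subring.closure ({x, y} : Set U) = ⊤) {n : ℕ} (hn : 1 ≤ n)
    (hx : ∀ d ∈ CI U, eng d x n ∈ CI U ^ 2) (hy : ∀ d ∈ CI U, eng d y n ∈ CI U ^ 2)
    (A : Set U) (hA : ∀ a ∈ A, ∀ u, u * a ∈ A ∧ a * u ∈ A) (hDA : ∀ d ∈ CI U, d ∈ A)
    (hprime : ∀ I : TwoSidedIdeal U,
      (∀ a ∈ A, ∀ b ∈ A, (∀ r ∈ A, a * r * b ∈ I) → a ∈ I ∨ b ∈ I) → x * y - y * x ∈ I) :
    ∃ k, CI U ^ (k + 1) = ⊥ := by
  classical
  by_contra hcon
  push Not at hcon
  obtain ⟨G, hGf, hG, hGD⟩ := exists_G hgen hn hx hy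
  obtain ⟨I, hI, hmax⟩ := exists_max_ideal
    (fun I : TwoSidedIdeal U => ∀ k, ¬ CI U ^ (k + 1) ≤ TwoSidedIdeal.asIdeal I)
    (by
      intro k hk
      apply hcon k
      rw [eq_bot_iff]
      intro z hz
      exact (TwoSidedIdeal.mem_bot U).1 (TwoSidedIdeal.mem_asIdeal.1 (hk hz)))
    (by
      intro c hchain hne hP V hV k hk
      obtain ⟨Γ, hΓf, hΓ, hΓD⟩ := exists_Gamma hGf hG hGD k
      obtain ⟨F, hFf, hFV, hF⟩ := finitary hgen hΓf hΓ hk
        (hΓD.trans (sup_le_sup_left hk _))
      have : ∃ I ∈ c, F ⊆ TwoSidedIdeal.asIdeal I := by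
        clear hF
        induction F, hFf using Set.Finite.induction_on with
        | empty =>
          obtain ⟨I, hI⟩ := hne
          exact ⟨I, hI, Set.empty_subset _⟩
        | insert _ _ ih =>
          rename_i a s _ _
          obtain ⟨I, hI, hs⟩ := ih (fun z hz => hFV (Or.inr hz))
          obtain ⟨I', hI', ha⟩ := (hV a).1 (TwoSidedIdeal.mem_asIdeal.1 (hFV (Or.inl rfl)))
          rcases hchain.total hI hI' with h | h
          · refine ⟨I', hI', ?_⟩
            rintro z (rfl | hz)
            · exact TwoSidedIdeal.mem_asIdeal.2 ha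
            · exact TwoSidedIdeal.mem_asIdeal.2 (h (TwoSidedIdeal.mem_asIdeal.1 (hs hz)))
          · refine ⟨I, hI, ?_⟩
            rintro z (rfl | hz)
            · exact TwoSidedIdeal.mem_asIdeal.2 (h ha)
            · exact hs hz
      obtain ⟨I, hI, hFI⟩ := this
      exact hP I hI k (hF _ inferInstance hFI))
  have hmax' : ∀ J : TwoSidedIdeal U, I ≤ J → J ≠ I →
      ∃ k, CI U ^ (k + 1) ≤ TwoSidedIdeal.asIdeal J := by
    intro J hJ hne
    by_contra hcon'
    push Not at hcon'
    exact hne (hmax J hcon' hJ)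
  have hc : x * y - y * x ∈ I := by
    apply hprime
    intro a ha b hb hab
    by_contra hcon'
    push Not at hcon'
    obtain ⟨hna, hnb⟩ := hcon'
    let K1 : TwoSidedIdeal U := TwoSidedIdeal.mk' {z | ∀ g ∈ A, z * g * b ∈ I}
      (by intro g _; rw [zero_mul, zero_mul]; exact I.zero_mem)
      (by intro x y hx hy g hg; rw [add_mul, add_mul]; exact I.add_mem (hx g hg) (hy g hg))
      (by intro x hx g hg; rw [neg_mul, neg_mul]; exact I.neg_mem (hx g hg))
      (by
        intro x y hy g hg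
        rw [mul_assoc x y g, mul_assoc x]; exact I.mul_mem_left _ _ (hy g hg))
      (by intro x y hx g hg; rw [mul_assoc x y g]; exact hx (y * g) (hA g hg y).1)
    have hK1 : ∀ z, z ∈ K1 ↔ ∀ g ∈ A, z * g * b ∈ I :=
      fun z => TwoSidedIdeal.mem_mk' _ _ _ _ _ _ z
    obtain ⟨i, hi⟩ := hmax' K1 (fun z hz => (hK1 z).2 (fun g _ =>
        I.mul_mem_right _ _ (I.mul_mem_right _ _ hz)))
      (fun h => hna (h ▸ (hK1 a).2 hab))
    let K2 : TwoSidedIdeal U := TwoSidedIdeal.mk' {w | ∀ z ∈ CI U ^ (i + 1), ∀ g ∈ A,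
        z * g * w ∈ I}
      (by intro z _ g _; rw [mul_zero]; exact I.zero_mem)
      (by intro x y hx hy z hz g hg; rw [mul_add]; exact I.add_mem (hx z hz g hg) (hy z hz g hg))
      (by intro x hx z hz g hg; rw [mul_neg]; exact I.neg_mem (hx z hz g hg))
      (by
        intro x y hy z hz g hg
        rw [← mul_assoc, mul_assoc z g x]; exact hy z hz (g * x) (hA g hg x).2)
      (by intro x y hx z hz g hg; rw [← mul_assoc]; exact I.mul_mem_right _ _ (hx z hz g hg))
    have hK2 : ∀ w, w ∈ K2 ↔ ∀ z ∈ CI U ^ (i + 1), ∀ g ∈ A, z * g * w ∈ I :=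
      fun z => TwoSidedIdeal.mem_mk' _ _ _ _ _ _ z
    obtain ⟨j, hj⟩ := hmax' K2 (fun z hz => (hK2 z).2 (fun w _ g _ => I.mul_mem_left _ _ hz))
      (fun h => hnb (h ▸ (hK2 b).2 (fun z hz g hg =>
        (hK1 z).1 (TwoSidedIdeal.mem_asIdeal.1 (hi hz)) g hg)))
    apply hI (i + 1 + j + 1)
    have e1 : CI U ^ (i + 1 + j + 1 + 1) = CI U ^ (i + 1) * (CI U * CI U ^ (j + 1)) := by
      rw [← Ideal.IsTwoSided.pow_succ, ← Ideal.IsTwoSided.pow_add]
      congr 1
    rw [e1, Ideal.mul_le]
    intro z hz w hw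
    rw [TwoSidedIdeal.mem_asIdeal]
    refine Submodule.smul_induction_on hw ?_ ?_
    · intro g hg w hw
      rw [smul_eq_mul, ← mul_assoc]
      exact (hK2 w).1 (TwoSidedIdeal.mem_asIdeal.1 (hj hw)) z hz g (hDA g hg)
    · intro a b ha hb
      rw [mul_add]
      exact I.add_mem ha hb
  apply hI 0
  rw [zero_add, Submodule.pow_one]
  exact CI_le hgen _ (TwoSidedIdeal.mem_asIdeal.2 hc)

end Pool.Agent.H854R3.NE
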