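import Pool.Agent.H854R3.NE.Gen

/-! If all the subvarieties given by the pairs `(p, q)` are Engel, then so is the subvariety of
rings whose commutator ideal has square zero. -/

set_option autoImplicit false

namespace Pool.Agent.H854R3.NE

open scoped IsMulCommutative

section tri

variable {F : Type} [Field F]

theorem tri_npw {t : Matrix (Fin 2) (Fin 2) F} (ht : t 1 0 = 0) (n : ℕ) :
    npw t n 1 0 = 0 ∧ npw t n 0 0 = t 0 0 ^ (n + 1) ∧ npw t n 1 1 = t 1 1 ^ (n + 1) := by
  induction n with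
  | zero => exact ⟨ht, by simp [npw], by simp [npw]⟩
  | succ n ih =>
    obtain ⟨h1, h2, h3⟩ := ih
    refine ⟨?_, ?_, ?_⟩
    · simp only [npw, Matrix.mul_apply, Fin.sum_univ_two, h1, ht, zero_mul, mul_zero, add_zero]
    · simp only [npw, Matrix.mul_apply, Fin.sum_univ_two, h2, ht, mul_zero, add_zero, pow_succ]
    · simp only [npw, Matrix.mul_apply, Fin.sum_univ_two, h1, h3, zero_mul, zero_add, pow_succ]

theorem isW_tri (p k : ℕ) [hp : Fact p.Prime] [CharP F p] [Fintype F]
    (hcard : Fintype.card F = p ^ k) (T : NonUnitalSubring (Matrix (Fin 2) (Fin 2) F))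
    (hT : ∀ t ∈ T, t 1 0 = 0) : IsW p k T := by
  have hq : 1 ≤ p ^ k := Nat.one_le_iff_ne_zero.2 (pow_ne_zero _ hp.out.ne_zero)
  have strict : ∀ g ∈ Gen (p ^ k) T, (g : Matrix (Fin 2) (Fin 2) F) 1 0 = 0 ∧
      (g : Matrix (Fin 2) (Fin 2) F) 0 0 = 0 ∧ (g : Matrix (Fin 2) (Fin 2) F) 1 1 = 0 := by
    rintro g (⟨x, rfl⟩ | ⟨x, y, rfl⟩)
    · have h1 : ((npw x (p ^ k - 1) - x : T) : Matrix (Fin 2) (Fin 2) F) =
          npw (x : Matrix (Fin 2) (Fin 2) F) (p ^ k - 1) - x := by
        have := npw_map (NonUnitalSubringClass.subtype T) x (p ^ k - 1)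
        exact congrArg (· - (x : Matrix (Fin 2) (Fin 2) F)) this
      obtain ⟨h2, h3, h4⟩ := tri_npw (hT x.1 x.2) (p ^ k - 1)
      have e : p ^ k - 1 + 1 = Fintype.card F := by rw [hcard]; omega
      rw [h1]
      refine ⟨?_, ?_, ?_⟩
      · rw [Matrix.sub_apply, h2, hT x.1 x.2, sub_zero]
      · rw [Matrix.sub_apply, h3, e, FiniteField.pow_card, sub_self]
      · rw [Matrix.sub_apply, h4, e, FiniteField.pow_card, sub_self]
    · have hx := hT x.1 x.2
      have hy := hT y.1 y.2
      have h1 : ((x * y - y * x : T) : Matrix (Fin 2) (Fin 2) F) =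
          (x : Matrix (Fin 2) (Fin 2) F) * y - y * x := rfl
      rw [h1]
      refine ⟨?_, ?_, ?_⟩
      · simp only [Matrix.sub_apply, Matrix.mul_apply, Fin.sum_univ_two, hx, hy, zero_mul,
          mul_zero, add_zero, sub_zero]
      · simp only [Matrix.sub_apply, Matrix.mul_apply, Fin.sum_univ_two, hx, hy, 
          mul_zero, add_zero]
        ring
      · simp only [Matrix.sub_apply, Matrix.mul_apply, Fin.sum_univ_two, hx, hy, zero_mul,
          zero_add]
        ring
  refine ⟨?_, ?_, ?_⟩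
  · intro x
    apply Subtype.ext
    have h1 : ((p • x : T) : Matrix (Fin 2) (Fin 2) F) = p • (x : Matrix (Fin 2) (Fin 2) F) := rfl
    rw [h1]
    ext i j
    rw [Matrix.smul_apply, nsmul_eq_mul, CharP.cast_eq_zero, zero_mul]
    rfl
  · intro a ha b hb
    obtain ⟨a1, a2, a3⟩ := strict a ha
    obtain ⟨b1, b2, b3⟩ := strict b hb
    apply Subtype.ext
    change (a : Matrix (Fin 2) (Fin 2) F) * b = 0
    ext i j
    fin_cases i <;> fin_cases j <;>
      simp [Matrix.mul_apply, Fin.sum_univ_two, a1, a2, a3, b1, b2, b3]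
  · intro a ha b hb c
    obtain ⟨a1, a2, a3⟩ := strict a ha
    obtain ⟨b1, b2, b3⟩ := strict b hb
    have hc := hT c.1 c.2
    apply Subtype.ext
    change (a : Matrix (Fin 2) (Fin 2) F) * c * b = 0
    ext i j
    fin_cases i <;> fin_cases j <;>
      simp [Matrix.mul_apply, Fin.sum_univ_two, a1, a2, a3, b1, b2, b3, hc]

/-- The triangular ring attached to a finite bimodule. -/
theorem tri_aux {E : Set (RTerm × RTerm)} {A : Type} [NonUnitalRing A] (hA : Models E A)
    [Fintype F] (p k : ℕ) [hp : Fact p.Prime] [CharP F p] (hcard : Fintype.card F = p ^ k)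
    {K : Type} [CommRing K] (π : K →+* F) (Z : K →+ A) (lam rho : A →ₙ+* K)
    (hπ : ∀ κ, Z κ = 0 → π κ = 0)
    (hl : ∀ u κ, u * Z κ = Z (lam u * κ)) (hr : ∀ u κ, Z κ * u = Z (rho u * κ))
    (hZZ : ∀ κ κ', Z κ * Z κ' = 0) (y : A) (hδ : π (rho y) - π (lam y) ≠ 0) :
    ∃ (T : Type) (_ : NonUnitalRing T) (X Y : T),
      Models E T ∧ IsW p k T ∧ ∀ n, eng X Y n ≠ 0 := by
  classical
  have hπ' : ∀ κ κ' : K, Z κ = Z κ' → π κ = π κ' := by
    intro κ κ' h
    have := hπ (κ - κ') (by rw [map_sub, h, sub_self])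
    rwa [map_sub, sub_eq_zero] at this
  let MM : A → K → Matrix (Fin 2) (Fin 2) F := fun u κ => !![π (lam u), π κ; 0, π (rho u)]
  let C : NonUnitalSubring ((A × A) × Matrix (Fin 2) (Fin 2) F) :=
    { carrier := {w | ∃ (u : A) (κ : K), w = ((u, u + Z κ), MM u κ)}
      zero_mem' := by
        refine ⟨0, 0, ?_⟩
        have e3 : MM 0 0 = 0 := by
          simp only [MM, map_zero]
          ext i j
          fin_cases i <;> fin_cases j <;> rfl
        rw [e3, map_zero, add_zero]
        rfl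
      add_mem' := by
        rintro _ _ ⟨u, κ, rfl⟩ ⟨u', κ', rfl⟩
        refine ⟨u + u', κ + κ', ?_⟩
        refine Prod.ext (Prod.ext rfl ?_) ?_
        · change (u + Z κ) + (u' + Z κ') = (u + u') + Z (κ + κ')
          rw [map_add]
          abel
        · change MM u κ + MM u' κ' = MM (u + u') (κ + κ')
          simp only [MM, map_add]
          ext i j
          fin_cases i <;> fin_cases j <;> simp
      neg_mem' := by
        rintro _ ⟨u, κ, rfl⟩
        refine ⟨-u, -κ, ?_⟩
        refine Prod.ext (Prod.ext rfl ?_) ?_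
        · change -(u + Z κ) = -u + Z (-κ)
          rw [map_neg]
          abel
        · change -MM u κ = MM (-u) (-κ)
          simp only [MM, map_neg]
          ext i j
          fin_cases i <;> fin_cases j <;> simp
      mul_mem' := by
        rintro _ _ ⟨u, κ, rfl⟩ ⟨u', κ', rfl⟩
        refine ⟨u * u', lam u * κ' + rho u' * κ, ?_⟩
        refine Prod.ext (Prod.ext rfl ?_) ?_
        · change (u + Z κ) * (u' + Z κ') = u * u' + Z (lam u * κ' + rho u' * κ)
          rw [add_mul, mul_add, mul_add, hZZ, add_zero, map_add, ← hl, ← hr]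
          abel
        · change MM u κ * MM u' κ' = MM (u * u') (lam u * κ' + rho u' * κ)
          simp only [MM, map_add, map_mul]
          ext i j
          fin_cases i <;> fin_cases j <;>
            simp [Matrix.mul_apply, Fin.sum_univ_two, mul_comm] }
  have hC : Models E C := by
    refine (hA.prod hA).of_injective
      ((NonUnitalRingHom.fst (A × A) (Matrix (Fin 2) (Fin 2) F)).comp
        (NonUnitalSubringClass.subtype C)) ?_
    rintro ⟨_, ⟨u, κ, rfl⟩⟩ ⟨_, ⟨u', κ', rfl⟩⟩ h
    have h1 : ((u, u + Z κ) : A × A) = (u', u' + Z κ') := h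
    have h2 : u = u' := congrArg Prod.fst h1
    have h3 : u + Z κ = u' + Z κ' := congrArg Prod.snd h1
    subst h2
    have h4 : Z κ = Z κ' := add_left_cancel h3
    apply Subtype.ext
    refine Prod.ext h1 ?_
    change MM u κ = MM u κ'
    simp only [MM, hπ' κ κ' h4]
  let ψ : C →ₙ+* Matrix (Fin 2) (Fin 2) F :=
    (NonUnitalRingHom.snd (A × A) (Matrix (Fin 2) (Fin 2) F)).comp
        (NonUnitalSubringClass.subtype C)
  let T : NonUnitalSubring (Matrix (Fin 2) (Fin 2) F) := ψ.range
  have hTm : Models E T := by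
    refine hC.of_surjective ψ.rangeRestrict ?_
    exact NonUnitalRingHom.rangeRestrict_surjective ψ
  have hTt : ∀ t ∈ T, t 1 0 = 0 := by
    rintro _ ⟨⟨_, ⟨u, κ, rfl⟩⟩, rfl⟩
    rfl
  have hMT : ∀ u κ, MM u κ ∈ T := by
    intro u κ
    exact ⟨⟨_, ⟨u, κ, rfl⟩⟩, rfl⟩
  refine ⟨T, inferInstance, ⟨MM 0 1, hMT _ _⟩, ⟨MM y 0, hMT _ _⟩, hTm,
    isW_tri p k hcard T hTt, ?_⟩
  intro n hn
  have key : ∀ n, ((eng (⟨MM 0 1, hMT _ _⟩ : T) ⟨MM y 0, hMT _ _⟩ n : T) :
      Matrix (Fin 2) (Fin 2) F) = !![0, (π (rho y) - π (lam y)) ^ n; 0, 0] := by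
    intro n
    induction n with
    | zero =>
      change MM 0 1 = _
      simp only [MM, map_zero, map_one, pow_zero]
    | succ n ih =>
      change ((eng (⟨MM 0 1, hMT _ _⟩ : T) ⟨MM y 0, hMT _ _⟩ n : T) :
        Matrix (Fin 2) (Fin 2) F) * MM y 0 - MM y 0 * ((eng (⟨MM 0 1, hMT _ _⟩ : T)
          ⟨MM y 0, hMT _ _⟩ n : T) : Matrix (Fin 2) (Fin 2) F) = _
      rw [ih]
      simp only [MM, map_zero]
      ext i j
      fin_cases i <;> fin_cases j
      · simp [Matrix.mul_apply, Fin.sum_univ_two]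
      · simp [Matrix.mul_apply, Fin.sum_univ_two]
        ring
      · simp [Matrix.mul_apply, Fin.sum_univ_two]
      · simp [Matrix.mul_apply, Fin.sum_univ_two]
  have h1 := key n
  rw [hn] at h1
  have h2 := congrFun (congrFun h1 0) 1
  have h3 : (π (rho y) - π (lam y)) ^ n = 0 := h2.symm
  exact (pow_ne_zero n hδ) h3

end tri

theorem step_one_aux {E : Set (RTerm × RTerm)} {A : Type} [NonUnitalRing A] {x y : A}
    (hgen : GenBy x y) (hA : Models E A) (hD : D2 A) (hne : ∀ n, eng x y n ≠ 0) :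
    ∃ (p k : ℕ), p.Prime ∧ 1 ≤ k ∧ ∃ (T : Type) (_ : NonUnitalRing T) (X Y : T),
      Models E T ∧ IsW p k T ∧ ∀ n, eng X Y n ≠ 0 := by
  classical
  let D := TwoSidedIdeal.span (Comm A)
  have hDD : ∀ {m n : A}, m ∈ D → n ∈ D → m * n = 0 := fun hm hn => span_mul_zero hD.1 hD.2 hm hn
  have hcD : ∀ r s : A, r * s - s * r ∈ D := fun r s => TwoSidedIdeal.subset_span ⟨r, s, rfl⟩
  let gens : Set (AddMonoid.End D) := {Lm D x, Lm D y, Rm D x, Rm D y}
  have hLL : ∀ r s, Lm D r * Lm D s = Lm D s * Lm D r := by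
    intro r s
    ext m
    change r * (s * m.1) = s * (r * m.1)
    have := hDD (hcD r s) m.2
    rw [sub_mul, sub_eq_zero, mul_assoc, mul_assoc] at this
    exact this
  have hLR : ∀ r s, Lm D r * Rm D s = Rm D s * Lm D r := by
    intro r s
    ext m
    change r * (m.1 * s) = (r * m.1) * s
    rw [mul_assoc]
  have hRR : ∀ r s, Rm D r * Rm D s = Rm D s * Rm D r := by
    intro r s
    ext m
    change (m.1 * s) * r = (m.1 * r) * s
    have := hDD m.2 (hcD r s)
    rw [mul_sub, sub_eq_zero] at this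
    rw [mul_assoc, mul_assoc]
    exact this.symm
  have hcomm : ∀ a ∈ gens, ∀ b ∈ gens, a * b = b * a := by
    intro a ha b hb
    simp only [gens, Set.mem_insert_iff, Set.mem_singleton_iff] at ha hb
    rcases ha with rfl | rfl | rfl | rfl <;> rcases hb with rfl | rfl | rfl | rfl <;>
      first
        | exact hLL _ _
        | exact hRR _ _
        | exact hLR _ _
        | exact (hLR _ _).symm
  let K := Algebra.adjoin ℤ gens
  have hmc : IsMulCommutative K := Algebra.isMulCommutative_adjoin ℤ hcomm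
  have hft : Algebra.FiniteType ℤ K := by
    rw [← Subalgebra.fg_iff_finiteType]
    exact Subalgebra.fg_def.2 ⟨gens, Set.toFinite _, rfl⟩
  have hL : ∀ r, Lm D r ∈ K := by
    intro r
    refine hgen.induction (P := fun r => Lm D r ∈ K) ?_ ?_ ?_ ?_ ?_ ?_ r
    · exact Algebra.subset_adjoin (by simp [gens])
    · exact Algebra.subset_adjoin (by simp [gens])
    · have : Lm D 0 = 0 := by ext m; exact zero_mul _
      rw [this]; exact zero_mem _
    · intro a b ha hb
      have : Lm D (a + b) = Lm D a + Lm D b := by ext m; exact add_mul _ _ _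
      rw [this]; exact add_mem ha hb
    · intro a ha
      have : Lm D (-a) = - Lm D a := by ext m; exact neg_mul _ _
      rw [this]; exact neg_mem ha
    · intro a b ha hb
      have : Lm D (a * b) = Lm D a * Lm D b := by ext m; exact mul_assoc _ _ _
      rw [this]; exact mul_mem ha hb
  have hR : ∀ r, Rm D r ∈ K := by
    intro r
    refine hgen.induction (P := fun r => Rm D r ∈ K) ?_ ?_ ?_ ?_ ?_ ?_ r
    · exact Algebra.subset_adjoin (by simp [gens])
    · exact Algebra.subset_adjoin (by simp [gens])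
    · have : Rm D 0 = 0 := by ext m; exact mul_zero _
      rw [this]; exact zero_mem _
    · intro a b ha hb
      have : Rm D (a + b) = Rm D a + Rm D b := by ext m; exact mul_add _ _ _
      rw [this]; exact add_mem ha hb
    · intro a ha
      have : Rm D (-a) = - Rm D a := by ext m; exact mul_neg _ _
      rw [this]; exact neg_mem ha
    · intro a b ha hb
      have : Rm D (a * b) = Rm D b * Rm D a := by ext m; exact (mul_assoc _ _ _).symm
      rw [this]; exact mul_mem hb ha
  let z : D := ⟨x * y - y * x, hcD x y⟩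
  let lam : A → K := fun r => ⟨Lm D r, hL r⟩
  let rho : A → K := fun r => ⟨Rm D r, hR r⟩
  let δ : K := rho y - lam y
  have hδ : ∀ n, ((δ ^ n).1 z).1 = eng x y (n + 1) := by
    intro n
    induction n with
    | zero => rw [pow_zero]; rfl
    | succ n ih =>
      rw [pow_succ']
      have e : ((δ * δ ^ n).1 z).1 = ((δ ^ n).1 z).1 * y - y * ((δ ^ n).1 z).1 := rfl
      rw [e, ih]; rfl
  let 𝔞 : Ideal K :=
    { carrier := {κ | κ.1 z = 0}
      add_mem' := by
        intro a b ha hb
        change a.1 z + b.1 z = 0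
        rw [show a.1 z = 0 from ha, show b.1 z = 0 from hb, add_zero]
      zero_mem' := rfl
      smul_mem' := by
        intro c a ha
        change c.1 (a.1 z) = 0
        rw [show a.1 z = 0 from ha, map_zero] }
  have hδa : ∀ n, δ ^ n ∉ 𝔞 := by
    intro n hn
    apply hne (n + 1)
    rw [← hδ n]
    exact congrArg Subtype.val (show (δ ^ n).1 z = 0 from hn)
  have hJ : IsJacobsonRing K := by
    have := jac_int
    exact isJacobsonRing_of_finiteType (A := ℤ)
  obtain ⟨𝔪, hm1, hm2, hm3⟩ : ∃ 𝔪 : Ideal K, 𝔞 ≤ 𝔪 ∧ 𝔪.IsMaximal ∧ δ ∉ 𝔪 := by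
    have h1 : δ ∉ 𝔞.radical := by
      rintro ⟨n, hn⟩
      exact hδa n hn
    rw [Ideal.radical_eq_jacobson] at h1
    unfold Ideal.jacobson at h1
    rw [Ideal.mem_sInf] at h1
    push Not at h1
    obtain ⟨𝔪, ⟨h2, h3⟩, h4⟩ := h1
    exact ⟨𝔪, h2, h3, h4⟩
  let F := K ⧸ 𝔪
  let iF : Field F := Ideal.Quotient.field 𝔪
  have hfin : Finite F := residue_finite K 𝔪
  let iFt : Fintype F := Fintype.ofFinite F
  obtain ⟨p, hp⟩ := CharP.exists F
  obtain ⟨k, hpp, hcard⟩ := FiniteField.card F p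
  have hfact : Fact p.Prime := ⟨hpp⟩
  refine ⟨p, k, hpp, k.2, ?_⟩
  refine tri_aux (F := F) hA p k hcard (K := K) (Ideal.Quotient.mk 𝔪)
    { toFun := fun κ => (κ.1 z).1
      map_zero' := rfl
      map_add' := fun _ _ => rfl }
    { toFun := lam
      map_zero' := by apply Subtype.ext; ext m; exact zero_mul _
      map_add' := by intro u u'; apply Subtype.ext; ext m; exact add_mul _ _ _
      map_mul' := by intro u u'; apply Subtype.ext; ext m; exact mul_assoc _ _ _ }
    { toFun := rho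
      map_zero' := by apply Subtype.ext; ext m; exact mul_zero _
      map_add' := by intro u u'; apply Subtype.ext; ext m; exact mul_add _ _ _
      map_mul' := by
        intro u u'
        rw [mul_comm]
        apply Subtype.ext; ext m; exact (mul_assoc _ _ _).symm }
    ?_ ?_ ?_ ?_ y ?_
  · intro κ hκ
    apply Ideal.Quotient.eq_zero_iff_mem.2
    apply hm1
    exact Subtype.ext hκ
  · intro u κ; rfl
  · intro u κ; rfl
  · intro κ κ'
    exact hDD (κ.1 z).2 (κ'.1 z).2
  · intro h
    apply hm3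
    apply Ideal.Quotient.eq_zero_iff_mem.1
    exact h

/-- Step one. -/
theorem step_one {E : Set (RTerm × RTerm)}
    (hW : ∀ p k : ℕ, p.Prime → 1 ≤ k → IsEngel (E ∪ WId p (p ^ k))) : IsEngel (E ∪ D2Id) := by
  by_contra hcon
  obtain ⟨A0, _, x0, y0, hA0, hne0⟩ := exists_of_not_engel hcon
  have h1 : Models E (sub2 x0 y0) := Models.subring (fun e he => hA0 e (Or.inl he)) _
  have h2 : D2 (sub2 x0 y0) := models_D2Id.1 (Models.subring (fun e he => hA0 e (Or.inr he)) _)
  obtain ⟨p, k, hp, hk, T, _, X, Y, hT1, hT2, hT3⟩ := step_one_aux (genBy_sub2 x0 y0) h1 h2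
    (fun n hn => hne0 n (by
      have := eng_map (NonUnitalSubringClass.subtype (sub2 x0 y0)) (sx x0 y0) (sy x0 y0) n
      rw [hn, map_zero] at this
      exact this.symm))
  obtain ⟨n, _, hn⟩ := hW p k hp hk
  apply hT3 n
  apply hn T
  rintro e (he | he)
  · exact hT1 e he
  · exact models_WId.2 hT2 e he

end Pool.Agent.H854R3.NE
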