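import Pool.Agent.H854R3.NE.WVar

/-! The bound for the subdirectly irreducible rings. -/

set_option autoImplicit false

namespace Pool.Agent.H854R3.NE

variable {R : Type} [NonUnitalRing R]

/-- the elements `x ^ q - x` and the commutators -/
def Gen (q : ℕ) (R : Type) [NonUnitalRing R] : Set R :=
  {g | (∃ x : R, g = npw x (q - 1) - x) ∨ ∃ x y : R, g = x * y - y * x}

/-- characteristic `p`, and the ideal generated by `Gen (p ^ k) R` has square zero -/
structure IsW (p k : ℕ) (R : Type) [NonUnitalRing R] : Prop where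
  char : ∀ x : R, p • x = 0
  mul : ∀ a ∈ Gen (p ^ k) R, ∀ b ∈ Gen (p ^ k) R, a * b = 0
  mul3 : ∀ a ∈ Gen (p ^ k) R, ∀ b ∈ Gen (p ^ k) R, ∀ c : R, a * c * b = 0

theorem IsW.span_mul {p k : ℕ} (h : IsW p k R) {m n : R}
    (hm : m ∈ TwoSidedIdeal.span (Gen (p ^ k) R)) (hn : n ∈ TwoSidedIdeal.span (Gen (p ^ k) R)) :
    m * n = 0 := by
  have step1 : ∀ g ∈ Gen (p ^ k) R, ∀ m ∈ TwoSidedIdeal.span (Gen (p ^ k) R),
      m * g = 0 ∧ ∀ c, m * c * g = 0 := by
    intro g hg
    let I : TwoSidedIdeal R := TwoSidedIdeal.mk' {m | m * g = 0 ∧ ∀ c, m * c * g = 0}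
      ⟨zero_mul _, fun c => by rw [zero_mul, zero_mul]⟩
      (by
        rintro x y ⟨h1, h2⟩ ⟨h3, h4⟩
        exact ⟨by rw [add_mul, h1, h3, add_zero], fun c => by
          rw [add_mul, add_mul, h2, h4, add_zero]⟩)
      (by
        rintro x ⟨h1, h2⟩
        exact ⟨by rw [neg_mul, h1, neg_zero], fun c => by rw [neg_mul, neg_mul, h2, neg_zero]⟩)
      (by
        rintro r x ⟨h1, h2⟩
        exact ⟨by rw [mul_assoc, h1, mul_zero], fun c => by
          rw [mul_assoc, mul_assoc, ← mul_assoc x, h2, mul_zero]⟩)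
      (by
        rintro x r ⟨h1, h2⟩
        exact ⟨h2 r, fun c => by rw [mul_assoc x r c]; exact h2 _⟩)
    have hle : TwoSidedIdeal.span (Gen (p ^ k) R) ≤ I := by
      rw [TwoSidedIdeal.span_le]
      intro b hb
      exact (TwoSidedIdeal.mem_mk' _ _ _ _ _ _ b).2 ⟨h.mul b hb g hg, h.mul3 b hb g hg⟩
    intro m hm
    exact (TwoSidedIdeal.mem_mk' _ _ _ _ _ _ m).1 (hle hm)
  let I : TwoSidedIdeal R := TwoSidedIdeal.mk' {n | m * n = 0 ∧ ∀ c, m * c * n = 0}
      ⟨mul_zero _, fun c => mul_zero _⟩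
      (by
        rintro x y ⟨h1, h2⟩ ⟨h3, h4⟩
        exact ⟨by rw [mul_add, h1, h3, add_zero], fun c => by
          rw [mul_add, h2, h4, add_zero]⟩)
      (by
        rintro x ⟨h1, h2⟩
        exact ⟨by rw [mul_neg, h1, neg_zero], fun c => by rw [mul_neg, h2, neg_zero]⟩)
      (by
        rintro r x ⟨h1, h2⟩
        exact ⟨by rw [← mul_assoc]; exact h2 r, fun c => by
          rw [← mul_assoc, mul_assoc m c r]; exact h2 _⟩)
      (by
        rintro x r ⟨h1, h2⟩
        exact ⟨by rw [← mul_assoc, h1, zero_mul], fun c => by rw [← mul_assoc, h2, zero_mul]⟩)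
  have hle : TwoSidedIdeal.span (Gen (p ^ k) R) ≤ I := by
    rw [TwoSidedIdeal.span_le]
    intro b hb
    exact (TwoSidedIdeal.mem_mk' _ _ _ _ _ _ b).2 (step1 b hb m hm)
  exact ((TwoSidedIdeal.mem_mk' _ _ _ _ _ _ n).1 (hle hn)).1

theorem npw_mul_left_zero {r m : R} (h : r * m = 0) (n : ℕ) : npw r n * m = 0 := by
  cases n with
  | zero => exact h
  | succ n => change npw r n * r * m = 0; rw [mul_assoc, h, mul_zero]

theorem mul_npw_zero {r m : R} (h : m * r = 0) (n : ℕ) : m * npw r n = 0 := by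
  induction n with
  | zero => exact h
  | succ n ih => change m * (npw r n * r) = 0; rw [← mul_assoc, ih, zero_mul]

theorem ann_sub {p k : ℕ} [hp : Fact p.Prime] (hk : 1 ≤ k) (h : IsW p k R) {a : R} (ha : a ≠ 0)
    (haN : a ∈ TwoSidedIdeal.span (Gen (p ^ k) R)) (hall : InAll a)
    {r : R} (h1 : ∀ m ∈ TwoSidedIdeal.span (Gen (p ^ k) R), r * m = 0)
    (h2 : ∀ m ∈ TwoSidedIdeal.span (Gen (p ^ k) R), m * r = 0) :
    r ∈ TwoSidedIdeal.span (Gen (p ^ k) R) := by
  set N := TwoSidedIdeal.span (Gen (p ^ k) R) with hN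
  by_contra hr
  have hq : 2 ≤ p ^ k := by
    calc 2 ≤ p := hp.out.two_le
      _ = p ^ 1 := (pow_one p).symm
      _ ≤ p ^ k := Nat.pow_le_pow_right hp.out.pos hk
  obtain ⟨Q, hQ⟩ : ∃ Q, p ^ k = Q + 2 := ⟨p ^ k - 2, by omega⟩
  have hn : npw r (Q + 1) - r ∈ N := by
    apply TwoSidedIdeal.subset_span
    left
    refine ⟨r, ?_⟩
    rw [hQ]
    rfl
  set n := npw r (Q + 1) - r with hnd
  have e1 : npw r (Q + 1) = r + n := by rw [hnd]; abel
  have per1 : npw r (Q + 2) = npw r 1 := by
    change npw r (Q + 1) * r = r * r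
    rw [e1, add_mul, h2 n hn, add_zero]
  have per : ∀ j, npw r (j + 1 + (Q + 1)) = npw r (j + 1) := by
    intro j
    induction j with
    | zero =>
      have : 0 + 1 + (Q + 1) = Q + 2 := by omega
      rw [this, per1]
    | succ j ih =>
      have : j + 1 + 1 + (Q + 1) = (j + 1 + (Q + 1)) + 1 := by omega
      rw [this]
      change npw r (j + 1 + (Q + 1)) * r = npw r (j + 1) * r
      rw [ih]
  -- the idempotent
  set f := npw r (2 * Q + 1) with hf
  have hff : f * f = f := by
    rw [hf, ← npw_add]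
    have e : 2 * Q + 1 + (2 * Q + 1) + 1 = (2 * Q + (Q + 1)) + 1 + (Q + 1) := by omega
    rw [e, per]
    have e' : 2 * Q + (Q + 1) + 1 = 2 * Q + 1 + (Q + 1) := by omega
    rw [e', per]
  have hf0 : f ≠ 0 := by
    intro h0
    have h3 : npw r 1 = 0 := by
      have e : npw r 1 = npw r (2 * Q + 1 + 1 + 1) := by
        have e2 : 2 * Q + 1 + 1 + 1 = (Q + 1) + 1 + (Q + 1) := by omega
        rw [e2, per]
        have e3 : Q + 1 + 1 = 0 + 1 + (Q + 1) := by omega
        rw [e3, per]
      rw [e]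
      change f * r * r = 0
      rw [h0, zero_mul, zero_mul]
    have h4 : npw r (Q + 1) = 0 := by
      cases Q with
      | zero => exact h3
      | succ Q =>
        have e : Q + 1 + 1 = 1 + Q + 1 := by omega
        rw [e, npw_add, h3, zero_mul]
    apply hr
    rw [e1] at h4
    have : r = -n := eq_neg_of_add_eq_zero_left h4
    rw [this]
    exact N.neg_mem hn
  have hfl : ∀ m ∈ N, f * m = 0 := fun m hm => npw_mul_left_zero (h1 m hm) _
  have hfr : ∀ m ∈ N, m * f = 0 := fun m hm => mul_npw_zero (h2 m hm) _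
  have hfc : ∀ s, f * s = s * f := by
    intro s
    have hg : f * s - s * f ∈ N := TwoSidedIdeal.subset_span (Or.inr ⟨f, s, rfl⟩)
    have h3 := hfl _ hg
    have h4 := hfr _ hg
    rw [mul_sub, sub_eq_zero, ← mul_assoc, hff] at h3
    rw [sub_mul, sub_eq_zero, mul_assoc s, hff] at h4
    rw [h3, ← mul_assoc, h4]
  let I : TwoSidedIdeal R := TwoSidedIdeal.mk' {x | f * x = x}
    (mul_zero _)
    (by intro x y hx hy; change f * (x + y) = x + y; rw [mul_add, hx, hy])
    (by intro x hx; change f * (-x) = -x; rw [mul_neg, hx])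
    (by
      intro s x hx
      change f * (s * x) = s * x
      rw [← mul_assoc, hfc, mul_assoc, hx])
    (by intro x s hx; change f * (x * s) = x * s; rw [← mul_assoc, hx])
  have hI : ∀ x, x ∈ I ↔ f * x = x := fun x => TwoSidedIdeal.mem_mk' _ _ _ _ _ _ x
  have h5 : a ∈ I := hall I (ne_bot_of_mem ((hI f).2 hff) hf0)
  rw [hI, hfl a haN] at h5
  exact ha h5.symm

/-- The subdirectly irreducible rings are finite and bounded. -/
theorem si_bound {p k : ℕ} [hp : Fact p.Prime] (hk : 1 ≤ k) (h : IsW p k R) {a : R} (ha : a ≠ 0)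
    (hall : InAll a) : Finite R ∧ Nat.card R ≤ p ^ k * (p ^ k * p ^ k) := by
  have hq : 2 ≤ p ^ k := by
    calc 2 ≤ p := hp.out.two_le
      _ = p ^ 1 := (pow_one p).symm
      _ ≤ p ^ k := Nat.pow_le_pow_right hp.out.pos hk
  by_cases hN : TwoSidedIdeal.span (Gen (p ^ k) R) = ⊥
  · have hz : ∀ g ∈ Gen (p ^ k) R, g = 0 := by
      intro g hg
      have : g ∈ TwoSidedIdeal.span (Gen (p ^ k) R) := TwoSidedIdeal.subset_span hg
      rw [hN] at this
      exact (TwoSidedIdeal.mem_bot R).1 this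
    have hA := action_bound (R := R) (M := ⊤) p k hk h.char
      (fun r s m _ => by rw [hz _ (Or.inr ⟨r, s, rfl⟩), zero_mul])
      (fun r s m _ => by rw [hz _ (Or.inr ⟨r, s, rfl⟩), mul_zero])
      (fun r m _ => by rw [hz _ (Or.inl ⟨r, rfl⟩), zero_mul])
      (fun r m _ => by rw [hz _ (Or.inl ⟨r, rfl⟩), mul_zero])
      ha trivial hall
    let e : (⊤ : TwoSidedIdeal R) ≃ R :=
      { toFun := fun x => x.1
        invFun := fun x => ⟨x, trivial⟩
        left_inv := fun x => rfl
        right_inv := fun x => rfl }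
    obtain ⟨hfin, hcard, _, _⟩ := hA
    refine ⟨Finite.of_equiv _ e, ?_⟩
    rw [← Nat.card_congr e]
    calc Nat.card (⊤ : TwoSidedIdeal R) ≤ p ^ k := hcard
      _ = p ^ k * (1 * 1) := by ring
      _ ≤ p ^ k * (p ^ k * p ^ k) := by gcongr <;> omega
  · have haN : a ∈ TwoSidedIdeal.span (Gen (p ^ k) R) := hall _ hN
    set N := TwoSidedIdeal.span (Gen (p ^ k) R) with hNd
    have hg : ∀ g ∈ Gen (p ^ k) R, g ∈ N := fun g hg => TwoSidedIdeal.subset_span hg
    obtain ⟨hf1, hc1, hf2, hc2⟩ := action_bound (R := R) (M := N) p k hk h.char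
      (fun r s m hm => h.span_mul (hg _ (Or.inr ⟨r, s, rfl⟩)) hm)
      (fun r s m hm => h.span_mul hm (hg _ (Or.inr ⟨r, s, rfl⟩)))
      (fun r m hm => h.span_mul (hg _ (Or.inl ⟨r, rfl⟩)) hm)
      (fun r m hm => h.span_mul hm (hg _ (Or.inl ⟨r, rfl⟩)))
      ha haN hall
    let S := Subring.closure (mults N)
    let ψ : R →+ S × S :=
      { toFun := fun r => (⟨Lm N r, Subring.subset_closure (Or.inl ⟨r, rfl⟩)⟩,
          ⟨Rm N r, Subring.subset_closure (Or.inr ⟨r, rfl⟩)⟩)
        map_zero' := by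
          apply Prod.ext
          · apply Subtype.ext; ext m; exact zero_mul _
          · apply Subtype.ext; ext m; exact mul_zero _
        map_add' := by
          intro x y
          apply Prod.ext
          · apply Subtype.ext; ext m; exact add_mul _ _ _
          · apply Subtype.ext; ext m; exact mul_add _ _ _ }
    have hker : ∀ r ∈ ψ.ker, r ∈ N := by
      intro r hr
      have h3 : ψ r = 0 := hr
      have h4 : Lm N r = 0 := congrArg (fun z => (z.1 : AddMonoid.End N)) h3
      have h5 : Rm N r = 0 := congrArg (fun z => (z.2 : AddMonoid.End N)) h3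
      refine ann_sub hk h ha haN hall ?_ ?_
      · intro m hm
        exact congrArg Subtype.val (DFunLike.congr_fun h4 ⟨m, hm⟩)
      · intro m hm
        exact congrArg Subtype.val (DFunLike.congr_fun h5 ⟨m, hm⟩)
    have hinj : Function.Injective (fun r : ψ.ker => (⟨r.1, hker r.1 r.2⟩ : N)) := by
      intro x y hxy
      exact Subtype.ext (congrArg (fun z : N => z.1) hxy)
    have hkc : Nat.card ψ.ker ≤ p ^ k := (Nat.card_le_card_of_injective _ hinj).trans hc1
    have hkf : Finite ψ.ker := Finite.of_injective _ hinj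
    have hrc : Nat.card ψ.range ≤ p ^ k * p ^ k := by
      calc Nat.card ψ.range ≤ Nat.card (S × S) :=
            Nat.card_le_card_of_injective _ (Subtype.val_injective)
        _ = Nat.card S * Nat.card S := Nat.card_prod _ _
        _ ≤ p ^ k * p ^ k := Nat.mul_le_mul hc2 hc2
    have hmul : Nat.card ψ.ker * Nat.card ψ.range = Nat.card R := by
      rw [← AddSubgroup.index_ker]
      exact AddSubgroup.card_mul_index _
    have hpos : 0 < Nat.card R := by
      rw [← hmul]
      exact Nat.mul_pos Nat.card_pos Nat.card_pos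
    refine ⟨Nat.finite_of_card_ne_zero hpos.ne', ?_⟩
    rw [← hmul]
    exact Nat.mul_le_mul hkc hrc

end Pool.Agent.H854R3.NE
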