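import Pool.Agent.H854R3.NE.Ideal

/-!
Rings of prime characteristic `p` in which the ideal generated by all `x ^ q - x` and all
commutators has square zero (`q` a power of `p`): the subdirectly irreducible ones have at most
`q ^ 3` elements.
-/

set_option autoImplicit false

namespace Pool.Agent.H854R3.NE

open scoped IsMulCommutative

/-! ### A commutative lemma -/

theorem field_bound {S : Type} [CommRing S] [Nontrivial S] (q : ℕ) (hq : 2 ≤ q)
    (hpow : ∀ t : S, t ^ q = t) (hid : ∀ e : S, e * e = e → e = 0 ∨ e = 1) :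
    (∀ t : S, t ≠ 0 → t ^ (q - 1) = 1) ∧ Finite S ∧ Nat.card S ≤ q := by
  classical
  have hunit : ∀ t : S, t ≠ 0 → t ^ (q - 1) = 1 := by
    intro t ht
    have h1 : t ^ (q - 1) * t ^ (q - 1) = t ^ (q - 1) := by
      have e : (q - 1) + (q - 1) = q + (q - 2) := by omega
      rw [← pow_add, e, pow_add, hpow, ← pow_succ']
      congr 1; omega
    rcases hid _ h1 with h | h
    · exfalso
      apply ht
      have e : q = (q - 1) + 1 := by omega
      have h2 := hpow t
      rw [e, pow_succ, h, zero_mul] at h2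
      exact h2.symm
    · exact h
  have hdom : IsDomain S := by
    have : NoZeroDivisors S := by
      refine ⟨?_⟩
      intro a b hab
      by_contra hcon
      push Not at hcon
      have h1 := hunit a hcon.1
      apply hcon.2
      have e : q - 1 = (q - 2) + 1 := by omega
      calc b = a ^ (q - 1) * b := by rw [h1, one_mul]
        _ = a ^ (q - 2) * (a * b) := by rw [e, pow_succ]; ring
        _ = 0 := by rw [hab, mul_zero]
    exact NoZeroDivisors.to_isDomain S
  let P : Polynomial S := Polynomial.X ^ q - Polynomial.X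
  have hdeg : P.natDegree = q := by
    apply Polynomial.natDegree_sub_eq_left_of_natDegree_lt _ |>.trans
    · simp
    · simp only [Polynomial.natDegree_X, Polynomial.natDegree_X_pow]; omega
  have hP : P ≠ 0 := by
    intro h
    rw [h, Polynomial.natDegree_zero] at hdeg
    omega
  have hmem : ∀ t : S, t ∈ P.roots.toFinset := by
    intro t
    rw [Multiset.mem_toFinset, Polynomial.mem_roots hP]
    simp [P, Polynomial.IsRoot, hpow t]
  have hfin : Finite S := by
    rw [← Set.finite_univ_iff]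
    exact (P.roots.toFinset.finite_toSet).subset (fun t _ => hmem t)
  refine ⟨hunit, hfin, ?_⟩
  have := Fintype.ofFinite S
  rw [Nat.card_eq_fintype_card]
  calc Fintype.card S = (Finset.univ : Finset S).card := rfl
    _ ≤ P.roots.toFinset.card := Finset.card_le_card (fun t _ => hmem t)
    _ ≤ Multiset.card P.roots := Multiset.toFinset_card_le _
    _ ≤ P.natDegree := Polynomial.card_roots' P
    _ = q := hdeg

section action

variable {R : Type} [NonUnitalRing R]

/-- left multiplications on an ideal -/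
def Lm (M : TwoSidedIdeal R) (r : R) : AddMonoid.End M where
  toFun m := ⟨r * m.1, M.mul_mem_left _ _ m.2⟩
  map_zero' := Subtype.ext (mul_zero r)
  map_add' x y := Subtype.ext (mul_add r x.1 y.1)

/-- right multiplications on an ideal -/
def Rm (M : TwoSidedIdeal R) (r : R) : AddMonoid.End M where
  toFun m := ⟨m.1 * r, M.mul_mem_right _ _ m.2⟩
  map_zero' := Subtype.ext (zero_mul r)
  map_add' x y := Subtype.ext (add_mul x.1 y.1 r)

/-- the multiplications -/
def mults (M : TwoSidedIdeal R) : Set (AddMonoid.End M) := Set.range (Lm M) ∪ Set.range (Rm M)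

variable {M : TwoSidedIdeal R}

theorem Lm_pow (r : R) (n : ℕ) : Lm M r ^ (n + 1) = Lm M (npw r n) := by
  induction n with
  | zero => rw [zero_add, pow_one]; rfl
  | succ n ih =>
    rw [pow_succ, ih]
    ext m
    change npw r n * (r * m.1) = npw r n * r * m.1
    rw [mul_assoc]

theorem npw_comm (r : R) (n : ℕ) : npw r n * r = r * npw r n := by
  induction n with
  | zero => rfl
  | succ n ih =>
    change npw r n * r * r = r * (npw r n * r)
    rw [ih, mul_assoc]
    rw [ih]

theorem Rm_pow (r : R) (n : ℕ) : Rm M r ^ (n + 1) = Rm M (npw r n) := by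
  induction n with
  | zero => rw [zero_add, pow_one]; rfl
  | succ n ih =>
    rw [pow_succ, ih]
    ext m
    change m.1 * r * npw r n = m.1 * (npw r n * r)
    rw [npw_comm, mul_assoc]

/-- The main lemma: the action on an ideal annihilated by the commutators and the `x ^ q - x`. -/
theorem action_bound (p k : ℕ) [hp : Fact p.Prime] (hk : 1 ≤ k)
    (hchar : ∀ x : R, p • x = 0)
    (hc1 : ∀ r s : R, ∀ m ∈ M, (r * s - s * r) * m = 0)
    (hc2 : ∀ r s : R, ∀ m ∈ M, m * (r * s - s * r) = 0)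
    (hq1 : ∀ r : R, ∀ m ∈ M, (npw r (p ^ k - 1) - r) * m = 0)
    (hq2 : ∀ r : R, ∀ m ∈ M, m * (npw r (p ^ k - 1) - r) = 0)
    {a : R} (ha : a ≠ 0) (haM : a ∈ M) (hall : InAll a) :
    Finite M ∧ Nat.card M ≤ p ^ k ∧ Finite (Subring.closure (mults M)) ∧
      Nat.card (Subring.closure (mults M)) ≤ p ^ k := by
  have hq : 2 ≤ p ^ k := by
    calc 2 ≤ p := hp.out.two_le
      _ = p ^ 1 := (pow_one p).symm
      _ ≤ p ^ k := Nat.pow_le_pow_right hp.out.pos hk
  have hcomm : ∀ x ∈ mults M, ∀ y ∈ mults M, x * y = y * x := by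
    rintro _ (⟨r, rfl⟩ | ⟨r, rfl⟩) _ (⟨s, rfl⟩ | ⟨s, rfl⟩)
    · ext m
      change r * (s * m.1) = s * (r * m.1)
      have := hc1 r s m.1 m.2
      rw [sub_mul, sub_eq_zero, mul_assoc, mul_assoc] at this
      exact this
    · ext m
      change r * (m.1 * s) = (r * m.1) * s
      rw [mul_assoc]
    · ext m
      change (s * m.1) * r = s * (m.1 * r)
      rw [mul_assoc]
    · ext m
      change (m.1 * s) * r = (m.1 * r) * s
      have := hc2 r s m.1 m.2
      rw [mul_sub, sub_eq_zero] at this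
      rw [mul_assoc, mul_assoc]
      exact this.symm
  let S := Subring.closure (mults M)
  have hmc : IsMulCommutative S := Subring.isMulCommutative_closure hcomm
  let a' : M := ⟨a, haM⟩
  have ha' : a' ≠ 0 := fun h => ha (congrArg Subtype.val h)
  have hnt : Nontrivial S := by
    refine ⟨⟨0, 1, ?_⟩⟩
    intro h
    apply ha'
    have h1 : (0 : AddMonoid.End M) = 1 := congrArg Subtype.val h
    have h2 := DFunLike.congr_fun h1 a'
    exact h2.symm
  have hp0 : ((p : ℕ) : S) = 0 := by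
    apply Subtype.ext
    ext m
    have h1 : (((p : ℕ) : S) : AddMonoid.End M) = ((p : ℕ) : AddMonoid.End M) := by
      push_cast; rfl
    rw [h1]
    have h2 : ((p : ℕ) : AddMonoid.End M) m = p • m := by
      rw [AddMonoid.End.natCast_apply]
    rw [h2]
    have h3 : ((p • m : M) : R) = p • (m : R) := rfl
    rw [h3, hchar]
    rfl
  have hadd : ∀ s t : S, (s + t) ^ p ^ k = s ^ p ^ k + t ^ p ^ k := by
    intro s t
    obtain ⟨r, hr⟩ := exists_add_pow_prime_pow_eq hp.out s t k
    rw [hr, hp0]; ring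
  have hpow : ∀ t : S, t ^ p ^ k = t := by
    rintro ⟨t, ht⟩
    induction ht using Subring.closure_induction with
    | mem x hx =>
      apply Subtype.ext
      change x ^ p ^ k = x
      have e : p ^ k = (p ^ k - 1) + 1 := by omega
      rcases hx with ⟨r, rfl⟩ | ⟨r, rfl⟩
      · rw [e, Lm_pow]
        ext m
        change npw r (p ^ k - 1) * m.1 = r * m.1
        have := hq1 r m.1 m.2
        rwa [sub_mul, sub_eq_zero] at this
      · rw [e, Rm_pow]
        ext m
        change m.1 * npw r (p ^ k - 1) = m.1 * r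
        have := hq2 r m.1 m.2
        rwa [mul_sub, sub_eq_zero] at this
    | zero =>
      have : (0 : S) ^ p ^ k = 0 := zero_pow (by omega)
      exact this
    | one =>
      have : (1 : S) ^ p ^ k = 1 := one_pow _
      exact this
    | add x y hx hy h1 h2 =>
      have h := hadd ⟨x, hx⟩ ⟨y, hy⟩
      rw [h1, h2] at h
      exact h
    | neg x hx h1 =>
      have h := hadd ⟨x, hx⟩ (-⟨x, hx⟩)
      rw [add_neg_cancel, zero_pow (by omega), h1] at h
      exact (neg_eq_of_add_eq_zero_right h.symm).symm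
    | mul x y hx hy h1 h2 =>
      have h : ((⟨x, hx⟩ : S) * ⟨y, hy⟩) ^ p ^ k = ⟨x, hx⟩ * ⟨y, hy⟩ := by
        rw [mul_pow, h1, h2]
      exact h
  -- submodules are ideals
  have hLS : ∀ r : R, Lm M r ∈ S := fun r => Subring.subset_closure (Or.inl ⟨r, rfl⟩)
  have hRS : ∀ r : R, Rm M r ∈ S := fun r => Subring.subset_closure (Or.inr ⟨r, rfl⟩)
  have hid : ∀ e : S, e * e = e → e = 0 ∨ e = 1 := by
    intro e he
    by_contra hcon
    push Not at hcon
    have hee : ∀ m : M, e.1 (e.1 m) = e.1 m := fun m =>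
      DFunLike.congr_fun (congrArg Subtype.val he) m
    have hLe : ∀ (r : R) (m : M), e.1 (Lm M r m) = Lm M r (e.1 m) := fun r m =>
      DFunLike.congr_fun (congrArg Subtype.val (mul_comm e (⟨Lm M r, hLS r⟩ : S))) m
    have hRe : ∀ (r : R) (m : M), e.1 (Rm M r m) = Rm M r (e.1 m) := fun r m =>
      DFunLike.congr_fun (congrArg Subtype.val (mul_comm e (⟨Rm M r, hRS r⟩ : S))) m
    let I1 : TwoSidedIdeal R := TwoSidedIdeal.mk' {x | ∃ m : M, m.1 = x ∧ e.1 m = m}
      ⟨0, rfl, map_zero _⟩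
      (by
        rintro _ _ ⟨m, rfl, hm⟩ ⟨n, rfl, hn⟩
        exact ⟨m + n, rfl, by rw [map_add, hm, hn]⟩)
      (by rintro _ ⟨m, rfl, hm⟩; exact ⟨-m, rfl, by rw [map_neg, hm]⟩)
      (by
        rintro r _ ⟨m, rfl, hm⟩
        exact ⟨Lm M r m, rfl, by rw [hLe, hm]⟩)
      (by
        rintro _ r ⟨m, rfl, hm⟩
        exact ⟨Rm M r m, rfl, by rw [hRe, hm]⟩)
    let I2 : TwoSidedIdeal R := TwoSidedIdeal.mk' {x | ∃ m : M, m.1 = x ∧ e.1 m = 0}
      ⟨0, rfl, map_zero _⟩
      (by
        rintro _ _ ⟨m, rfl, hm⟩ ⟨n, rfl, hn⟩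
        exact ⟨m + n, rfl, by rw [map_add, hm, hn, add_zero]⟩)
      (by rintro _ ⟨m, rfl, hm⟩; exact ⟨-m, rfl, by rw [map_neg, hm, neg_zero]⟩)
      (by
        rintro r _ ⟨m, rfl, hm⟩
        exact ⟨Lm M r m, rfl, by rw [hLe, hm, map_zero]⟩)
      (by
        rintro _ r ⟨m, rfl, hm⟩
        exact ⟨Rm M r m, rfl, by rw [hRe, hm, map_zero]⟩)
    have hI1 : ∀ x, x ∈ I1 ↔ ∃ m : M, m.1 = x ∧ e.1 m = m := fun x =>
      TwoSidedIdeal.mem_mk' _ _ _ _ _ _ x
    have hI2 : ∀ x, x ∈ I2 ↔ ∃ m : M, m.1 = x ∧ e.1 m = 0 := fun x =>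
      TwoSidedIdeal.mem_mk' _ _ _ _ _ _ x
    have h1 : e.1 a' = a' := by
      obtain ⟨m, hm⟩ : ∃ m, e.1 m ≠ 0 := by
        by_contra h
        push Not at h
        exact hcon.1 (Subtype.ext (AddMonoidHom.ext h))
      have h2 : a ∈ I1 := hall I1 (ne_bot_of_mem ((hI1 _).2 ⟨e.1 m, rfl, hee m⟩)
        (fun h => hm (Subtype.ext h)))
      obtain ⟨n, hn, hn'⟩ := (hI1 a).1 h2
      have : n = a' := Subtype.ext hn
      rwa [this] at hn'
    have h2 : e.1 a' = 0 := by
      obtain ⟨m, hm⟩ : ∃ m, e.1 m ≠ m := by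
        by_contra h
        push Not at h
        exact hcon.2 (Subtype.ext (AddMonoidHom.ext h))
      have h2 : a ∈ I2 := hall I2 (ne_bot_of_mem ((hI2 _).2 ⟨m - e.1 m, rfl, by
        rw [map_sub, hee, sub_self]⟩) (fun h => hm (by
          have : m - e.1 m = 0 := Subtype.ext h
          exact (sub_eq_zero.1 this).symm)))
      obtain ⟨n, hn, hn'⟩ := (hI2 a).1 h2
      have : n = a' := Subtype.ext hn
      rwa [this] at hn'
    exact ha' (h1.symm.trans h2)
  obtain ⟨hunit, hfin, hcard⟩ := field_bound (S := S) (p ^ k) hq hpow hid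
  -- `M = S a`
  have hsurj : Function.Surjective (fun s : S => s.1 a') := by
    intro m
    by_cases hm : m = 0
    · exact ⟨0, hm.symm ▸ rfl⟩
    let I : TwoSidedIdeal R := TwoSidedIdeal.mk' {x | ∃ s : S, (s.1 m).1 = x}
      ⟨0, rfl⟩
      (by rintro _ _ ⟨s, rfl⟩ ⟨t, rfl⟩; exact ⟨s + t, rfl⟩)
      (by rintro _ ⟨s, rfl⟩; exact ⟨-s, rfl⟩)
      (by rintro r _ ⟨s, rfl⟩; exact ⟨⟨Lm M r, hLS r⟩ * s, rfl⟩)
      (by rintro _ r ⟨s, rfl⟩; exact ⟨⟨Rm M r, hRS r⟩ * s, rfl⟩)
    have hI : ∀ x, x ∈ I ↔ ∃ s : S, (s.1 m).1 = x := fun x =>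
      TwoSidedIdeal.mem_mk' _ _ _ _ _ _ x
    have h1 : a ∈ I := hall I (ne_bot_of_mem ((hI m.1).2 ⟨1, rfl⟩) (fun h => hm (Subtype.ext h)))
    obtain ⟨s, hs⟩ := (hI a).1 h1
    have hs' : s.1 m = a' := Subtype.ext hs
    have hs0 : s ≠ 0 := by
      rintro rfl
      exact ha' hs'.symm
    have h2 := hunit s hs0
    refine ⟨s ^ (p ^ k - 2), ?_⟩
    change (s ^ (p ^ k - 2)).1 a' = m
    have e : p ^ k - 1 = (p ^ k - 2) + 1 := by omega
    rw [e, pow_succ] at h2
    have h3 := DFunLike.congr_fun (congrArg Subtype.val h2) m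
    rw [← hs']
    exact h3
  refine ⟨Finite.of_surjective _ hsurj, ?_, hfin, hcard⟩
  exact (Nat.card_le_card_of_surjective _ hsurj).trans hcard

end action

end Pool.Agent.H854R3.NE
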