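import Pool.Agent.H854R3.NE.EngP

/-! Rings without torsion, and the main theorem. -/

set_option autoImplicit false

namespace Pool.Agent.H854R3.NE

open Polynomial

theorem vdm {M : Type} [AddCommGroup M] (htf : ∀ (k : ℤ) (x : M), k ≠ 0 → k • x = 0 → x = 0)
    (q : ℕ → M) (d : ℕ) (h : ∀ k : ℕ, ∑ i ∈ Finset.range d, ((k : ℤ) ^ i) • q i = 0) :
    ∀ i < d, q i = 0 := by
  let V : Matrix (Fin d) (Fin d) ℤ := Matrix.vandermonde (fun i : Fin d => (i.val : ℤ))
  have hdet : V.det ≠ 0 := by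
    rw [Matrix.det_vandermonde_ne_zero_iff]
    intro i j hij
    apply Fin.ext
    have h1 : (i.val : ℤ) = (j.val : ℤ) := hij
    exact_mod_cast h1
  intro j hj
  apply htf V.det _ hdet
  have h1 : ∑ k : Fin d, V.adjugate ⟨j, hj⟩ k • ∑ i : Fin d, V k i • q i.val = 0 := by
    apply Finset.sum_eq_zero
    intro k _
    have h2 : ∑ i : Fin d, V k i • q i.val = 0 := by
      have := h k.val
      rw [Finset.sum_range] at this
      exact this
    rw [h2, smul_zero]
  have h3 : ∑ k : Fin d, V.adjugate ⟨j, hj⟩ k • ∑ i : Fin d, V k i • q i.val =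
      ∑ i : Fin d, (V.adjugate * V) ⟨j, hj⟩ i • q i.val := by
    simp only [Finset.smul_sum, Matrix.mul_apply, Finset.sum_smul]
    rw [Finset.sum_comm]
    apply Finset.sum_congr rfl
    intro i _
    apply Finset.sum_congr rfl
    intro k _
    rw [smul_smul]
  rw [h3, Matrix.adjugate_mul] at h1
  rw [← h1]
  rw [Finset.sum_eq_single ⟨j, hj⟩]
  · rw [Matrix.smul_apply, Matrix.one_apply_eq, smul_eq_mul, mul_one]
  · intro i _ hi
    rw [Matrix.smul_apply, Matrix.one_apply_ne (Ne.symm hi), smul_zero, zero_smul]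
  · intro h
    exact absurd (Finset.mem_univ _) h

theorem identity_of_embedding {E : Set (RTerm × RTerm)} {A B U : Type} [NonUnitalRing A]
    [NonUnitalRing B] [NonUnitalRing U] (hA : Models E A) (f : B →ₙ+* U) (ι : A →ₙ+* U)
    (h : ∀ b, ∃ a, ι a = f b) {e : RTerm × RTerm} (he : e ∈ E) (v : ℕ → B) :
    f (e.1.val v) = f (e.2.val v) := by
  choose w hw using fun i => h (v i)
  rw [val_map, val_map]
  have h1 : (fun i => f (v i)) = fun i => ι (w i) := funext fun i => (hw i).symm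
  rw [h1, ← val_map, ← val_map, hA e he w]

section tf

variable {U : Type} [Ring U]

/-- evaluation at a natural number -/
noncomputable def evN (U : Type) [Ring U] (k : ℕ) : U[X] →+* U :=
  Polynomial.eval₂RingHom' (RingHom.id U) (k : U) (fun a => (Nat.cast_commute k a).symm)

theorem evN_apply (k : ℕ) (w : U[X]) : evN U k w = w.eval (k : U) := rfl

theorem evN_sum (k : ℕ) (w : U[X]) : evN U k w =
    ∑ i ∈ Finset.range (w.natDegree + 1), ((k : ℤ) ^ i) • w.coeff i := by
  rw [evN_apply, Polynomial.eval_eq_sum_range]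
  apply Finset.sum_congr rfl
  intro i _
  rw [zsmul_eq_mul]
  push_cast
  exact ((Nat.cast_commute k (w.coeff i)).pow_left i).symm

theorem eq_zero_of_evN (htf : ∀ (k : ℤ) (x : U), k ≠ 0 → k • x = 0 → x = 0) (w : U[X])
    (h : ∀ k, evN U k w = 0) : w = 0 := by
  have h1 := vdm htf w.coeff (w.natDegree + 1) (fun k => by rw [← evN_sum, h])
  ext i
  rw [coeff_zero]
  rcases Nat.lt_or_ge i (w.natDegree + 1) with hi | hi
  · exact h1 i hi
  · exact Polynomial.coeff_eq_zero_of_natDegree_lt (by omega)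

theorem eng_CX (u v : U) (k : ℕ) : eng (Polynomial.C u * X) (Polynomial.C v) k =
    Polynomial.C (eng u v k) * X := by
  induction k with
  | zero => rfl
  | succ k ih =>
    change eng (Polynomial.C u * X) (Polynomial.C v) k * Polynomial.C v -
      Polynomial.C v * eng (Polynomial.C u * X) (Polynomial.C v) k =
        Polynomial.C (eng u v k * v - v * eng u v k) * X
    rw [ih, map_sub, map_mul, map_mul, sub_mul, mul_assoc, Polynomial.X_mul, mul_assoc, mul_assoc]

end tf

theorem engel_tf_aux {E : Set (RTerm × RTerm)} {n : ℕ} (hD : D2Engel E n) {A : Type}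
    [NonUnitalRing A] (hA : Models E A) {U : Type} [Ring U] (ι : A →ₙ+* U)
    (hι : Function.Injective ι) (htfU : ∀ (k : ℤ) (x : U), k ≠ 0 → k • x = 0 → x = 0)
    (x y : A) : eng x y n = 0 := by
  let X1 : U[X] := Polynomial.C (ι x) * X
  let Y1 : U[X] := Polynomial.C (ι y)
  have hg := genBy_sub2 X1 Y1
  -- evaluations
  let ev : ∀ k : ℕ, sub2 X1 Y1 →ₙ+* U := fun k =>
    { toFun := fun w => evN U k (w : U[X])
      map_mul' := fun a b => map_mul (evN U k) _ _
      map_zero' := map_zero (evN U k)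
      map_add' := fun a b => map_add (evN U k) _ _ }
  have hev : ∀ k, ∀ b, ∃ a, ι a = ev k b := by
    intro k b
    refine hg.induction (P := fun b => ∃ a, ι a = ev k b) ?_ ?_ ?_ ?_ ?_ ?_ b
    · refine ⟨(k : ℤ) • x, ?_⟩
      change _ = evN U k (Polynomial.C (ι x) * X)
      rw [evN_apply, Polynomial.eval_mul_X, Polynomial.eval_C, map_zsmul, zsmul_eq_mul]
      push_cast
      exact Nat.cast_commute k _
    · refine ⟨y, ?_⟩
      change _ = evN U k (Polynomial.C (ι y))
      rw [evN_apply, Polynomial.eval_C]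
    · exact ⟨0, by rw [map_zero, map_zero]⟩
    · rintro a b ⟨a', ha⟩ ⟨b', hb⟩
      exact ⟨a' + b', by rw [map_add, map_add, ha, hb]⟩
    · rintro a ⟨a', ha⟩
      exact ⟨-a', by rw [map_neg, map_neg, ha]⟩
    · rintro a b ⟨a', ha⟩ ⟨b', hb⟩
      exact ⟨a' * b', by rw [map_mul, map_mul, ha, hb]⟩
  have hB : Models E (sub2 X1 Y1) := by
    intro e he v
    apply Subtype.ext
    rw [← sub_eq_zero]
    apply eq_zero_of_evN htfU
    intro k
    rw [map_sub, sub_eq_zero]
    exact identity_of_embedding hA (ev k) (ι) (hev k) he v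
  have h1 := eng_mem_CC hD hB (sx X1 Y1) (sy X1 Y1)
  -- coefficients
  let c0 : sub2 X1 Y1 → U := fun w => (w : U[X]).coeff 0
  let c1 : sub2 X1 Y1 → U := fun w => (w : U[X]).coeff 1
  have c0mul : ∀ a b, c0 (a * b) = c0 a * c0 b := fun a b => Polynomial.mul_coeff_zero _ _
  have c1mul : ∀ a b, c1 (a * b) = c0 a * c1 b + c1 a * c0 b := fun a b =>
    Polynomial.mul_coeff_one _ _
  have c0add : ∀ a b, c0 (a + b) = c0 a + c0 b := fun a b => Polynomial.coeff_add _ _ _
  have c1add : ∀ a b, c1 (a + b) = c1 a + c1 b := fun a b => Polynomial.coeff_add _ _ _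
  have c0neg : ∀ a, c0 (-a) = - c0 a := fun a => Polynomial.coeff_neg _ _
  have c1neg : ∀ a, c1 (-a) = - c1 a := fun a => Polynomial.coeff_neg _ _
  have c0zero : c0 0 = 0 := Polynomial.coeff_zero _
  have c1zero : c1 0 = 0 := Polynomial.coeff_zero _
  have c0x : c0 (sx X1 Y1) = 0 := by
    change (Polynomial.C (ι x) * X).coeff 0 = 0
    simp
  have c0y : c0 (sy X1 Y1) = ι y := by
    change (Polynomial.C (ι y)).coeff 0 = _
    simp
  have hcomm1 : ∀ a, c0 a * ι y = ι y * c0 a := by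
    intro a
    refine hg.induction (P := fun a => c0 a * ι y = ι y * c0 a) ?_ ?_ ?_ ?_ ?_ ?_ a
    · rw [c0x, zero_mul, mul_zero]
    · rw [c0y]
    · rw [c0zero, zero_mul, mul_zero]
    · intro a b ha hb; rw [c0add, add_mul, mul_add, ha, hb]
    · intro a ha; rw [c0neg, neg_mul, mul_neg, ha]
    · intro a b ha hb; rw [c0mul, mul_assoc, hb, ← mul_assoc, ha, mul_assoc]
  have hcomm : ∀ b a, c0 a * c0 b = c0 b * c0 a := by
    intro b
    refine hg.induction (P := fun b => ∀ a, c0 a * c0 b = c0 b * c0 a) ?_ ?_ ?_ ?_ ?_ ?_ b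
    · intro a; rw [c0x, zero_mul, mul_zero]
    · intro a; rw [c0y]; exact hcomm1 a
    · intro a; rw [c0zero, zero_mul, mul_zero]
    · intro u v hu hv a; rw [c0add, add_mul, mul_add, hu, hv]
    · intro u hu a; rw [c0neg, neg_mul, mul_neg, hu]
    · intro u v hu hv a
      rw [c0mul, ← mul_assoc, hu, mul_assoc, hv, mul_assoc]
  have hCommZ : ∀ g ∈ Comm (sub2 X1 Y1), c0 g = 0 := by
    rintro _ ⟨u, v, rfl⟩
    rw [sub_eq_add_neg, c0add, c0neg, c0mul, c0mul, hcomm v u, add_neg_cancel]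
  let K : TwoSidedIdeal (sub2 X1 Y1) := TwoSidedIdeal.mk' {w | c0 w = 0 ∧ c1 w = 0}
    ⟨c0zero, c1zero⟩
    (by
      rintro a b ⟨ha, ha'⟩ ⟨hb, hb'⟩
      exact ⟨by rw [c0add, ha, hb, add_zero], by rw [c1add, ha', hb', add_zero]⟩)
    (by
      rintro a ⟨ha, ha'⟩
      exact ⟨by rw [c0neg, ha, neg_zero], by rw [c1neg, ha', neg_zero]⟩)
    (by
      rintro a b ⟨hb, hb'⟩
      exact ⟨by rw [c0mul, hb, mul_zero], by rw [c1mul, hb, hb', mul_zero, mul_zero, add_zero]⟩)
    (by
      rintro a b ⟨ha, ha'⟩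
      exact ⟨by rw [c0mul, ha, zero_mul], by rw [c1mul, ha, ha', zero_mul, zero_mul, add_zero]⟩)
  have hK : ∀ w, w ∈ K ↔ c0 w = 0 ∧ c1 w = 0 := fun z => TwoSidedIdeal.mem_mk' _ _ _ _ _ _ z
  have hle : TwoSidedIdeal.span (CC (sub2 X1 Y1)) ≤ K := by
    rw [TwoSidedIdeal.span_le]
    rintro g ⟨b, hb, c, hc, rfl | ⟨e, rfl⟩⟩
    · refine (hK _).2 ⟨?_, ?_⟩
      · rw [c0mul, hCommZ b hb, zero_mul]
      · rw [c1mul, hCommZ b hb, hCommZ c hc, zero_mul, mul_zero, add_zero]
    · refine (hK _).2 ⟨?_, ?_⟩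
      · rw [c0mul, c0mul, hCommZ b hb, zero_mul, zero_mul]
      · rw [c1mul, c0mul, hCommZ b hb, hCommZ c hc, zero_mul, zero_mul, mul_zero, add_zero]
  have h2 := ((hK _).1 (hle h1)).2
  have h3 := eng_map (NonUnitalSubringClass.subtype (sub2 X1 Y1)) (sx X1 Y1) (sy X1 Y1) n
  have h4 : c1 (eng (sx X1 Y1) (sy X1 Y1) n) = ι (eng x y n) := by
    change ((eng (sx X1 Y1) (sy X1 Y1) n : sub2 X1 Y1) : U[X]).coeff 1 = _
    have h5 : ((eng (sx X1 Y1) (sy X1 Y1) n : sub2 X1 Y1) : U[X]) =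
        eng X1 Y1 n := h3
    rw [h5]
    change (eng (Polynomial.C (ι x) * X) (Polynomial.C (ι y)) n).coeff 1 = _
    rw [eng_CX, Polynomial.coeff_C_mul, Polynomial.coeff_X_one, mul_one]
    exact (eng_map ι x y n).symm
  rw [h2] at h4
  exact hι (h4.symm.trans (map_zero ι).symm)

theorem engel_tf {E : Set (RTerm × RTerm)} {n : ℕ} (hD : D2Engel E n) {A : Type}
    [NonUnitalRing A] (hA : Models E A) (htf : ∀ (k : ℤ) (x : A), k ≠ 0 → k • x = 0 → x = 0)
    (x y : A) : eng x y n = 0 := by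
  refine engel_tf_aux (U := Unitization ℤ A) hD hA (inrR A) (inrR_inj A) ?_ x y
  intro k u hk hu
  apply Unitization.ext
  · have h1 : k • u.fst = 0 := congrArg (fun z : Unitization ℤ A => z.fst) hu
    exact (smul_eq_zero.1 h1).resolve_left hk
  · exact htf k u.snd hk (congrArg (fun z : Unitization ℤ A => z.snd) hu)

theorem engel_torsion {E : Set (RTerm × RTerm)} {n : ℕ} (hD : D2Engel E n) {A : Type}
    [NonUnitalRing A] (hA : Models E A) (x y : A) : ∃ N : ℕ, N ≠ 0 ∧ N • eng x y n = 0 := by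
  let I : TwoSidedIdeal A := TwoSidedIdeal.mk' {z | ∃ N : ℕ, N ≠ 0 ∧ N • z = 0}
    ⟨1, one_ne_zero, smul_zero _⟩
    (by
      rintro a b ⟨N, hN, ha⟩ ⟨M, hM, hb⟩
      refine ⟨N * M, mul_ne_zero hN hM, ?_⟩
      rw [smul_add, mul_comm, mul_smul, ha, smul_zero, zero_add, mul_comm, mul_smul, hb, smul_zero])
    (by
      rintro a ⟨N, hN, ha⟩
      exact ⟨N, hN, by rw [smul_neg, ha, neg_zero]⟩)
    (by
      rintro a b ⟨N, hN, hb⟩
      exact ⟨N, hN, by rw [← mul_smul_comm, hb, mul_zero]⟩)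
    (by
      rintro a b ⟨N, hN, ha⟩
      exact ⟨N, hN, by rw [← smul_mul_assoc, ha, zero_mul]⟩)
  have hI : ∀ z, z ∈ I ↔ ∃ N : ℕ, N ≠ 0 ∧ N • z = 0 := fun z => TwoSidedIdeal.mem_mk' _ _ _ _ _ _ z
  obtain ⟨Q, i1, φ, hφ, hker⟩ := exists_quot I
  have h1 := engel_tf hD (hA.of_surjective φ hφ) (by
    intro k q hk hq
    obtain ⟨a, rfl⟩ := hφ q
    rw [hker, hI]
    have h2 : k.natAbs • a ∈ I := by
      rw [← hker, map_nsmul]
      rcases Int.natAbs_eq k with h | h
      · rw [h] at hq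
        rwa [natCast_zsmul] at hq
      · rw [h, neg_smul, natCast_zsmul, neg_eq_zero] at hq
        exact hq
    obtain ⟨N, hN, h3⟩ := (hI _).1 h2
    exact ⟨N * k.natAbs, mul_ne_zero hN (Int.natAbs_ne_zero.2 hk), by rw [mul_smul, h3]⟩)
    (φ x) (φ y)
  rw [← eng_map, hker, hI] at h1
  exact h1

theorem strip_prime {E : Set (RTerm × RTerm)} {n p : ℕ} [hp : Fact p.Prime] (hD : D2Engel E n)
    (hW : IsEngel (E ∪ WId p (p ^ 1))) {A : Type} [NonUnitalRing A] (hA : Models E A)
    {w : A} (hw : p • w = 0) (y : A) : ∃ m, eng w y m = 0 := by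
  let B : NonUnitalSubring (A × A) :=
    { carrier := {z | p • (z.1 - z.2) = 0}
      zero_mem' := by
        change p • ((0 : A) - 0) = 0
        rw [sub_self, smul_zero]
      add_mem' := by
        rintro ⟨a, b⟩ ⟨c, d⟩ h1 h2
        change p • ((a + c) - (b + d)) = 0
        have : (a + c) - (b + d) = (a - b) + (c - d) := by abel
        rw [this, smul_add, show p • (a - b) = 0 from h1, show p • (c - d) = 0 from h2, add_zero]
      neg_mem' := by
        rintro ⟨a, b⟩ h1
        change p • (-a - -b) = 0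
        have : (-a - -b) = - (a - b) := by abel
        rw [this, smul_neg, show p • (a - b) = 0 from h1, neg_zero]
      mul_mem' := by
        rintro ⟨a, b⟩ ⟨c, d⟩ h1 h2
        change p • (a * c - b * d) = 0
        have : (a * c - b * d) = (a - b) * c + b * (c - d) := by noncomm_ring
        rw [this, smul_add, ← smul_mul_assoc, ← mul_smul_comm,
          show p • (a - b) = 0 from h1, show p • (c - d) = 0 from h2, zero_mul, mul_zero,
          add_zero] }
  have hB : Models E B := (hA.prod hA).subring B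
  let I : TwoSidedIdeal B := TwoSidedIdeal.mk' {z | ∃ c : B, z = p • c}
    ⟨0, (smul_zero _).symm⟩
    (by
      rintro _ _ ⟨a, rfl⟩ ⟨b, rfl⟩
      exact ⟨a + b, (smul_add _ _ _).symm⟩)
    (by
      rintro _ ⟨a, rfl⟩
      exact ⟨-a, (smul_neg _ _).symm⟩)
    (by
      rintro a _ ⟨b, rfl⟩
      exact ⟨a * b, mul_smul_comm _ _ _⟩)
    (by
      rintro _ b ⟨a, rfl⟩
      exact ⟨a * b, smul_mul_assoc _ _ _⟩)
  have hI : ∀ z, z ∈ I ↔ ∃ c : B, z = p • c := fun z => TwoSidedIdeal.mem_mk' _ _ _ _ _ _ z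
  obtain ⟨Q, i1, φ, hφ, hker⟩ := exists_quot I
  have hQ := hB.of_surjective φ hφ
  have hpQ : ∀ q : Q, p • q = 0 := by
    intro q
    obtain ⟨b, rfl⟩ := hφ q
    rw [← map_nsmul, hker, hI]
    exact ⟨b, rfl⟩
  let W : B := ⟨(0, w), by
    change p • (0 - w) = 0
    rw [zero_sub, smul_neg, hw, neg_zero]⟩
  let Y : B := ⟨(y, y), by
    change p • (y - y) = 0
    rw [sub_self, smul_zero]⟩
  obtain ⟨m, hm⟩ := engel_p hD hW hQ hpQ (φ W) (φ Y)
  rw [← eng_map, hker, hI] at hm
  obtain ⟨c, hc⟩ := hm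
  refine ⟨m, ?_⟩
  have h1 := eng_map ((NonUnitalRingHom.fst A A).comp (NonUnitalSubringClass.subtype B)) W Y m
  have h2 := eng_map ((NonUnitalRingHom.snd A A).comp (NonUnitalSubringClass.subtype B)) W Y m
  rw [hc, map_nsmul] at h1 h2
  have h3 : p • c.1.1 = eng (0 : A) y m := h1
  have h4 : p • c.1.2 = eng w y m := h2
  rw [eng_zero_left] at h3
  have h5 : p • (c.1.1 - c.1.2) = 0 := c.2
  rw [smul_sub, h3, zero_sub, neg_eq_zero] at h5
  rw [← h4, h5]

theorem strip {E : Set (RTerm × RTerm)} {n : ℕ} (hD : D2Engel E n)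
    (hW : ∀ p k : ℕ, p.Prime → 1 ≤ k → IsEngel (E ∪ WId p (p ^ k))) {A : Type} [NonUnitalRing A]
    (hA : Models E A) (y : A) (N : ℕ) : N ≠ 0 → ∀ u : A, N • u = 0 → ∃ m, eng u y m = 0 := by
  induction N using Nat.strong_induction_on with
  | _ N ih =>
    intro hN u hu
    by_cases h1 : N = 1
    · rw [h1, one_smul] at hu
      exact ⟨0, hu⟩
    · have hp : N.minFac.Prime := Nat.minFac_prime h1
      obtain ⟨M, hM⟩ := Nat.minFac_dvd N
      have hf : Fact N.minFac.Prime := ⟨hp⟩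
      have hMN : M < N := by
        have h2 := hp.two_le
        have h3 : M ≠ 0 := by rintro rfl; rw [mul_zero] at hM; exact hN hM
        have h4 : 0 < M := Nat.pos_of_ne_zero h3
        calc M < 2 * M := by omega
          _ ≤ N.minFac * M := Nat.mul_le_mul_right M h2
          _ = N := hM.symm
      have hM0 : M ≠ 0 := by rintro rfl; rw [mul_zero] at hM; exact hN hM
      have h5 : N.minFac • (M • u) = 0 := by rw [← mul_smul, ← hM, hu]
      obtain ⟨m, hm⟩ := strip_prime hD (hW _ 1 hp (le_refl _)) hA h5 y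
      have h6 : M • eng u y m = 0 := by
        have := eng_zsmul_left (M : ℤ) u y m
        rw [natCast_zsmul, natCast_zsmul] at this
        rw [← this, hm]
      obtain ⟨m', hm'⟩ := ih M hMN hM0 _ h6
      exact ⟨m + m', by rw [eng_add, hm']⟩

/-- If all the intersections of the variety with the varieties given by the pairs `(p, q)` are
Engel, then the variety is Engel. -/
theorem engel_of_forall {E : Set (RTerm × RTerm)}
    (hW : ∀ p k : ℕ, p.Prime → 1 ≤ k → IsEngel (E ∪ WId p (p ^ k))) : IsEngel E := by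
  obtain ⟨n, hD⟩ := exists_D2Engel hW
  apply isEngel_of_forall
  intro A _ x y hA
  obtain ⟨N, hN, h1⟩ := engel_torsion hD hA x y
  obtain ⟨m, hm⟩ := strip hD hW hA y N hN _ h1
  exact ⟨n + m, by rw [eng_add, hm]⟩

/-- Every minimal non-Engel variety of associative rings is a Cross variety. -/
theorem main {E : Set (RTerm × RTerm)} (h : MinimalNonEngel E) : IsCross E := by
  obtain ⟨h1, h2⟩ := h
  have h3 : ∃ p k : ℕ, p.Prime ∧ 1 ≤ k ∧ ¬ IsEngel (E ∪ WId p (p ^ k)) := by
    by_contra hcon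
    push Not at hcon
    exact h1 (engel_of_forall hcon)
  obtain ⟨p, k, hp, hk, hne⟩ := h3
  have hf : Fact p.Prime := ⟨hp⟩
  have h4 : SubvarietyOf E (E ∪ WId p (p ^ k)) := by
    by_contra hcon
    exact hne (h2 _ (fun R _ hR e he => hR e (Or.inl he)) hcon)
  exact cross_of_sub hk (fun R _ hR e he => h4 R hR e (Or.inr he))

end Pool.Agent.H854R3.NE
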